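import Pool.Agent.K1H88.WS.Split

set_option autoImplicit false

/-! The final count. -/

namespace Pool.Agent.K1H88.WS

open Finset Real Pool.Agent.W57.SW

open Classical in
theorem top_count : ∃ K : ℝ, 0 < K ∧ ∀ x : ℕ, 1 ≤ x →
    (((Icc 1 x).filter (fun n => Bd 2 n ∧ (x : ℝ) ^ (th 2) < n)).card : ℝ) ≤
      K * (x : ℝ) ^ (1 / 2 - 1 / 20000 : ℝ) := by
  obtain ⟨C1, hC1, Y1, h1⟩ := caseA1
  obtain ⟨C2, hC2, h2⟩ := caseA2
  obtain ⟨C3, hC3, h3⟩ := caseS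
  obtain ⟨C4, hC4, h4⟩ := caseA4i
  obtain ⟨C5, hC5, h5⟩ := caseA4ii
  have h6 := caseA4iii
  obtain ⟨C7, hC7, h7⟩ := caseB0
  obtain ⟨C8, hC8, Y8, h8⟩ := caseB1
  obtain ⟨C9, hC9, h9⟩ := caseB2
  obtain ⟨YA, hYA1, hYA⟩ := split_A
  obtain ⟨YB, hYB1, hYB⟩ := split_B
  obtain ⟨N0, hN0⟩ := top_of_bd
  have hth := th_pos 2
  have hev1 : ∀ᶠ x : ℝ in Filter.atTop, (N0 : ℝ) ≤ x ^ (th 2) :=
    (tendsto_rpow_atTop hth).eventually (Filter.eventually_ge_atTop _)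
  have hev2 : ∀ᶠ x : ℝ in Filter.atTop, 2 ≤ log x :=
    tendsto_log_atTop.eventually (Filter.eventually_ge_atTop _)
  obtain ⟨x0, hx0⟩ := Filter.eventually_atTop.mp (hev1.and hev2)
  obtain ⟨Y0, hY0⟩ := exists_nat_ge x0
  obtain ⟨X0, hX0⟩ : ∃ X0, X0 = Y0 + Y1 + Y8 + YA + YB := ⟨_, rfl⟩
  refine ⟨(X0 : ℝ) + (C1 + C2 + C3 + C4 + C5 + 1 + C7 + C8 + C9 + 1), by positivity, ?_⟩
  intro x hx
  have hx1 : (1 : ℝ) ≤ x := by exact_mod_cast hx
  have hxpos : (0 : ℝ) < x := by linarith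
  obtain ⟨W, hW⟩ : ∃ W : ℝ, W = (x : ℝ) ^ (1 / 2 - 1 / 20000 : ℝ) := ⟨_, rfl⟩
  have hW1 : 1 ≤ W := by rw [hW]; exact one_le_rpow hx1 (by norm_num)
  obtain ⟨A, hA⟩ : ∃ A, A = (Icc 1 x).filter (fun n => Bd 2 n ∧ (x : ℝ) ^ (th 2) < n) := ⟨_, rfl⟩
  rw [← hA, ← hW]
  have hX0' : (0 : ℝ) ≤ X0 := Nat.cast_nonneg X0
  rcases lt_or_ge x X0 with hsmall | hlarge
  · have i1 : A.card ≤ x := by
      rw [hA]
      refine (card_filter_le _ _).trans ?_
      rw [Nat.card_Icc]; omega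
    have i2 : (A.card : ℝ) ≤ X0 := by exact_mod_cast i1.trans hsmall.le
    calc (A.card : ℝ) ≤ ((X0 : ℝ) + (C1 + C2 + C3 + C4 + C5 + 1 + C7 + C8 + C9 + 1)) * 1 := by
          linarith
      _ ≤ _ := mul_le_mul_of_nonneg_left hW1 (by positivity)
  · have hY0x : Y0 ≤ x := by omega
    have hY1x : Y1 ≤ x := by omega
    have hY8x : Y8 ≤ x := by omega
    have hYAx : YA ≤ x := by omega
    have hYBx : YB ≤ x := by omega
    obtain ⟨c1, c2⟩ := hx0 x (hY0.trans (by exact_mod_cast hY0x))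
    have hcov : A ⊆ A.filter (HA1 x) ∪ A.filter (HA2 x) ∪ A.filter (HS x) ∪ A.filter (HA4i x) ∪
        A.filter (HA4ii x) ∪ A.filter (HA4iii x) ∪ A.filter (HB0 x) ∪ A.filter (HB1 x) ∪
        A.filter (HB2 x) ∪ Icc 1 ⌊(zz x) ^ 4⌋₊ := by
      intro n hn
      have hn' := hn
      rw [hA, mem_filter, mem_Icc] at hn'
      obtain ⟨⟨hn1, hnx⟩, hb, hnr⟩ := hn'
      have hNn : N0 ≤ n := by
        have : (N0 : ℝ) ≤ n := c1.trans hnr.le
        exact_mod_cast this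
      have hlogn : th 2 * log x ≤ log n := by
        have := log_le_log (by positivity) hnr.le
        rwa [log_rpow hxpos] at this
      have hlog : (log (x : ℝ)) ^ (2 : ℝ) ≤ 2 * (log n) ^ (2 : ℝ) := by
        have i1 := rpow_le_rpow (by positivity : 0 ≤ th 2 * log (x : ℝ)) hlogn
          (show (0 : ℝ) ≤ 2 by norm_num)
        rw [mul_rpow hth.le (by linarith), th_rpow (by norm_num)] at i1
        linarith
      have hL4 : 2 ≤ (log (x : ℝ)) ^ (2 : ℝ) := by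
        have i1 : (log (x : ℝ)) ^ (1 : ℝ) ≤ (log (x : ℝ)) ^ (2 : ℝ) :=
          rpow_le_rpow_of_exponent_le (by linarith) (by norm_num)
        rw [rpow_one] at i1
        linarith
      obtain ⟨ht, hc⟩ := hN0 x n hNn hnx hlog hL4 hb
      simp only [mem_union, mem_filter, mem_Icc]
      rcases hc with hc | hc
      · have := hYA x hYAx n ht hc
        tauto
      · have := hYB x hYBx n ht hc
        rcases this with h | h | h | h | h
        · tauto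
        · tauto
        · tauto
        · tauto
        · right
          exact ⟨hn1, Nat.le_floor h⟩
    have hz1 := zz_one hx
    have b1 := h1 x hY1x (A.filter (HA1 x)) fun n hn => (mem_filter.1 hn).2
    have b2 := h2 x hx (A.filter (HA2 x)) fun n hn => (mem_filter.1 hn).2
    have b3 := h3 x hx (A.filter (HS x)) fun n hn => (mem_filter.1 hn).2
    have b4 := h4 x hx (A.filter (HA4i x)) fun n hn => (mem_filter.1 hn).2
    have b5 := h5 x hx (A.filter (HA4ii x)) fun n hn => (mem_filter.1 hn).2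
    have b6 := h6 x hx (A.filter (HA4iii x)) fun n hn => (mem_filter.1 hn).2
    have b7 := h7 x hx (A.filter (HB0 x)) fun n hn => (mem_filter.1 hn).2
    have b8 := h8 x hY8x (A.filter (HB1 x)) fun n hn => (mem_filter.1 hn).2
    have b9 := h9 x hx (A.filter (HB2 x)) fun n hn => (mem_filter.1 hn).2
    have b10 : ((Icc 1 ⌊(zz x) ^ 4⌋₊).card : ℝ) ≤ W := by
      rw [Nat.card_Icc, Nat.add_sub_cancel]
      refine (Nat.floor_le (by positivity)).trans ?_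
      have : (zz x) ^ 4 = (x : ℝ) ^ (4 / 600 : ℝ) := by
        rw [show (zz x) ^ 4 = (zz x) ^ ((4 : ℕ) : ℝ) from (rpow_natCast _ _).symm, zz_rpow]
        norm_num
      rw [this, hW]
      exact rpow_le_rpow_of_exponent_le hx1 (by norm_num)
    rw [← hW] at b1 b2 b3 b4 b5 b6 b7 b8 b9
    have hcard : (A.card : ℝ) ≤ (A.filter (HA1 x)).card + (A.filter (HA2 x)).card +
        (A.filter (HS x)).card + (A.filter (HA4i x)).card + (A.filter (HA4ii x)).card +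
        (A.filter (HA4iii x)).card + (A.filter (HB0 x)).card + (A.filter (HB1 x)).card +
        (A.filter (HB2 x)).card + (Icc 1 ⌊(zz x) ^ 4⌋₊).card := by
      have i0 := card_le_card hcov
      have u1 := card_union_le (A.filter (HA1 x)) (A.filter (HA2 x))
      have u2 := card_union_le (A.filter (HA1 x) ∪ A.filter (HA2 x)) (A.filter (HS x))
      have u3 := card_union_le (A.filter (HA1 x) ∪ A.filter (HA2 x) ∪ A.filter (HS x))
        (A.filter (HA4i x))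
      have u4 := card_union_le (A.filter (HA1 x) ∪ A.filter (HA2 x) ∪ A.filter (HS x) ∪
        A.filter (HA4i x)) (A.filter (HA4ii x))
      have u5 := card_union_le (A.filter (HA1 x) ∪ A.filter (HA2 x) ∪ A.filter (HS x) ∪
        A.filter (HA4i x) ∪ A.filter (HA4ii x)) (A.filter (HA4iii x))
      have u6 := card_union_le (A.filter (HA1 x) ∪ A.filter (HA2 x) ∪ A.filter (HS x) ∪
        A.filter (HA4i x) ∪ A.filter (HA4ii x) ∪ A.filter (HA4iii x)) (A.filter (HB0 x))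
      have u7 := card_union_le (A.filter (HA1 x) ∪ A.filter (HA2 x) ∪ A.filter (HS x) ∪
        A.filter (HA4i x) ∪ A.filter (HA4ii x) ∪ A.filter (HA4iii x) ∪ A.filter (HB0 x))
        (A.filter (HB1 x))
      have u8 := card_union_le (A.filter (HA1 x) ∪ A.filter (HA2 x) ∪ A.filter (HS x) ∪
        A.filter (HA4i x) ∪ A.filter (HA4ii x) ∪ A.filter (HA4iii x) ∪ A.filter (HB0 x) ∪
        A.filter (HB1 x)) (A.filter (HB2 x))
      have u9 := card_union_le (A.filter (HA1 x) ∪ A.filter (HA2 x) ∪ A.filter (HS x) ∪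
        A.filter (HA4i x) ∪ A.filter (HA4ii x) ∪ A.filter (HA4iii x) ∪ A.filter (HB0 x) ∪
        A.filter (HB1 x) ∪ A.filter (HB2 x)) (Icc 1 ⌊(zz x) ^ 4⌋₊)
      have : A.card ≤ (A.filter (HA1 x)).card + (A.filter (HA2 x)).card +
        (A.filter (HS x)).card + (A.filter (HA4i x)).card + (A.filter (HA4ii x)).card +
        (A.filter (HA4iii x)).card + (A.filter (HB0 x)).card + (A.filter (HB1 x)).card +
        (A.filter (HB2 x)).card + (Icc 1 ⌊(zz x) ^ 4⌋₊).card := by omega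
      exact_mod_cast this
    have hX0W : 0 ≤ (X0 : ℝ) * W := by positivity
    calc (A.card : ℝ) ≤ _ := hcard
      _ ≤ C1 * W + C2 * W + C3 * W + C4 * W + C5 * W + W + C7 * W + C8 * W + C9 * W + W := by
          linarith
      _ ≤ _ := by linarith

open Classical in
/-- The number of exceptions. -/
theorem ws_count : ∃ K : ℝ, 0 < K ∧ ∀ x : ℕ, 1 ≤ x →
    (((Icc 1 x).filter (Bd 2)).card : ℝ) ≤ K * (x : ℝ) ^ (1 / 2 - 1 / 20000 : ℝ) := by
  obtain ⟨K, hK, htop⟩ := top_count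
  obtain ⟨K', hK', hbd⟩ := bd_count 2 (1 / 10) le_rfl (by norm_num)
  have hth := th_pos 2
  have hth8 : th 2 ≤ 8 / 10 := by
    have h1 : (th 2) ^ (2 : ℝ) = 1 / 2 := th_rpow (by norm_num)
    by_contra hcon
    push Not at hcon
    have h2 : (8 / 10 : ℝ) ^ (2 : ℝ) ≤ (th 2) ^ (2 : ℝ) :=
      rpow_le_rpow (by norm_num) hcon.le (by norm_num)
    rw [h1] at h2
    norm_num at h2
  refine ⟨K + K', by positivity, ?_⟩
  intro x hx
  have hx1 : (1 : ℝ) ≤ x := by exact_mod_cast hx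
  have hxpos : (0 : ℝ) < x := by linarith
  obtain ⟨y, hy⟩ : ∃ y : ℕ, y = ⌊(x : ℝ) ^ (th 2)⌋₊ := ⟨_, rfl⟩
  have hyle : (y : ℝ) ≤ (x : ℝ) ^ (th 2) := by rw [hy]; exact Nat.floor_le (by positivity)
  have hy1 : 1 ≤ y := by
    rw [hy]
    apply Nat.le_floor
    rw [Nat.cast_one]
    exact one_le_rpow hx1 hth.le
  have hcov : (Icc 1 x).filter (Bd 2) ⊆
      (Icc 1 x).filter (fun n => Bd 2 n ∧ (x : ℝ) ^ (th 2) < n) ∪ (Icc 1 y).filter (Bd 2) := by
    intro n hn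
    rw [mem_filter, mem_Icc] at hn
    obtain ⟨⟨hn1, hnx⟩, hb⟩ := hn
    rw [mem_union, mem_filter, mem_filter, mem_Icc, mem_Icc]
    rcases lt_or_ge ((x : ℝ) ^ (th 2)) n with h | h
    · exact Or.inl ⟨⟨hn1, hnx⟩, hb, h⟩
    · right
      exact ⟨⟨hn1, by rw [hy]; exact Nat.le_floor h⟩, hb⟩
  have h1 := (card_le_card hcov).trans (card_union_le _ _)
  have h2 : (((Icc 1 x).filter (Bd 2)).card : ℝ) ≤
      (((Icc 1 x).filter (fun n => Bd 2 n ∧ (x : ℝ) ^ (th 2) < n)).card : ℝ) +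
      (((Icc 1 y).filter (Bd 2)).card : ℝ) := by exact_mod_cast h1
  have h3 := htop x hx
  have h4 := hbd y hy1
  have h5 : (y : ℝ) ^ (1 / 2 + 1 / 10 : ℝ) ≤ (x : ℝ) ^ (1 / 2 - 1 / 20000 : ℝ) := by
    calc (y : ℝ) ^ (1 / 2 + 1 / 10 : ℝ) ≤ ((x : ℝ) ^ (th 2)) ^ (1 / 2 + 1 / 10 : ℝ) :=
          rpow_le_rpow (Nat.cast_nonneg _) hyle (by norm_num)
      _ ≤ ((x : ℝ) ^ (8 / 10 : ℝ)) ^ (1 / 2 + 1 / 10 : ℝ) :=
          rpow_le_rpow (by positivity) (rpow_le_rpow_of_exponent_le hx1 hth8) (by norm_num)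
      _ = (x : ℝ) ^ ((8 / 10) * (1 / 2 + 1 / 10) : ℝ) := by rw [← rpow_mul hxpos.le]
      _ ≤ _ := rpow_le_rpow_of_exponent_le hx1 (by norm_num)
  have h6 : K' * (y : ℝ) ^ (1 / 2 + 1 / 10 : ℝ) ≤ K' * (x : ℝ) ^ (1 / 2 - 1 / 20000 : ℝ) :=
    mul_le_mul_of_nonneg_left h5 hK'.le
  linarith

end Pool.Agent.K1H88.WS
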