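import Pool.Agent.K1H88.WS.Sparse

set_option autoImplicit false

/-! The structure of the exceptions. -/

namespace Pool.Agent.K1H88.WS

open Finset Real Pool.Agent.W57.SW Pool.Agent.H379R2.W

/-- basic properties of the exceptions -/
def Top (x n : ℕ) : Prop :=
  n ≤ x ∧ 2 ≤ n ∧ ¬ n.Prime ∧ Squarefree n ∧ Odd n ∧ Nz x n ∧ ∀ D, D ∣ n → Lam x D ∣ n - 1

/-- two primes with equal symbols, all other primes have the same symbols or all symbols one -/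
def CA (x n : ℕ) : Prop :=
  ∃ p1 p2 m : ℕ, n = p1 * p2 * m ∧ p1.Prime ∧ p2.Prime ∧ p1 ≠ p2 ∧ Sy x p1 p2 ∧
    m.primeFactors ⊆ PP x p1

/-- all primes but one have all symbols one -/
def CB (x n : ℕ) : Prop :=
  ∃ p0 m : ℕ, n = p0 * m ∧ p0.Prime ∧ m.primeFactors ⊆ PP x 1

lemma nz_dvd {x n D : ℕ} (h : Nz x n) (hD : D ∣ n) : Nz x D := fun ℓ hℓ h' => h ℓ hℓ (h'.trans hD)

lemma top_of_bd : ∃ N0 : ℕ, ∀ x n : ℕ, N0 ≤ n → n ≤ x →
    (log x) ^ (2 : ℝ) ≤ 2 * (log n) ^ (2 : ℝ) → 2 ≤ (log x) ^ (2 : ℝ) → Bd 2 n →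
    Top x n ∧ (CA x n ∨ CB x n) := by
  obtain ⟨N1, hN1⟩ := bad_squarefree
  refine ⟨max N1 3, fun x n hNn hnx hlog hlog2 hb => ?_⟩
  have hn3 : 3 ≤ n := (le_max_right _ _).trans hNn
  have hsq : Squarefree n := hN1 n ((le_max_left _ _).trans hNn) (hb.bad le_rfl hn3)
  have hn2 := hb.1
  have hbig : ∀ q : ℕ, q.Prime → q ∣ n → (log x) ^ (2 : ℝ) < q := by
    intro q hq hqn
    have h1 := bd_prime_large hb hq hqn
    linarith
  have hnz : Nz x n := by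
    intro ℓ hℓ hℓn
    rw [mem_Vs] at hℓ
    have := hbig ℓ hℓ.1 hℓn
    linarith [hℓ.2.1]
  have hne2 : ∀ q : ℕ, q.Prime → q ∣ n → q ≠ 2 := by
    rintro q hq hqn rfl
    have := hbig 2 hq hqn
    push_cast at this
    linarith
  have hodd : Odd n := by
    rw [← Nat.not_even_iff_odd, even_iff_two_dvd]
    intro h
    exact hne2 2 Nat.prime_two h rfl
  have hpass : ∀ ℓ ∈ Vs x, Passes n ℓ := by
    intro ℓ hℓ
    rw [mem_Vs] at hℓ
    apply hb.2.2 ℓ hℓ.1.one_lt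
    linarith [hℓ.2.1]
  refine ⟨⟨hnx, hn2, hb.2.1, hsq, hodd, hnz, fun D hD => lam_dvd fun ℓ hℓ =>
    pow_of_passes_dvd (hpass ℓ hℓ) hD⟩, ?_⟩
  have hne : n.primeFactors.Nonempty := Nat.nonempty_primeFactors.mpr (by omega)
  obtain ⟨p, hp, hpmin⟩ := exists_min_image n.primeFactors v2 hne
  rw [Nat.mem_primeFactors] at hp
  obtain ⟨hpp, hpn, hn0⟩ := hp
  have hq : ∀ q : ℕ, q.Prime → q ∣ n → v2 q = v2 p → Sy x q p := by
    intro q hq hqn hv ℓ hℓ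
    exact same_symbol (hpass ℓ hℓ) hq hpp (hne2 q hq hqn) (hne2 p hpp hpn) hqn hpn hv
  have hq1 : ∀ q : ℕ, q.Prime → q ∣ n → v2 q ≠ v2 p → Sy x q 1 := by
    intro q hq hqn hv ℓ hℓ
    have h1 := hpmin q (Nat.mem_primeFactors.2 ⟨hq, hqn, hn0⟩)
    rw [symbol_one (hpass ℓ hℓ) hq hpp (hne2 q hq hqn) (hne2 p hpp hpn) hqn hpn (by omega)]
    simp
  have hPP : ∀ q m0 : ℕ, q.Prime → q ∣ n → (Sy x q m0 ∨ Sy x q 1) → q ∈ PP x m0 := by
    intro q m0 hq hqn h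
    rw [mem_PP]
    exact ⟨⟨hq.one_lt.le, (Nat.le_of_dvd (by omega) hqn).trans hnx⟩, hq, hne2 q hq hqn,
      nz_dvd hnz hqn, h⟩
  by_cases hex : ∃ p' : ℕ, p'.Prime ∧ p' ∣ n ∧ p' ≠ p ∧ v2 p' = v2 p
  · left
    obtain ⟨p', hp', hpn', hne', hv⟩ := hex
    have h1 : p * p' ∣ n := Nat.Coprime.mul_dvd_of_dvd_of_dvd
      ((Nat.coprime_primes hpp hp').2 (Ne.symm hne')) hpn hpn'
    obtain ⟨m, hm⟩ := h1
    refine ⟨p, p', m, hm, hpp, hp', Ne.symm hne', (hq p' hp' hpn' hv).symm, fun q hqm => ?_⟩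
    rw [Nat.mem_primeFactors] at hqm
    have hqn : q ∣ n := hqm.2.1.trans ⟨p * p', by rw [hm]; ring⟩
    apply hPP q p hqm.1 hqn
    by_cases hvq : v2 q = v2 p
    · exact Or.inl (hq q hqm.1 hqn hvq)
    · exact Or.inr (hq1 q hqm.1 hqn hvq)
  · right
    push Not at hex
    obtain ⟨m, hm⟩ := hpn
    refine ⟨p, m, hm, hpp, fun q hqm => ?_⟩
    rw [Nat.mem_primeFactors] at hqm
    have hqn : q ∣ n := hqm.2.1.trans ⟨p, by rw [hm]; ring⟩
    apply hPP q 1 hqm.1 hqn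
    have hqp : q ≠ p := by
      rintro rfl
      rw [hm] at hsq
      have := (Nat.squarefree_mul_iff.1 hsq).1
      rw [Nat.Prime.coprime_iff_not_dvd hqm.1] at this
      exact this hqm.2.1
    exact Or.inl (hq1 q hqm.1 hqn (hex q hqm.1 hqn hqp))

/-- the symbols of a product of primes of `PP` -/
lemma sy_of_PP {x m0 : ℕ} (h0 : Nz x m0) : ∀ E : ℕ, E ≠ 0 → E.primeFactors ⊆ PP x m0 →
    Sy x E m0 ∨ Sy x E 1 := by
  intro E
  induction E using Nat.strong_induction_on with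
  | _ E ih =>
    intro hE0 hE
    rcases eq_or_ne E 1 with h1 | h1
    · right; rw [h1]; exact Sy.refl x 1
    · have hmp := Nat.minFac_prime h1
      obtain ⟨r, hr⟩ := Nat.minFac_dvd E
      obtain ⟨q, hq⟩ : ∃ q, q = E.minFac := ⟨_, rfl⟩
      rw [← hq] at hmp hr
      have hr0 : r ≠ 0 := by rintro rfl; exact hE0 (by rw [hr]; simp)
      have hlt : r < E := by
        rw [hr]; exact lt_mul_of_one_lt_left (Nat.pos_of_ne_zero hr0) hmp.one_lt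
      have hrE : r ∣ E := ⟨q, by rw [hr]; ring⟩
      have h2 := ih r hlt hr0 fun p hp => hE (by
        rw [Nat.mem_primeFactors] at hp ⊢
        exact ⟨hp.1, hp.2.1.trans hrE, hE0⟩)
      have h3 : q ∈ PP x m0 := hE (Nat.mem_primeFactors.2 ⟨hmp, ⟨r, hr⟩, hE0⟩)
      have h4 := (mem_PP.1 h3).2.2.2.2
      have hNq : NeZero q := ⟨hmp.ne_zero⟩
      have hNr : NeZero r := ⟨hr0⟩
      have h5 : ∀ ℓ ∈ Vs x, jacobiSym (ℓ : ℤ) E = jacobiSym (ℓ : ℤ) q * jacobiSym (ℓ : ℤ) r := by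
        intro ℓ _
        rw [hr, jacobiSym.mul_right]
      have h6 : ∀ ℓ ∈ Vs x, jacobiSym (ℓ : ℤ) m0 * jacobiSym (ℓ : ℤ) m0 = 1 := by
        intro ℓ hℓ
        have h7 := nz_abs h0 (s := ℓ) (fun p hp hpℓ => by
          rw [(Nat.prime_dvd_prime_iff_eq hp (mem_Vs.1 hℓ).1).1 hpℓ]; exact hℓ)
        rw [← abs_mul_abs_self, h7, one_mul]
      rcases h4 with h4 | h4 <;> rcases h2 with h2 | h2
      · right
        intro ℓ hℓ
        rw [h5 ℓ hℓ, h4 ℓ hℓ, h2 ℓ hℓ, h6 ℓ hℓ]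
        simp
      · left
        intro ℓ hℓ
        rw [h5 ℓ hℓ, h4 ℓ hℓ, h2 ℓ hℓ]
        simp
      · left
        intro ℓ hℓ
        rw [h5 ℓ hℓ, h4 ℓ hℓ, h2 ℓ hℓ]
        simp
      · right
        intro ℓ hℓ
        rw [h5 ℓ hℓ, h4 ℓ hℓ, h2 ℓ hℓ]
        simp

/-- a product of two primes with equal symbols -/
lemma mul_mem_QQ {x p1 p2 : ℕ} (h1 : p1.Prime) (h2 : p2.Prime) (hne : p1 ≠ p2)
    (hs : Sy x p1 p2) (hx : p1 * p2 ≤ x) (hodd : Odd (p1 * p2)) (hnz : Nz x (p1 * p2)) :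
    p1 * p2 ∈ QQ x := by
  rw [mem_QQ]
  refine ⟨⟨Nat.mul_pos h1.pos h2.pos, hx⟩, hodd, ?_, hnz, ?_⟩
  · exact (Nat.squarefree_mul ((Nat.coprime_primes h1 h2).2 hne)).2 ⟨h1.squarefree, h2.squarefree⟩
  · intro ℓ hℓ
    have hN1 : NeZero p1 := ⟨h1.ne_zero⟩
    have hN2 : NeZero p2 := ⟨h2.ne_zero⟩
    have h7 := nz_abs (nz_dvd hnz (dvd_mul_right p1 p2)) (s := ℓ) (fun p hp hpℓ => by
      rw [(Nat.prime_dvd_prime_iff_eq hp (mem_Vs.1 hℓ).1).1 hpℓ]; exact hℓ)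
    rw [jacobiSym.mul_right, ← hs ℓ hℓ, ← abs_mul_abs_self, h7]
    simp

/-- a divisor of medium size -/
lemma exists_divisor {m : ℕ} {z : ℝ} (hz : 1 ≤ z) (hm : z ≤ m) (hm0 : m ≠ 0)
    (hp : ∀ q : ℕ, q.Prime → q ∣ m → (q : ℝ) < z) :
    ∃ E : ℕ, E ∣ m ∧ z ≤ E ∧ (E : ℝ) ≤ z ^ 2 := by
  induction m using Nat.strong_induction_on with
  | _ m ih =>
    rcases le_or_gt (m : ℝ) (z ^ 2) with h | h
    · exact ⟨m, dvd_rfl, hm, h⟩
    · have h1 : m ≠ 1 := by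
        rintro rfl
        push_cast at h hm
        have : z = 1 := le_antisymm hm hz
        rw [this] at h
        norm_num at h
      have hmp := Nat.minFac_prime h1
      obtain ⟨r, hr⟩ := Nat.minFac_dvd m
      have hr0 : r ≠ 0 := by rintro rfl; exact hm0 (by rw [hr]; simp)
      have hlt : r < m := by
        conv_rhs => rw [hr]
        exact lt_mul_of_one_lt_left (Nat.pos_of_ne_zero hr0) hmp.one_lt
      have hrm : r ∣ m := ⟨m.minFac, by rw [mul_comm]; exact hr⟩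
      have h2 := hp _ hmp (Nat.minFac_dvd m)
      have h3 : z ≤ r := by
        by_contra hcon
        push Not at hcon
        have h4 : (m : ℝ) = m.minFac * r := by exact_mod_cast hr
        have h5 : (0 : ℝ) ≤ m.minFac := Nat.cast_nonneg _
        have h6 : (0 : ℝ) ≤ r := Nat.cast_nonneg _
        nlinarith
      obtain ⟨E, hE1, hE2, hE3⟩ := ih r hlt h3 hr0 fun q hq hqr => hp q hq (hqr.trans hrm)
      exact ⟨E, hE1.trans hrm, hE2, hE3⟩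

end Pool.Agent.K1H88.WS
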