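import Pool.Agent.K1H88.WS.CaseS
import Pool.Agent.K1H88.WS.Struct

set_option autoImplicit false

/-! Two primes with equal symbols and a large cofactor. -/

namespace Pool.Agent.K1H88.WS

open Finset Real Pool.Agent.W57.SW

/-- the cut -/
noncomputable def zz (x : ℕ) : ℝ := (x : ℝ) ^ (1 / 600 : ℝ)

lemma zz_one {x : ℕ} (hx : 1 ≤ x) : 1 ≤ zz x :=
  one_le_rpow (by exact_mod_cast hx) (by norm_num)

lemma zz_rpow (x : ℕ) (a : ℝ) : (zz x) ^ a = (x : ℝ) ^ (a / 600) := by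
  rw [zz, ← rpow_mul (Nat.cast_nonneg _)]
  congr 1
  ring

lemma zz_large (D : ℕ) : ∃ X0 : ℕ, 1 ≤ X0 ∧ ∀ x : ℕ, X0 ≤ x → (D : ℝ) ≤ zz x := by
  refine ⟨D ^ 600 + 1, by omega, fun x hx => ?_⟩
  have h1 : ((D : ℝ) ^ (600 : ℕ)) ≤ x := by
    have : D ^ 600 ≤ x := by omega
    exact_mod_cast this
  have h2 : ((D : ℝ) ^ (600 : ℕ)) ^ (1 / 600 : ℝ) = D := by
    rw [← rpow_natCast, ← rpow_mul (Nat.cast_nonneg _)]
    norm_num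
  calc (D : ℝ) = ((D : ℝ) ^ (600 : ℕ)) ^ (1 / 600 : ℝ) := h2.symm
    _ ≤ (x : ℝ) ^ (1 / 600 : ℝ) := rpow_le_rpow (by positivity) h1 (by norm_num)
    _ = zz x := rfl

lemma lam_dvd_sub {x D q : ℕ} (hq : q.Prime) (h : Nz x q) (hD : 1 ≤ D)
    (hd : Lam x q ∣ D * q - 1) : Lam x q ∣ D - 1 := by
  have h1 := lam_dvd_pred hq h
  have h2 : D * q - 1 = D * (q - 1) + (D - 1) := by
    obtain ⟨q', rfl⟩ : ∃ q', q = q' + 1 := ⟨q - 1, by have := hq.pos; omega⟩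
    obtain ⟨D', rfl⟩ : ∃ D', D = D' + 1 := ⟨D - 1, by omega⟩
    simp only [Nat.add_sub_cancel]
    have : (D' + 1) * (q' + 1) = (D' + 1) * q' + D' + 1 := by ring
    omega
  rw [h2] at hd
  exact (Nat.dvd_add_right (h1.mul_left D)).1 hd

/-- a small exponent means a small prime -/
lemma small_prime : ∃ D0 : ℕ, ∀ (x q : ℕ) (z : ℝ), q.Prime → q ≤ x → Nz x q → (D0 : ℝ) ≤ z →
    1 ≤ z → (Lam x q : ℝ) ≤ z → (q : ℝ) ≤ z ^ (25 / 12 : ℝ) := by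
  obtain ⟨D0, hD0⟩ := lam_lower (1 / 50) (by norm_num)
  refine ⟨D0, fun x q z hq hqx hnz hDz hz hL => ?_⟩
  rcases lt_or_ge q D0 with h | h
  · have h1 : (q : ℝ) ≤ D0 := by exact_mod_cast h.le
    calc (q : ℝ) ≤ z := h1.trans hDz
      _ = z ^ (1 : ℝ) := (rpow_one z).symm
      _ ≤ z ^ (25 / 12 : ℝ) := rpow_le_rpow_of_exponent_le hz (by norm_num)
  · have h1 := (hD0 x q hq h hqx hnz).trans hL
    have h2 := rpow_le_rpow (by positivity) h1 (show (0 : ℝ) ≤ 25 / 12 by norm_num)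
    rw [← rpow_mul (Nat.cast_nonneg _)] at h2
    norm_num at h2
    exact h2

/-- a union bound with weights, images -/
lemma count_img {ι : Type*} (K : Finset ι) (A : Finset ℕ) (F : ι → Finset ℕ) (f : ι → ℕ → ℕ)
    (w : ι → ℝ) (B : ℝ) (hcov : ∀ n ∈ A, ∃ k ∈ K, ∃ t ∈ F k, n = f k t)
    (hF : ∀ k ∈ K, ((F k).card : ℝ) ≤ B * w k) :
    (A.card : ℝ) ≤ B * ∑ k ∈ K, w k := by
  classical
  refine count_le K A (fun k => (F k).image (f k)) w B (fun n hn => ?_) fun k hk => ?_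
  · obtain ⟨k, hk, t, ht, h⟩ := hcov n hn
    exact ⟨k, hk, mem_image.2 ⟨t, ht, h.symm⟩⟩
  · exact (Nat.cast_le.2 card_image_le).trans (hF k hk)

theorem caseA1 : ∃ C : ℝ, 0 < C ∧ ∃ X0 : ℕ, ∀ x : ℕ, X0 ≤ x → ∀ A : Finset ℕ,
    (∀ n ∈ A, ∃ r p1 m q : ℕ, n = r * m * q ∧ n ≤ x ∧ 2 ≤ r ∧ r ∈ QQ x ∧ p1 ∣ r ∧ m ∈ UU x p1 ∧
      q ∈ PP x p1 ∧ zz x ≤ q ∧ Lam x q ∣ r * m - 1) →
    (A.card : ℝ) ≤ C * (x : ℝ) ^ (1 / 2 - 1 / 20000 : ℝ) := by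
  classical
  obtain ⟨C, hC, D0, hfib⟩ := prime_fiber_w (1 / 1000000) (by norm_num) (by norm_num)
  obtain ⟨C', hC', hsum⟩ := sumA (1 / 1000000) (by norm_num)
  obtain ⟨X0, hX01, hX0⟩ := zz_large D0
  refine ⟨C * C', by positivity, X0, ?_⟩
  intro x hx A hA
  have hx1 : 1 ≤ x := hX01.trans hx
  have hx1' : (1 : ℝ) ≤ x := by exact_mod_cast hx1
  have hx0 : (0 : ℝ) < x := by linarith
  have hz1 := zz_one hx1
  have hz0 : 0 < zz x := by linarith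
  have hDz := hX0 x hx
  let K : Finset ((_ : ℕ) × (_ : ℕ) × ℕ) := (QQ x).sigma
    (fun r => r.divisors.sigma (fun p1 => UU x p1))
  let F : ((_ : ℕ) × (_ : ℕ) × ℕ) → Finset ℕ := fun k =>
    (Icc 1 x).filter (fun q => q ∈ PP x k.2.1 ∧ D0 ≤ q ∧ k.1 * k.2.2 * q ≤ x ∧
      Lam x q ∣ k.1 * k.2.2 - 1 ∧ zz x ≤ q ∧ 2 ≤ k.1 * k.2.2)
  have h1 := count_img K A F (fun k q => k.1 * k.2.2 * q)
    (fun k => ((k.1 : ℝ) * k.2.2) ^ (-(1 / 2 + 2 * (1 / 1000000 : ℝ))))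
    (C * ((x : ℝ) ^ (1 / 1000000 : ℝ) * (x : ℝ) ^ (1 / 2 + 2 * (1 / 1000000 : ℝ)) *
      (zz x) ^ (-(1 / 10 - (1 / 1000000 : ℝ))))) (by
      intro n hn
      obtain ⟨r, p1, m, q, h1, h2, h3, h4, h5, h6, h7, h8, h9⟩ := hA n hn
      have hm := (mem_UU.1 h6).1.1
      have hr := (mem_QQ.1 h4).1.1
      refine ⟨⟨r, p1, m⟩, ?_, ?_⟩
      · rw [mem_sigma, mem_sigma, Nat.mem_divisors]
        exact ⟨h4, ⟨h5, Nat.pos_iff_ne_zero.1 hr⟩, h6⟩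
      · refine ⟨q, mem_filter.2 ⟨mem_Icc.2 (mem_PP.1 h7).1, h7, ?_, ?_, h9, h8, ?_⟩, h1⟩
        · exact_mod_cast hDz.trans h8
        · rw [← h1]; exact h2
        · show 2 ≤ r * m
          nlinarith) (by
      rintro ⟨r, p1, m⟩ hk
      rcases (F ⟨r, p1, m⟩).eq_empty_or_nonempty with h0 | ⟨q0, hq0⟩
      · rw [h0]; simp; positivity
      · have hD2 : 2 ≤ r * m := (mem_filter.1 hq0).2.2.2.2.2.2
        have h2 := hfib x (r * m) p1 (zz x) hD2 hz1 (F ⟨r, p1, m⟩) (by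
          intro q hq
          obtain ⟨_, a1, a2, a3, a4, a5, _⟩ := mem_filter.1 hq
          exact ⟨a1, a2, a3, a4, a5⟩)
        push_cast at h2
        exact h2)
  have h2 : ∑ k ∈ K, ((k.1 : ℝ) * k.2.2) ^ (-(1 / 2 + 2 * (1 / 1000000 : ℝ))) ≤
      C' * (x : ℝ) ^ (1 / 1000000 : ℝ) := by
    rw [Finset.sum_sigma]
    refine le_trans (le_of_eq (sum_congr rfl fun r _ => ?_)) (hsum x hx1)
    rw [Finset.sum_sigma]
  rw [zz_rpow] at h1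
  calc (A.card : ℝ) ≤ _ := h1
    _ ≤ _ * (C' * (x : ℝ) ^ (1 / 1000000 : ℝ)) := mul_le_mul_of_nonneg_left h2 (by positivity)
    _ = C * C' * ((x : ℝ) ^ (1 / 1000000 : ℝ) * (x : ℝ) ^ (1 / 2 + 2 * (1 / 1000000 : ℝ)) *
      (x : ℝ) ^ (-(1 / 10 - (1 / 1000000 : ℝ)) / 600) * (x : ℝ) ^ (1 / 1000000 : ℝ)) := by ring
    _ = C * C' * (x : ℝ) ^ ((1 / 1000000 : ℝ) + (1 / 2 + 2 * (1 / 1000000 : ℝ)) +
      (-(1 / 10 - (1 / 1000000 : ℝ)) / 600) + 1 / 1000000) := by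
        rw [← rpow_add hx0, ← rpow_add hx0, ← rpow_add hx0]
    _ ≤ _ := mul_le_mul_of_nonneg_left
        (rpow_le_rpow_of_exponent_le hx1' (by norm_num)) (by positivity)

theorem caseA2 : ∃ C : ℝ, 0 < C ∧ ∀ x : ℕ, 1 ≤ x → ∀ A : Finset ℕ,
    (∀ n ∈ A, ∃ r p1 m E : ℕ, n = r * m * E ∧ n ≤ x ∧ 2 ≤ r ∧ r ∈ QQ x ∧ p1 ∣ r ∧ m ∈ UU x p1 ∧
      zz x ≤ Lam x (r * m) ∧ 1 ≤ E ∧ Odd E ∧ zz x ≤ E ∧ (E : ℝ) ≤ (zz x) ^ 2 ∧
      Lam x (r * m) ∣ r * m * E - 1 ∧ Nz x E ∧ (Sy x E p1 ∨ Sy x E 1)) →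
    (A.card : ℝ) ≤ C * (x : ℝ) ^ (1 / 2 - 1 / 20000 : ℝ) := by
  classical
  obtain ⟨C, hC, hfib⟩ := ap_fiber_w (1 / 1000000) (by norm_num) (by norm_num)
  obtain ⟨C', hC', hsum⟩ := sumA (1 / 1000000) (by norm_num)
  refine ⟨C * C', by positivity, ?_⟩
  intro x hx1 A hA
  have hx1' : (1 : ℝ) ≤ x := by exact_mod_cast hx1
  have hx0 : (0 : ℝ) < x := by linarith
  have hz1 := zz_one hx1
  have hz0 : 0 < zz x := by linarith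
  let K : Finset ((_ : ℕ) × (_ : ℕ) × ℕ) := (QQ x).sigma
    (fun r => r.divisors.sigma (fun p1 => UU x p1))
  let F : ((_ : ℕ) × (_ : ℕ) × ℕ) → Finset ℕ := fun k =>
    (Icc 1 x).filter (fun E => zz x ≤ Lam x (k.1 * k.2.2) ∧ 1 ≤ E ∧ Odd E ∧
      k.1 * k.2.2 * E ≤ x ∧ zz x ≤ E ∧ (E : ℝ) ≤ (zz x) ^ 2 ∧
      Lam x (k.1 * k.2.2) ∣ k.1 * k.2.2 * E - 1 ∧ Nz x E ∧ (Sy x E k.2.1 ∨ Sy x E 1) ∧
      2 ≤ k.1 * k.2.2)
  have h1 := count_img K A F (fun k q => k.1 * k.2.2 * q)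
    (fun k => ((k.1 : ℝ) * k.2.2) ^ (-(1 / 2 + 2 * (1 / 1000000 : ℝ))))
    (C * ((x : ℝ) ^ (1 / 1000000 : ℝ) * (x : ℝ) ^ (1 / 2 + 2 * (1 / 1000000 : ℝ)) *
      (zz x) ^ (-(1 / 5 : ℝ)))) (by
      intro n hn
      obtain ⟨r, p1, m, E, h1, h2, h3, h4, h5, h6, h7, h8, h9, h10, h11, h12, h13, h14⟩ := hA n hn
      have hm := (mem_UU.1 h6).1.1
      have hr := (mem_QQ.1 h4).1.1
      have hD2 : 2 ≤ r * m := by nlinarith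
      have hDE : r * m * E ≤ x := by rw [← h1]; exact h2
      refine ⟨⟨r, p1, m⟩, ?_, ?_⟩
      · rw [mem_sigma, mem_sigma, Nat.mem_divisors]
        exact ⟨h4, ⟨h5, Nat.pos_iff_ne_zero.1 hr⟩, h6⟩
      · refine ⟨E, mem_filter.2 ⟨mem_Icc.2 ⟨h8, by nlinarith⟩, h7, h8, h9, hDE, h10, h11, h12, h13,
          h14, hD2⟩, h1⟩) (by
      rintro ⟨r, p1, m⟩ hk
      rcases (F ⟨r, p1, m⟩).eq_empty_or_nonempty with h0 | ⟨q0, hq0⟩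
      · rw [h0]; simp; positivity
      · have hD2 : 2 ≤ r * m := (mem_filter.1 hq0).2.2.2.2.2.2.2.2.2.2
        have h2 := hfib x (r * m) p1 (zz x) hD2 hz1 (F ⟨r, p1, m⟩) (by
          intro q hq
          obtain ⟨_, a1, a2, a3, a4, a5, a6, a7, a8, a9, _⟩ := mem_filter.1 hq
          exact ⟨a1, a2, a3, a4, a5, a6, a7, a8, a9⟩)
        push_cast at h2
        exact h2)
  have h2 : ∑ k ∈ K, ((k.1 : ℝ) * k.2.2) ^ (-(1 / 2 + 2 * (1 / 1000000 : ℝ))) ≤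
      C' * (x : ℝ) ^ (1 / 1000000 : ℝ) := by
    rw [Finset.sum_sigma]
    refine le_trans (le_of_eq (sum_congr rfl fun r _ => ?_)) (hsum x hx1)
    rw [Finset.sum_sigma]
  rw [zz_rpow] at h1
  calc (A.card : ℝ) ≤ _ := h1
    _ ≤ _ * (C' * (x : ℝ) ^ (1 / 1000000 : ℝ)) := mul_le_mul_of_nonneg_left h2 (by positivity)
    _ = C * C' * ((x : ℝ) ^ (1 / 1000000 : ℝ) * (x : ℝ) ^ (1 / 2 + 2 * (1 / 1000000 : ℝ)) *
      (x : ℝ) ^ (-(1 / 5 : ℝ) / 600) * (x : ℝ) ^ (1 / 1000000 : ℝ)) := by ring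
    _ = C * C' * (x : ℝ) ^ ((1 / 1000000 : ℝ) + (1 / 2 + 2 * (1 / 1000000 : ℝ)) +
      (-(1 / 5 : ℝ) / 600) + 1 / 1000000) := by
        rw [← rpow_add hx0, ← rpow_add hx0, ← rpow_add hx0]
    _ ≤ _ := mul_le_mul_of_nonneg_left
        (rpow_le_rpow_of_exponent_le hx1' (by norm_num)) (by positivity)

end Pool.Agent.K1H88.WS
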