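import Pool.Agent.K1H88.WS.Quad2

set_option autoImplicit false

/-! The number of `g` for which `(1 + g a) (1 + g b)` has all small symbols equal to one. -/

namespace Pool.Agent.K1H88.WS

open Finset Real Pool.Agent.W57.SW

lemma sum_inv_dd {S : Finset ℕ} {M s : ℕ} (hS : ∀ s ∈ S, 1 ≤ s ∧ s ≤ M ∧ Squarefree s)
    (hs : s ∈ S) : ∑ s' ∈ S, 1 / ((dd s s' : ℕ) : ℝ) ≤ 1 + log ((M * M : ℕ) : ℝ) := by
  have h1 : ∑ s' ∈ S, 1 / ((dd s s' : ℕ) : ℝ) = ∑ n ∈ S.image (dd s), 1 / ((n : ℕ) : ℝ) := by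
    rw [sum_image]
    intro x hx y hy hxy
    exact dd_inj (hS s hs).2.2 (hS x hx).2.2 (hS y hy).2.2 hxy
  have h2 : S.image (dd s) ⊆ Icc 1 (M * M) := by
    intro n hn
    rw [mem_image] at hn
    obtain ⟨s', hs', rfl⟩ := hn
    obtain ⟨h3, h4, h5, h6⟩ := dd_spec (hS s hs).2.2 (hS s' hs').2.2
    rw [mem_Icc]
    refine ⟨Nat.pos_of_ne_zero h5.ne_zero, ?_⟩
    refine (Nat.le_of_dvd ?_ h6).trans (Nat.mul_le_mul (hS s hs).2.1 (hS s' hs').2.1)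
    exact Nat.mul_pos (hS s hs).1 (hS s' hs').1
  rw [h1]
  refine (sum_le_sum_of_subset_of_nonneg h2 fun _ _ _ => by positivity).trans ?_
  have h3 := harmonic_le_one_add_log (M * M)
  rw [harmonic_eq_sum_Icc] at h3
  push_cast at h3 ⊢
  simpa [one_div] using h3

theorem quad_count (ε : ℝ) (hε : 0 < ε) (hε1 : ε ≤ 1 / 4) : ∃ C : ℝ, 0 < C ∧
    ∀ x G a b : ℕ, 1 ≤ x → G ≤ x → 1 ≤ a → a ≤ x → 1 ≤ b → b ≤ x → a ≠ b → ∀ T : Finset ℕ,
    (∀ g ∈ T, g ≤ G ∧ Odd (NN a b g) ∧ ∀ ℓ ∈ Vs x, jacobiSym (ℓ : ℤ) (NN a b g) = 1) →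
    (T.card : ℝ) ≤ C * (x : ℝ) ^ ε * ((G : ℝ) ^ (4 / 5 : ℝ) + 1) := by
  classical
  obtain ⟨D0, hD0⟩ := smooth_avoid 2 ε (23 / ε) (by norm_num) hε (by positivity)
  have hev1 : ∀ᶠ q : ℝ in Filter.atTop, 2 * (D0 : ℝ) + 2 ≤ q ^ (2 / 5 * ε) :=
    (tendsto_rpow_atTop (by positivity)).eventually (Filter.eventually_ge_atTop _)
  have hev2 : ∀ᶠ q : ℝ in Filter.atTop, 5 * log 2 / ε + 1 ≤ log q :=
    tendsto_log_atTop.eventually (Filter.eventually_ge_atTop _)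
  have hev3 : ∀ᶠ q : ℝ in Filter.atTop, 5 * log q ≤ q ^ (ε / 2) := by
    have h := (isLittleO_log_rpow_atTop (half_pos hε)).def (show (0 : ℝ) < 1 / 5 by norm_num)
    filter_upwards [h, Filter.eventually_ge_atTop 1] with q hq hq1
    rw [norm_of_nonneg (log_nonneg hq1), norm_of_nonneg (by positivity)] at hq
    linarith
  obtain ⟨Y, hY⟩ := Filter.eventually_atTop.mp (hev1.and (hev2.and hev3))
  refine ⟨(⌈Y⌉₊ : ℝ) + 16, by positivity, ?_⟩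
  intro x G a b hx1 hGx ha1 hax hb1 hbx hab T hT
  have hceil : (0 : ℝ) ≤ (⌈Y⌉₊ : ℝ) := Nat.cast_nonneg _
  have hx1' : (1 : ℝ) ≤ x := by exact_mod_cast hx1
  have hxpos : (0 : ℝ) < x := by linarith
  have hxe : (1 : ℝ) ≤ (x : ℝ) ^ ε := one_le_rpow hx1' hε.le
  have hG0 : (0 : ℝ) ≤ G := Nat.cast_nonneg _
  have hG45 : 0 ≤ (G : ℝ) ^ (4 / 5 : ℝ) := by positivity
  have hcard : (T.card : ℝ) ≤ G + 1 := by
    have h1 : T ⊆ range (G + 1) := fun g hg => mem_range.2 (Nat.lt_succ_of_le (hT g hg).1)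
    have h2 := card_le_card h1
    rw [card_range] at h2
    exact_mod_cast h2
  rcases lt_or_ge x ⌈Y⌉₊ with hsm | hlg
  · have h3 : (T.card : ℝ) ≤ ⌈Y⌉₊ + 1 := by
      have : (G : ℝ) ≤ ⌈Y⌉₊ := by exact_mod_cast hGx.trans hsm.le
      linarith
    calc (T.card : ℝ) ≤ ((⌈Y⌉₊ : ℝ) + 16) * 1 * (0 + 1) := by linarith
      _ ≤ _ := by gcongr
  rcases le_or_gt (G : ℝ) ((x : ℝ) ^ ε) with hZs | hZl
  · calc (T.card : ℝ) ≤ 16 * (x : ℝ) ^ ε * (0 + 1) := by linarith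
      _ ≤ _ := by gcongr; linarith
  obtain ⟨c1, c2, c3⟩ := hY x ((Nat.le_ceil Y).trans (by exact_mod_cast hlg))
  have hG1 : (1 : ℝ) ≤ G := hxe.trans hZl.le
  have hGpos : (0 : ℝ) < G := by linarith
  have hZ25 : 2 * (D0 : ℝ) + 2 ≤ (G : ℝ) ^ (2 / 5 : ℝ) := by
    refine c1.trans ?_
    rw [mul_comm, rpow_mul hxpos.le]
    exact rpow_le_rpow (by positivity) hZl.le (by norm_num)
  obtain ⟨M, hM⟩ : ∃ M : ℕ, M = ⌊(G : ℝ) ^ (2 / 5 : ℝ)⌋₊ := ⟨_, rfl⟩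
  have hMle : (M : ℝ) ≤ (G : ℝ) ^ (2 / 5 : ℝ) := by rw [hM]; exact Nat.floor_le (by positivity)
  have hMlt : (G : ℝ) ^ (2 / 5 : ℝ) < M + 1 := by rw [hM]; exact Nat.lt_floor_add_one _
  have hD00 : (0 : ℝ) ≤ D0 := Nat.cast_nonneg _
  have hMhalf : (G : ℝ) ^ (2 / 5 : ℝ) / 2 ≤ M := by linarith
  have hM1 : (1 : ℝ) ≤ M := by linarith
  have hM0 : (0 : ℝ) < M := by linarith
  have hMD : D0 ≤ M := by
    have : (D0 : ℝ) ≤ M := by linarith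
    exact_mod_cast this
  have hGx' : (G : ℝ) ≤ x := by exact_mod_cast hGx
  have hMx : M ≤ x := by
    have h1 : (M : ℝ) ≤ x := by
      refine hMle.trans (le_trans ?_ hGx')
      calc (G : ℝ) ^ (2 / 5 : ℝ) ≤ (G : ℝ) ^ (1 : ℝ) :=
            rpow_le_rpow_of_exponent_le hG1 (by norm_num)
        _ = G := rpow_one _
    exact_mod_cast h1
  have hlogx0 : 0 ≤ log (x : ℝ) := log_natCast_nonneg x
  have hlogM : ε / 5 * log x ≤ log M := by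
    have h1 := log_le_log (by positivity) hMhalf
    rw [log_div (by positivity) (by norm_num), log_rpow hGpos] at h1
    have h2 := log_le_log (by positivity) hZl.le
    rw [log_rpow hxpos] at h2
    have h3 : log 2 ≤ ε / 5 * log x := by
      have h4 : 5 * log 2 / ε ≤ log x := by linarith
      rw [div_le_iff₀ hε] at h4
      linarith
    linarith
  have hlogx1 : 1 ≤ log (x : ℝ) := by
    have : 0 ≤ 5 * log 2 / ε := by positivity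
    linarith
  -- excluded primes
  obtain ⟨c, hc⟩ : ∃ c : ℕ, c = ((a : ℤ) - b).natAbs := ⟨_, rfl⟩
  have hc1 : 1 ≤ c := by
    rw [hc, Nat.one_le_iff_ne_zero, Int.natAbs_ne_zero]
    intro h; apply hab
    exact_mod_cast sub_eq_zero.1 h
  have hcx : c ≤ x := by omega
  have hE : ((a.primeFactors ∪ b.primeFactors ∪ c.primeFactors).card : ℝ) ≤
      23 / ε * log M := by
    have h1 : ((a.primeFactors ∪ b.primeFactors ∪ c.primeFactors).card : ℝ) ≤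
        (a.primeFactors.card : ℝ) + b.primeFactors.card + c.primeFactors.card := by
      exact_mod_cast (card_union_le _ _).trans (add_le_add_left (card_union_le _ _) _)
    have h2 := card_primeFactors_le ha1
    have h3 := card_primeFactors_le hb1
    have h4 := card_primeFactors_le hc1
    have h5 : log (a : ℝ) ≤ log x :=
      log_le_log (by exact_mod_cast ha1) (by exact_mod_cast hax)
    have h6 : log (b : ℝ) ≤ log x :=
      log_le_log (by exact_mod_cast hb1) (by exact_mod_cast hbx)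
    have h7 : log (c : ℝ) ≤ log x :=
      log_le_log (by exact_mod_cast hc1) (by exact_mod_cast hcx)
    have h8 : 23 / ε * (ε / 5 * log x) ≤ 23 / ε * log M :=
      mul_le_mul_of_nonneg_left hlogM (by positivity)
    have h9 : 23 / ε * (ε / 5 * log x) = 23 / 5 * log x := by field_simp
    linarith
  obtain ⟨S, hS1, hS2⟩ := hD0 M hMD _ hE
  have hlogMx : (log (M : ℝ)) ^ (2 : ℝ) ≤ (log (x : ℝ)) ^ (2 : ℝ) :=
    rpow_le_rpow (log_natCast_nonneg M) (log_le_log hM0 (by exact_mod_cast hMx)) (by norm_num)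
  have hSV : ∀ s ∈ S, ∀ p : ℕ, p.Prime → p ∣ s → p ∈ Vs x := by
    intro s hs p hp hps
    obtain ⟨_, _, ho, _, h5⟩ := hS1 s hs
    rw [mem_Vs]
    refine ⟨hp, (h5 p hp hps).1.trans hlogMx, ?_⟩
    rintro rfl
    exact (Nat.not_even_iff_odd.2 ho) (even_iff_two_dvd.2 hps)
  have hgood : ∀ s ∈ S, ∀ s' ∈ S, ∀ ℓ : ℕ, ℓ.Prime → ℓ ∣ s * s' →
      ¬ ℓ ∣ a ∧ ¬ ℓ ∣ b ∧ (a : ZMod ℓ) ≠ (b : ZMod ℓ) := by
    intro s hs s' hs' ℓ hℓ hd
    have h1 : ℓ ∉ a.primeFactors ∪ b.primeFactors ∪ c.primeFactors := by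
      rcases (Nat.Prime.dvd_mul hℓ).1 hd with h | h
      · exact ((hS1 s hs).2.2.2.2 ℓ hℓ h).2
      · exact ((hS1 s' hs').2.2.2.2 ℓ hℓ h).2
    rw [mem_union, mem_union] at h1
    push Not at h1
    obtain ⟨⟨h2, h3⟩, h4⟩ := h1
    refine ⟨fun h => h2 (Nat.mem_primeFactors.2 ⟨hℓ, h, by omega⟩),
      fun h => h3 (Nat.mem_primeFactors.2 ⟨hℓ, h, by omega⟩), fun h => ?_⟩
    apply h4
    refine Nat.mem_primeFactors.2 ⟨hℓ, ?_, by omega⟩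
    have h5 : ((b : ℤ) : ZMod ℓ) = ((a : ℤ) : ZMod ℓ) := by exact_mod_cast h.symm
    rw [ZMod.intCast_eq_intCast_iff_dvd_sub] at h5
    rw [hc, ← Int.natCast_dvd]
    exact h5
  have hls := ls_general S T (G + 1) (NN a b) (fun _ => 1)
    (fun s s' => ((G + 1 : ℕ) : ℝ) * (1 / ((dd s s' : ℕ) : ℝ)) + 4 * (M : ℝ) ^ 2)
    (by
      intro g hg
      obtain ⟨h1, h2, h3⟩ := hT g hg
      refine ⟨Nat.lt_succ_of_le h1, h2, fun s hs => ?_⟩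
      have h4 : Sy x (NN a b g) 1 := by
        intro ℓ hℓ
        rw [h3 ℓ hℓ]; simp
      rw [sy_smooth h4 s (hS1 s hs).1 (hSV s hs)]
      simp)
    (by intro s _; norm_num)
    (by
      intro s hs s' hs'
      obtain ⟨a1, a2, a3, a4, _⟩ := hS1 s hs
      obtain ⟨b1, b2, b3, b4, _⟩ := hS1 s' hs'
      refine (quad_sum a4 b4 a3 b3 (hgood s hs s' hs') (G + 1)).trans ?_
      have h5 : (s : ℝ) ≤ M := by exact_mod_cast a2
      have h6 : (s' : ℝ) ≤ M := by exact_mod_cast b2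
      have h7 : (s : ℝ) * s' ≤ M * M := mul_le_mul h5 h6 (Nat.cast_nonneg _) (Nat.cast_nonneg _)
      rw [mul_one_div]
      nlinarith)
  have hsum : ∑ s ∈ S, ∑ s' ∈ S, (((G + 1 : ℕ) : ℝ) * (1 / ((dd s s' : ℕ) : ℝ)) +
      4 * (M : ℝ) ^ 2) ≤ S.card * (((G + 1 : ℕ) : ℝ) * (5 * log x)) +
        (S.card : ℝ) ^ 2 * (4 * (M : ℝ) ^ 2) := by
    have h1 : ∀ s ∈ S, ∑ s' ∈ S, (((G + 1 : ℕ) : ℝ) * (1 / ((dd s s' : ℕ) : ℝ)) +
        4 * (M : ℝ) ^ 2) ≤ ((G + 1 : ℕ) : ℝ) * (5 * log x) + S.card * (4 * (M : ℝ) ^ 2) := by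
      intro s hs
      rw [sum_add_distrib, ← mul_sum, sum_const, nsmul_eq_mul]
      have h2 := sum_inv_dd (S := S) (M := M) (s := s)
        (fun s hs => ⟨(hS1 s hs).1, (hS1 s hs).2.1, (hS1 s hs).2.2.2.1⟩) hs
      have h3 : 1 + log ((M * M : ℕ) : ℝ) ≤ 5 * log x := by
        push_cast
        rw [log_mul hM0.ne' hM0.ne']
        have h4 : log (M : ℝ) ≤ log x := log_le_log hM0 (by exact_mod_cast hMx)
        linarith
      have h4 := mul_le_mul_of_nonneg_left (h2.trans h3) (Nat.cast_nonneg (α := ℝ) (G + 1))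
      linarith
    refine (sum_le_sum h1).trans ?_
    rw [sum_const, nsmul_eq_mul]
    apply le_of_eq; ring
  have hmain := hls.trans hsum
  have hScard : (1 : ℝ) / 2 * (G : ℝ) ^ (1 / 5 - 2 / 5 * ε) ≤ S.card := by
    refine le_trans ?_ hS2
    have h1 : ((G : ℝ) ^ (2 / 5 : ℝ) / 2) ^ ((1 : ℝ) - 1 / 2 - ε) ≤
        (M : ℝ) ^ ((1 : ℝ) - 1 / 2 - ε) :=
      rpow_le_rpow (by positivity) hMhalf (by linarith)
    refine le_trans ?_ h1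
    rw [div_rpow (by positivity) (by norm_num), ← rpow_mul hGpos.le]
    have h2 : (2 : ℝ) ^ ((1 : ℝ) - 1 / 2 - ε) ≤ 2 := by
      calc (2 : ℝ) ^ ((1 : ℝ) - 1 / 2 - ε) ≤ (2 : ℝ) ^ (1 : ℝ) :=
            rpow_le_rpow_of_exponent_le (by norm_num) (by linarith)
        _ = 2 := rpow_one 2
    have h3 : (2 / 5 : ℝ) * (1 - 1 / 2 - ε) = 1 / 5 - 2 / 5 * ε := by ring
    rw [h3]
    have h4 : 0 < (G : ℝ) ^ (1 / 5 - 2 / 5 * ε) := by positivity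
    rw [div_mul_eq_mul_div, one_mul]
    exact div_le_div_of_nonneg_left h4.le (by positivity) h2
  have hSpos : (0 : ℝ) < S.card := by
    have : 0 < (G : ℝ) ^ (1 / 5 - 2 / 5 * ε) := by positivity
    linarith
  have hM2 : (M : ℝ) ^ 2 ≤ (G : ℝ) ^ (4 / 5 : ℝ) := by
    calc (M : ℝ) ^ 2 ≤ ((G : ℝ) ^ (2 / 5 : ℝ)) ^ 2 := pow_le_pow_left₀ hM0.le hMle 2
      _ = (G : ℝ) ^ (4 / 5 : ℝ) := by
        rw [← rpow_natCast, ← rpow_mul hGpos.le]; norm_num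
  have h1 : (T.card : ℝ) * S.card ≤ ((G + 1 : ℕ) : ℝ) * (5 * log x) +
      S.card * (4 * (M : ℝ) ^ 2) := by
    have h2 : ((T.card : ℝ) * S.card) * S.card ≤
        (((G + 1 : ℕ) : ℝ) * (5 * log x) + S.card * (4 * (M : ℝ) ^ 2)) * S.card := by
      calc ((T.card : ℝ) * S.card) * S.card = (T.card : ℝ) * (S.card : ℝ) ^ 2 := by ring
        _ ≤ _ := hmain
        _ = _ := by ring
    exact le_of_mul_le_mul_right h2 hSpos
  have h2 : ((G + 1 : ℕ) : ℝ) * (5 * log x) ≤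
      S.card * (4 * ((G : ℝ) ^ (4 / 5 : ℝ) * (x : ℝ) ^ ε)) := by
    have h3 : ((G + 1 : ℕ) : ℝ) ≤ 2 * G := by push_cast; linarith
    have h4 : (G : ℝ) = (G : ℝ) ^ (1 / 5 - 2 / 5 * ε) *
        ((G : ℝ) ^ (4 / 5 : ℝ) * (G : ℝ) ^ (2 / 5 * ε)) := by
      rw [← rpow_add hGpos, ← rpow_add hGpos]
      rw [show (1 / 5 - 2 / 5 * ε + (4 / 5 + 2 / 5 * ε) : ℝ) = 1 by ring, rpow_one]
    have h5 : (G : ℝ) ^ (2 / 5 * ε) * (5 * log x) ≤ (x : ℝ) ^ ε := by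
      calc (G : ℝ) ^ (2 / 5 * ε) * (5 * log x) ≤ (x : ℝ) ^ (2 / 5 * ε) * (x : ℝ) ^ (ε / 2) :=
            mul_le_mul (rpow_le_rpow hG0 hGx' (by positivity)) c3 (by positivity) (by positivity)
        _ = (x : ℝ) ^ (2 / 5 * ε + ε / 2) := (rpow_add hxpos _ _).symm
        _ ≤ (x : ℝ) ^ ε := rpow_le_rpow_of_exponent_le hx1' (by linarith)
    calc ((G + 1 : ℕ) : ℝ) * (5 * log x) ≤ (2 * G) * (5 * log x) :=
          mul_le_mul_of_nonneg_right h3 (by positivity)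
      _ = (1 / 2 * (G : ℝ) ^ (1 / 5 - 2 / 5 * ε)) *
          (4 * ((G : ℝ) ^ (4 / 5 : ℝ) * ((G : ℝ) ^ (2 / 5 * ε) * (5 * log x)))) := by
          nth_rewrite 1 [h4]; ring
      _ ≤ S.card * (4 * ((G : ℝ) ^ (4 / 5 : ℝ) * (x : ℝ) ^ ε)) := by
          refine mul_le_mul hScard ?_ (by positivity) hSpos.le
          exact mul_le_mul_of_nonneg_left (mul_le_mul_of_nonneg_left h5 hG45) (by norm_num)
  have h3 : (T.card : ℝ) ≤ 4 * ((G : ℝ) ^ (4 / 5 : ℝ) * (x : ℝ) ^ ε) + 4 * (M : ℝ) ^ 2 := by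
    have h4 : (T.card : ℝ) * S.card ≤
        (4 * ((G : ℝ) ^ (4 / 5 : ℝ) * (x : ℝ) ^ ε) + 4 * (M : ℝ) ^ 2) * S.card := by
      calc (T.card : ℝ) * S.card ≤ _ := h1
        _ ≤ S.card * (4 * ((G : ℝ) ^ (4 / 5 : ℝ) * (x : ℝ) ^ ε)) +
            S.card * (4 * (M : ℝ) ^ 2) := by linarith
        _ = _ := by ring
    exact le_of_mul_le_mul_right h4 hSpos
  have h4 : (G : ℝ) ^ (4 / 5 : ℝ) ≤ (G : ℝ) ^ (4 / 5 : ℝ) * (x : ℝ) ^ ε := by
    nlinarith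
  have h5 : 8 * (x : ℝ) ^ ε ≤ ((⌈Y⌉₊ : ℝ) + 16) * (x : ℝ) ^ ε :=
    mul_le_mul_of_nonneg_right (by linarith) (by positivity)
  calc (T.card : ℝ) ≤ 8 * (x : ℝ) ^ ε * (G : ℝ) ^ (4 / 5 : ℝ) := by nlinarith
    _ ≤ ((⌈Y⌉₊ : ℝ) + 16) * (x : ℝ) ^ ε * ((G : ℝ) ^ (4 / 5 : ℝ) + 1) :=
      mul_le_mul h5 (by linarith) hG45 (by positivity)

end Pool.Agent.K1H88.WS
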