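import Pool.Agent.K1H88.WS.CaseA
import Pool.Agent.K1H88.WS.Quad3

set_option autoImplicit false

/-! Two primes with equal symbols and a small cofactor. -/

namespace Pool.Agent.K1H88.WS

open Finset Real Pool.Agent.W57.SW

/-- the progression of the last factor -/
lemma mod_unique {L m E E' : ℕ} (h1 : 1 ≤ m * E) (h1' : 1 ≤ m * E') (h : L ∣ m * E - 1)
    (h' : L ∣ m * E' - 1) : E % L = E' % L := by
  have hcop : Nat.Coprime L m := by
    have h2 : Nat.Coprime (m * E' - 1) (m * E') :=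
      (Nat.coprime_self_sub_left h1').2 (Nat.coprime_one_left _)
    exact Nat.Coprime.coprime_dvd_left h' (Nat.Coprime.coprime_dvd_right (dvd_mul_right m E') h2)
  have h2 : m * E ≡ 1 [MOD L] := ((Nat.modEq_iff_dvd' h1).2 h).symm
  have h3 : m * E' ≡ 1 [MOD L] := ((Nat.modEq_iff_dvd' h1').2 h').symm
  exact Nat.ModEq.cancel_left_of_coprime hcop (h2.trans h3.symm)

theorem caseA4i : ∃ C : ℝ, 0 < C ∧ ∀ x : ℕ, 1 ≤ x → ∀ A : Finset ℕ,
    (∀ n ∈ A, ∃ p1 p2 m : ℕ, n = p1 * p2 * m ∧ n ≤ x ∧ p1.Prime ∧ p2.Prime ∧ Nz x p1 ∧ Nz x p2 ∧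
      Odd p2 ∧ Sy x p2 p1 ∧ 1 ≤ m ∧ (m : ℝ) ≤ zz x ∧ Lam x p1 ∣ m * p2 - 1 ∧
      (Lam x p1 : ℝ) ^ (1 / 5 : ℝ) * (p2 : ℝ) ^ (4 / 5 : ℝ) ≤ (x : ℝ) ^ (1 / 2 - 9 / 2000 : ℝ)) →
    (A.card : ℝ) ≤ C * (x : ℝ) ^ (1 / 2 - 1 / 20000 : ℝ) := by
  classical
  obtain ⟨C, hC, hap⟩ := ap_count (1 / 1000000) (by norm_num) (by norm_num)
  obtain ⟨C', hC', hsum⟩ := inv_lam_sum (1 / 1000000) (by norm_num)
  refine ⟨2 * C * C', by positivity, ?_⟩
  intro x hx1 A hA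
  have hx1' : (1 : ℝ) ≤ x := by exact_mod_cast hx1
  have hx0 : (0 : ℝ) < x := by linarith
  have hz1 := zz_one hx1
  have hz0 : 0 < zz x := by linarith
  obtain ⟨B0, hB0⟩ : ∃ B0 : ℝ, B0 = (x : ℝ) ^ (1 / 2 - 9 / 2000 : ℝ) := ⟨_, rfl⟩
  rw [← hB0] at hA
  have hB00 : 0 < B0 := by rw [hB0]; positivity
  let P : Finset ℕ := (Icc 1 x).filter (fun p => p.Prime ∧ Nz x p)
  let K : Finset (ℕ × ℕ) := P ×ˢ Icc 1 ⌊zz x⌋₊
  let F : ℕ × ℕ → Finset ℕ := fun k =>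
    (Icc 1 x).filter (fun q => Odd q ∧ Sy x q k.1 ∧ Nz x q ∧ Lam x k.1 ∣ k.2 * q - 1 ∧
      (Lam x k.1 : ℝ) ^ (1 / 5 : ℝ) * (q : ℝ) ^ (4 / 5 : ℝ) ≤ B0 ∧ 2 ≤ k.2 * q)
  have h1 := count_img K A F (fun k q => k.1 * q * k.2)
    (fun k => 1 / ((Lam x k.1 : ℕ) : ℝ))
    (2 * C * ((x : ℝ) ^ (1 / 1000000 : ℝ) * (zz x) ^ (4 / 5 : ℝ) * B0)) (by
      intro n hn
      obtain ⟨p1, p2, m, h1, h2, h3, h4, h5, h6, h7, h8, h9, h10, h11, h12⟩ := hA n hn
      have hp1 := h3.pos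
      have hp2 := h4.two_le
      have hp1x : p1 ≤ x := by
        have : p1 * 1 ≤ p1 * (p2 * m) := Nat.mul_le_mul_left _ (by nlinarith)
        rw [← mul_assoc, ← h1] at this
        omega
      have hp2x : p2 ≤ x := by
        have : p2 * 1 ≤ p2 * (p1 * m) := Nat.mul_le_mul_left _ (by nlinarith)
        rw [← mul_assoc, mul_comm p2 p1, ← h1] at this
        omega
      refine ⟨⟨p1, m⟩, ?_, p2, ?_, h1⟩
      · rw [mem_product, mem_filter, mem_Icc, mem_Icc]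
        exact ⟨⟨⟨hp1, hp1x⟩, h3, h5⟩, h9, Nat.le_floor h10⟩
      · rw [mem_filter, mem_Icc]
        exact ⟨⟨by omega, hp2x⟩, h7, h8, h6, h11, h12, by nlinarith⟩) (by
      rintro ⟨p1, m⟩ hk
      rw [mem_product, mem_filter, mem_Icc, mem_Icc] at hk
      obtain ⟨⟨⟨k1, k2⟩, k3, k4⟩, k5, k6⟩ := hk
      simp only at k1 k2 k3 k4 k5 k6
      rcases (F ⟨p1, m⟩).eq_empty_or_nonempty with h0 | hne
      · rw [h0]; simp; positivity
      obtain ⟨F', hF'⟩ : ∃ F', F' = F ⟨p1, m⟩ := ⟨_, rfl⟩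
      rw [← hF'] at hne ⊢
      have hFm : ∀ q ∈ F', (1 ≤ q ∧ q ≤ x) ∧ Odd q ∧ Sy x q p1 ∧ Nz x q ∧
          Lam x p1 ∣ m * q - 1 ∧ (Lam x p1 : ℝ) ^ (1 / 5 : ℝ) * (q : ℝ) ^ (4 / 5 : ℝ) ≤ B0 ∧
          2 ≤ m * q := by
        intro q hq
        rw [hF'] at hq
        have h := mem_filter.1 hq
        exact ⟨mem_Icc.1 h.1, h.2⟩
      obtain ⟨X', hX'⟩ : ∃ X', X' = F'.max' hne := ⟨_, rfl⟩
      have hX'F : X' ∈ F' := by rw [hX']; exact F'.max'_mem hne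
      obtain ⟨⟨g1, g2⟩, g3, g4, g5, g6, g7, g8⟩ := hFm X' hX'F
      obtain ⟨L, hL⟩ : ∃ L, L = Lam x p1 := ⟨_, rfl⟩
      have hL1 : 1 ≤ L := by rw [hL]; exact lam_pos k3 k4
      have hLx : L ≤ x := by
        have h2 := Nat.le_of_dvd (Nat.sub_pos_of_lt k3.one_lt) (lam_dvd_pred k3 k4)
        rw [hL]; omega
      have hL0 : (0 : ℝ) < L := by exact_mod_cast hL1
      have hX'0 : (0 : ℝ) < X' := by exact_mod_cast g1
      have h2 := hap x x X' L X' p1 le_rfl g2 hL1 hLx F' (by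
        intro q hq
        obtain ⟨⟨b1, b2⟩, b3, b4, b5, b6, b7, b8⟩ := hFm q hq
        refine ⟨b1, by rw [hX']; exact F'.le_max' q hq, b3, ?_, b4, b5⟩
        rw [hL]
        exact mod_unique (by omega) (by omega) b6 g6)
      have h3 : ((X' : ℝ) / L) ^ (4 / 5 : ℝ) ≤ B0 / L := by
        rw [div_rpow hX'0.le hL0.le, div_le_div_iff₀ (by positivity) hL0]
        have h4 : (L : ℝ) = (L : ℝ) ^ (1 / 5 : ℝ) * (L : ℝ) ^ (4 / 5 : ℝ) := by
          rw [← rpow_add hL0]; norm_num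
        rw [← hL] at g7
        calc (X' : ℝ) ^ (4 / 5 : ℝ) * L = ((L : ℝ) ^ (1 / 5 : ℝ) * (X' : ℝ) ^ (4 / 5 : ℝ)) *
              (L : ℝ) ^ (4 / 5 : ℝ) := by nth_rewrite 1 [h4]; ring
          _ ≤ B0 * (L : ℝ) ^ (4 / 5 : ℝ) := mul_le_mul_of_nonneg_right g7 (by positivity)
      have h4 : (1 : ℝ) ≤ (zz x) ^ (4 / 5 : ℝ) * (B0 / L) := by
        have h5 : (1 : ℝ) ≤ zz x * (X' / L) := by
          have h6 := Nat.le_of_dvd (by omega) g6
          rw [← hL] at h6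
          have h7 : (L : ℝ) ≤ m * X' := by
            have : L ≤ m * X' := by omega
            exact_mod_cast this
          have h8 : (m : ℝ) ≤ zz x := (Nat.le_floor_iff hz0.le).1 k6
          rw [← mul_div_assoc, one_le_div hL0]
          nlinarith
        calc (1 : ℝ) ≤ (zz x * (X' / L)) ^ (4 / 5 : ℝ) := one_le_rpow h5 (by norm_num)
          _ = (zz x) ^ (4 / 5 : ℝ) * ((X' : ℝ) / L) ^ (4 / 5 : ℝ) :=
              mul_rpow hz0.le (by positivity)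
          _ ≤ _ := mul_le_mul_of_nonneg_left h3 (by positivity)
      have h5 : B0 / L ≤ (zz x) ^ (4 / 5 : ℝ) * (B0 / L) :=
        le_mul_of_one_le_left (by positivity) (one_le_rpow hz1 (by norm_num))
      rw [← hL]
      calc (F'.card : ℝ) ≤ _ := h2
        _ ≤ C * (x : ℝ) ^ (1 / 1000000 : ℝ) * (2 * ((zz x) ^ (4 / 5 : ℝ) * (B0 / L))) :=
            mul_le_mul_of_nonneg_left (by linarith) (by positivity)
        _ = _ := by ring)
  have h2 : ∑ k ∈ K, 1 / ((Lam x k.1 : ℕ) : ℝ) ≤ zz x * (C' * (x : ℝ) ^ (1 / 1000000 : ℝ)) := by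
    rw [Finset.sum_product]
    simp only [sum_const, nsmul_eq_mul, Nat.card_Icc, Nat.add_sub_cancel]
    rw [← mul_sum]
    have h3 := hsum x hx1 P (by
      intro p hp
      rw [mem_filter, mem_Icc] at hp
      exact ⟨hp.2.1, hp.1.2, hp.2.2⟩)
    exact mul_le_mul (Nat.floor_le hz0.le) h3 (sum_nonneg fun _ _ => by positivity) hz0.le
  have h3 : zz x = (x : ℝ) ^ (1 / 600 : ℝ) := rfl
  calc (A.card : ℝ) ≤ _ := h1
    _ ≤ _ * (zz x * (C' * (x : ℝ) ^ (1 / 1000000 : ℝ))) :=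
        mul_le_mul_of_nonneg_left h2 (by positivity)
    _ = 2 * C * C' * ((x : ℝ) ^ (1 / 1000000 : ℝ) * (zz x) ^ (4 / 5 : ℝ) * B0 * zz x *
        (x : ℝ) ^ (1 / 1000000 : ℝ)) := by ring
    _ = 2 * C * C' * (x : ℝ) ^ ((1 / 1000000 : ℝ) + 4 / 5 / 600 + (1 / 2 - 9 / 2000) + 1 / 600 +
        1 / 1000000) := by
        rw [zz_rpow, h3, hB0, ← rpow_add hx0, ← rpow_add hx0, ← rpow_add hx0, ← rpow_add hx0]
    _ ≤ _ := mul_le_mul_of_nonneg_left
        (rpow_le_rpow_of_exponent_le hx1' (by norm_num)) (by positivity)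

theorem caseA4ii : ∃ C : ℝ, 0 < C ∧ ∀ x : ℕ, 1 ≤ x → ∀ A : Finset ℕ,
    (∀ n ∈ A, ∃ p1 p2 : ℕ, n = p1 * p2 ∧ n ≤ x ∧ p1.Prime ∧ p2.Prime ∧ p1 ≠ p2 ∧ Nz x p1 ∧
      Nz x p2 ∧ n ∈ QQ x ∧ Lam x p1 ∣ p2 - 1 ∧ Lam x p2 ∣ p1 - 1 ∧
      (x : ℝ) ^ (1 - 9 / 200 : ℝ) ≤ (Lam x p1 : ℝ) * Lam x p2) →
    (A.card : ℝ) ≤ C * (x : ℝ) ^ (1 / 2 - 1 / 20000 : ℝ) := by
  classical
  obtain ⟨C, hC, hquad⟩ := quad_count (1 / 1000000) (by norm_num) (by norm_num)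
  refine ⟨2 * C, by positivity, ?_⟩
  intro x hx1 A hA
  have hx1' : (1 : ℝ) ≤ x := by exact_mod_cast hx1
  have hx0 : (0 : ℝ) < x := by linarith
  obtain ⟨B, hB⟩ : ∃ B : ℝ, B = (x : ℝ) ^ (9 / 200 : ℝ) := ⟨_, rfl⟩
  have hB1 : 1 ≤ B := by rw [hB]; exact one_le_rpow hx1' (by norm_num)
  have hBx : B ≤ x := by
    rw [hB]
    calc (x : ℝ) ^ (9 / 200 : ℝ) ≤ (x : ℝ) ^ (1 : ℝ) :=
          rpow_le_rpow_of_exponent_le hx1' (by norm_num)
      _ = x := rpow_one _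
  have hBB : (x : ℝ) ^ (1 - 9 / 200 : ℝ) * B = x := by
    rw [hB, ← rpow_add hx0]
    norm_num
  let K : Finset (ℕ × ℕ) := (Icc 1 ⌊B⌋₊ ×ˢ Icc 1 ⌊B⌋₊).filter (fun k => k.1 ≠ k.2)
  let F : ℕ × ℕ → Finset ℕ := fun k => (Icc 0 (Nat.sqrt x)).filter (fun g =>
    Odd (NN k.1 k.2 g) ∧ ∀ ℓ ∈ Vs x, jacobiSym (ℓ : ℤ) (NN k.1 k.2 g) = 1)
  have h1 := count_img K A F (fun k g => NN k.1 k.2 g) (fun _ => 1)
    (C * (x : ℝ) ^ (1 / 1000000 : ℝ) * (2 * (x : ℝ) ^ (2 / 5 : ℝ))) (by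
      intro n hn
      obtain ⟨p1, p2, h1, h2, h3, h4, h5, h6, h7, h8, h9, h10, h11⟩ := hA n hn
      obtain ⟨g, hg⟩ : ∃ g, g = Nat.gcd (p1 - 1) (p2 - 1) := ⟨_, rfl⟩
      have hp1 := h3.two_le
      have hp2 := h4.two_le
      have hg1 : Lam x p1 ∣ g := by
        rw [hg]; exact Nat.dvd_gcd (lam_dvd_pred h3 h6) h9
      have hg2 : Lam x p2 ∣ g := by
        rw [hg]; exact Nat.dvd_gcd h10 (lam_dvd_pred h4 h7)
      obtain ⟨a, ha⟩ : g ∣ p1 - 1 := by rw [hg]; exact Nat.gcd_dvd_left _ _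
      obtain ⟨b, hb⟩ : g ∣ p2 - 1 := by rw [hg]; exact Nat.gcd_dvd_right _ _
      have hg0 : 0 < g := by
        rcases Nat.eq_zero_or_pos g with h | h
        · rw [h, zero_mul] at ha; omega
        · exact h
      have ha0 : 1 ≤ a := by
        rcases Nat.eq_zero_or_pos a with h | h
        · rw [h, mul_zero] at ha; omega
        · exact h
      have hb0 : 1 ≤ b := by
        rcases Nat.eq_zero_or_pos b with h | h
        · rw [h, mul_zero] at hb; omega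
        · exact h
      have e1 : p1 = 1 + g * a := by omega
      have e2 : p2 = 1 + g * b := by omega
      have hNN : n = NN a b g := by rw [h1, e1, e2]; rfl
      have hne : a ≠ b := by
        rintro rfl
        exact h5 (by rw [e1, e2])
      have hgab : (g * a) * (g * b) ≤ x := by
        refine le_trans ?_ h2
        rw [h1]
        exact Nat.mul_le_mul (by omega) (by omega)
      have hgg : g ≤ Nat.sqrt x := by
        rw [Nat.le_sqrt]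
        refine le_trans ?_ hgab
        exact Nat.mul_le_mul (Nat.le_mul_of_pos_right _ ha0) (Nat.le_mul_of_pos_right _ hb0)
      have hTT : (Lam x p1 : ℝ) * Lam x p2 ≤ (g : ℝ) * g := by
        have := Nat.mul_le_mul (Nat.le_of_dvd hg0 hg1) (Nat.le_of_dvd hg0 hg2)
        exact_mod_cast this
      have hab : (a : ℝ) * b ≤ B := by
        have i1 : ((g : ℝ) * g) * (a * b) ≤ x := by
          have : ((g * a) * (g * b) : ℕ) ≤ (x : ℝ) := by exact_mod_cast hgab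
          push_cast at this
          linarith
        have i2 : (x : ℝ) ^ (1 - 9 / 200 : ℝ) * ((a : ℝ) * b) ≤
            (x : ℝ) ^ (1 - 9 / 200 : ℝ) * B := by
          rw [hBB]
          refine le_trans ?_ i1
          exact mul_le_mul_of_nonneg_right (h11.trans hTT) (by positivity)
        exact le_of_mul_le_mul_left i2 (by positivity)
      have ha1 : (1 : ℝ) ≤ a := by exact_mod_cast ha0
      have hb1 : (1 : ℝ) ≤ b := by exact_mod_cast hb0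
      refine ⟨⟨a, b⟩, ?_, g, ?_, hNN⟩
      · rw [mem_filter, mem_product, mem_Icc, mem_Icc]
        exact ⟨⟨⟨ha0, Nat.le_floor (by nlinarith)⟩, hb0, Nat.le_floor (by nlinarith)⟩, hne⟩
      · rw [mem_filter, mem_Icc]
        refine ⟨⟨Nat.zero_le _, hgg⟩, ?_, ?_⟩
        · show Odd (NN a b g)
          rw [← hNN]; exact (mem_QQ.1 h8).2.1
        · intro ℓ hℓ
          show jacobiSym (ℓ : ℤ) (NN a b g) = 1
          rw [← hNN, (mem_QQ.1 h8).2.2.2.2 ℓ hℓ]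
          simp) (by
      rintro ⟨a, b⟩ hk
      rw [mem_filter, mem_product, mem_Icc, mem_Icc] at hk
      obtain ⟨⟨⟨k1, k2⟩, k3, k4⟩, k5⟩ := hk
      simp only at k1 k2 k3 k4 k5
      have hfx : ⌊B⌋₊ ≤ x := by
        have : ((⌊B⌋₊ : ℕ) : ℝ) ≤ x := (Nat.floor_le (by linarith)).trans hBx
        exact_mod_cast this
      have h2 := hquad x (Nat.sqrt x) a b hx1 (Nat.sqrt_le_self x) k1 (k2.trans hfx) k3
        (k4.trans hfx) k5 (F ⟨a, b⟩) (by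
          intro g hg
          have h := mem_filter.1 hg
          exact ⟨(mem_Icc.1 h.1).2, h.2⟩)
      rw [mul_one]
      refine h2.trans (mul_le_mul_of_nonneg_left ?_ (by positivity))
      have h3 : ((Nat.sqrt x : ℕ) : ℝ) ≤ (x : ℝ) ^ (1 / 2 : ℝ) := by
        rw [← Real.sqrt_eq_rpow]
        exact Real.nat_sqrt_le_real_sqrt
      have h4 : ((Nat.sqrt x : ℕ) : ℝ) ^ (4 / 5 : ℝ) ≤ (x : ℝ) ^ (2 / 5 : ℝ) := by
        calc ((Nat.sqrt x : ℕ) : ℝ) ^ (4 / 5 : ℝ) ≤ ((x : ℝ) ^ (1 / 2 : ℝ)) ^ (4 / 5 : ℝ) :=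
              rpow_le_rpow (Nat.cast_nonneg _) h3 (by norm_num)
          _ = (x : ℝ) ^ (2 / 5 : ℝ) := by rw [← rpow_mul hx0.le]; norm_num
      have h5 : (1 : ℝ) ≤ (x : ℝ) ^ (2 / 5 : ℝ) := one_le_rpow hx1' (by norm_num)
      linarith)
  have h2 : ∑ _k ∈ K, (1 : ℝ) ≤ B * B := by
    rw [sum_const, nsmul_eq_mul, mul_one]
    have h3 := card_le_card (filter_subset (fun k : ℕ × ℕ => k.1 ≠ k.2)
      (Icc 1 ⌊B⌋₊ ×ˢ Icc 1 ⌊B⌋₊))
    rw [card_product, Nat.card_Icc, Nat.add_sub_cancel] at h3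
    have h4 : (K.card : ℝ) ≤ (⌊B⌋₊ : ℝ) * ⌊B⌋₊ := by exact_mod_cast h3
    have h5 : (⌊B⌋₊ : ℝ) ≤ B := Nat.floor_le (by linarith)
    refine h4.trans (mul_le_mul h5 h5 (Nat.cast_nonneg _) (by linarith))
  calc (A.card : ℝ) ≤ _ := h1
    _ ≤ _ * (B * B) := mul_le_mul_of_nonneg_left h2 (by positivity)
    _ = 2 * C * ((x : ℝ) ^ (1 / 1000000 : ℝ) * (x : ℝ) ^ (2 / 5 : ℝ) * B * B) := by ring
    _ = 2 * C * (x : ℝ) ^ ((1 / 1000000 : ℝ) + 2 / 5 + 9 / 200 + 9 / 200) := by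
        rw [hB, ← rpow_add hx0, ← rpow_add hx0, ← rpow_add hx0]
    _ ≤ _ := mul_le_mul_of_nonneg_left
        (rpow_le_rpow_of_exponent_le hx1' (by norm_num)) (by positivity)

/-- the linear system has one solution -/
lemma lin_unique {m a b h h' p1 p2 T1 T2 q1 q2 S1 S2 : ℤ} (hm : 2 ≤ m) (hp1 : 2 ≤ p1)
    (hp2 : 2 ≤ p2) (e1 : p1 = 1 + a * T1) (e2 : p2 = 1 + b * T2) (e3 : m * p2 = 1 + h * T1)
    (e4 : m * p1 = 1 + h' * T2) (f1 : q1 = 1 + a * S1) (f2 : q2 = 1 + b * S2)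
    (f3 : m * q2 = 1 + h * S1) (f4 : m * q1 = 1 + h' * S2) : p1 = q1 ∧ p2 = q2 := by
  have hD : h * h' - a * b * m ^ 2 ≠ 0 := by
    intro h0
    have h1 : (h * T1) * (h' * T2) = m ^ 2 * ((a * T1) * (b * T2)) := by
      have : T1 * T2 * (h * h' - a * b * m ^ 2) = 0 := by rw [h0, mul_zero]
      linarith
    rw [show h * T1 = m * p2 - 1 by linarith, show h' * T2 = m * p1 - 1 by linarith,
      show a * T1 = p1 - 1 by linarith, show b * T2 = p2 - 1 by linarith] at h1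
    have h2 : (m - 1) * (m * (p1 + p2) - (m + 1)) = 0 := by linarith
    rcases mul_eq_zero.1 h2 with h3 | h3
    · linarith
    · nlinarith
  have h1 : (h * h' - a * b * m ^ 2) * p1 = h' * (h - a) + a * m * (h' - b) := by
    have i1 : h * p1 - a * (m * p2) = h - a := by rw [e3, e1]; ring
    have i2 : h' * p2 - b * (m * p1) = h' - b := by rw [e4, e2]; ring
    linear_combination h' * i1 + a * m * i2
  have h2 : (h * h' - a * b * m ^ 2) * q1 = h' * (h - a) + a * m * (h' - b) := by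
    have i1 : h * q1 - a * (m * q2) = h - a := by rw [f3, f1]; ring
    have i2 : h' * q2 - b * (m * q1) = h' - b := by rw [f4, f2]; ring
    linear_combination h' * i1 + a * m * i2
  have h3 : (h * h' - a * b * m ^ 2) * p2 = h * (h' - b) + b * m * (h - a) := by
    have i1 : h * p1 - a * (m * p2) = h - a := by rw [e3, e1]; ring
    have i2 : h' * p2 - b * (m * p1) = h' - b := by rw [e4, e2]; ring
    linear_combination h * i2 + b * m * i1
  have h4 : (h * h' - a * b * m ^ 2) * q2 = h * (h' - b) + b * m * (h - a) := by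
    have i1 : h * q1 - a * (m * q2) = h - a := by rw [f3, f1]; ring
    have i2 : h' * q2 - b * (m * q1) = h' - b := by rw [f4, f2]; ring
    linear_combination h * i2 + b * m * i1
  exact ⟨mul_left_cancel₀ hD (h1.trans h2.symm), mul_left_cancel₀ hD (h3.trans h4.symm)⟩

theorem caseA4iii : ∀ x : ℕ, 1 ≤ x → ∀ A : Finset ℕ,
    (∀ n ∈ A, ∃ p1 p2 m : ℕ, n = p1 * p2 * m ∧ n ≤ x ∧ p1.Prime ∧ p2.Prime ∧ Nz x p1 ∧ Nz x p2 ∧
      2 ≤ m ∧ (m : ℝ) ≤ zz x ∧ Lam x p1 ∣ m * p2 - 1 ∧ Lam x p2 ∣ m * p1 - 1 ∧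
      (x : ℝ) ^ (1 - 9 / 200 : ℝ) ≤ (Lam x p1 : ℝ) * Lam x p2) →
    (A.card : ℝ) ≤ (x : ℝ) ^ (1 / 2 - 1 / 20000 : ℝ) := by
  classical
  intro x hx1 A hA
  have hx1' : (1 : ℝ) ≤ x := by exact_mod_cast hx1
  have hx0 : (0 : ℝ) < x := by linarith
  have hz1 := zz_one hx1
  have hz0 : 0 < zz x := by linarith
  obtain ⟨B, hB⟩ : ∃ B : ℝ, B = (x : ℝ) ^ (9 / 200 : ℝ) := ⟨_, rfl⟩
  have hB1 : 1 ≤ B := by rw [hB]; exact one_le_rpow hx1' (by norm_num)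
  have hB0 : 0 < B := by linarith
  have hBB : (x : ℝ) ^ (1 - 9 / 200 : ℝ) * B = x := by
    rw [hB, ← rpow_add hx0]
    norm_num
  let K : Finset (ℕ × (ℕ × ℕ) × (ℕ × ℕ)) := Icc 1 ⌊zz x⌋₊ ×ˢ ((Icc 1 ⌊B⌋₊ ×ˢ Icc 1 ⌊B⌋₊) ×ˢ
    (Icc 1 ⌊zz x * B⌋₊ ×ˢ Icc 1 ⌊zz x * B⌋₊))
  let G : ℕ × (ℕ × ℕ) × (ℕ × ℕ) → Finset ℕ := fun k => A.filter (fun n =>
    ∃ p1 p2 T1 T2 : ℕ, n = p1 * p2 * k.1 ∧ 2 ≤ p1 ∧ 2 ≤ p2 ∧ 2 ≤ k.1 ∧
      p1 = 1 + k.2.1.1 * T1 ∧ p2 = 1 + k.2.1.2 * T2 ∧ k.1 * p2 = 1 + k.2.2.1 * T1 ∧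
      k.1 * p1 = 1 + k.2.2.2 * T2)
  have h1 := count_le K A G (fun _ => 1) 1 (by
      intro n hn
      obtain ⟨p1, p2, m, h1, h2, h3, h4, h5, h6, h7, h8, h9, h10, h11⟩ := hA n hn
      have hp1 := h3.two_le
      have hp2 := h4.two_le
      obtain ⟨T1, hT1⟩ : ∃ T1, T1 = Lam x p1 := ⟨_, rfl⟩
      obtain ⟨T2, hT2⟩ : ∃ T2, T2 = Lam x p2 := ⟨_, rfl⟩
      have d1 := lam_dvd_pred h3 h5
      have d2 := lam_dvd_pred h4 h6
      rw [← hT1] at d1 h9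
      rw [← hT2] at d2 h10
      rw [← hT1, ← hT2] at h11
      obtain ⟨a, ha⟩ := d1
      obtain ⟨b, hb⟩ := d2
      obtain ⟨h, hh⟩ := h9
      obtain ⟨h', hh'⟩ := h10
      have hmp1 : 2 ≤ m * p1 := by nlinarith
      have hmp2 : 2 ≤ m * p2 := by nlinarith
      have hpos : ∀ u v w : ℕ, 1 ≤ w → w = u * v → 1 ≤ v := by
        intro u v w hw h
        rcases Nat.eq_zero_or_pos v with h0 | h0
        · rw [h0, mul_zero] at h; omega
        · exact h0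
      have ha0 : 1 ≤ a := hpos _ _ _ (by omega) ha
      have hb0 : 1 ≤ b := hpos _ _ _ (by omega) hb
      have hh0 : 1 ≤ h := hpos _ _ _ (by omega) hh
      have hh0' : 1 ≤ h' := hpos _ _ _ (by omega) hh'
      have ha1 : (1 : ℝ) ≤ a := by exact_mod_cast ha0
      have hb1 : (1 : ℝ) ≤ b := by exact_mod_cast hb0
      have hh1 : (1 : ℝ) ≤ h := by exact_mod_cast hh0
      have hh1' : (1 : ℝ) ≤ h' := by exact_mod_cast hh0'
      have hnx : ((p1 * p2 * m : ℕ) : ℝ) ≤ x := by rw [← h1]; exact_mod_cast h2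
      have hm1 : (1 : ℝ) ≤ m := by exact_mod_cast (by omega : 1 ≤ m)
      have hab : (a : ℝ) * b ≤ B := by
        have i0 : T1 * a * (T2 * b) ≤ p1 * p2 * m := by
          rw [← ha, ← hb]
          calc (p1 - 1) * (p2 - 1) ≤ p1 * p2 := Nat.mul_le_mul (by omega) (by omega)
            _ ≤ p1 * p2 * m := Nat.le_mul_of_pos_right _ (by omega)
        have i1 : ((T1 : ℝ) * T2) * (a * b) ≤ x := by
          have : ((T1 * a * (T2 * b) : ℕ) : ℝ) ≤ (x : ℝ) := le_trans (by exact_mod_cast i0) hnx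
          push_cast at this
          linarith
        have i2 : (x : ℝ) ^ (1 - 9 / 200 : ℝ) * ((a : ℝ) * b) ≤
            (x : ℝ) ^ (1 - 9 / 200 : ℝ) * B := by
          rw [hBB]
          refine le_trans ?_ i1
          exact mul_le_mul_of_nonneg_right h11 (by positivity)
        exact le_of_mul_le_mul_left i2 (by positivity)
      have hhh : (h : ℝ) * h' ≤ zz x * B := by
        have i0 : T1 * h * (T2 * h') ≤ m * (p1 * p2 * m) := by
          rw [← hh, ← hh']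
          calc (m * p2 - 1) * (m * p1 - 1) ≤ (m * p2) * (m * p1) :=
                Nat.mul_le_mul (by omega) (by omega)
            _ = m * (p1 * p2 * m) := by ring
        have i1 : ((T1 : ℝ) * T2) * (h * h') ≤ zz x * x := by
          have : ((T1 * h * (T2 * h') : ℕ) : ℝ) ≤ ((m * (p1 * p2 * m) : ℕ) : ℝ) := by
            exact_mod_cast i0
          rw [Nat.cast_mul m] at this
          push_cast at this hnx
          have i3 : (m : ℝ) * (p1 * p2 * m) ≤ zz x * x := mul_le_mul h8 hnx (by positivity) hz0.le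
          linarith
        have i2 : (x : ℝ) ^ (1 - 9 / 200 : ℝ) * ((h : ℝ) * h') ≤
            (x : ℝ) ^ (1 - 9 / 200 : ℝ) * (zz x * B) := by
          have i4 : (x : ℝ) ^ (1 - 9 / 200 : ℝ) * (zz x * B) = zz x * x := by
            calc (x : ℝ) ^ (1 - 9 / 200 : ℝ) * (zz x * B) =
                zz x * ((x : ℝ) ^ (1 - 9 / 200 : ℝ) * B) := by ring
              _ = zz x * x := by rw [hBB]
          rw [i4]
          refine le_trans ?_ i1
          exact mul_le_mul_of_nonneg_right h11 (by positivity)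
        exact le_of_mul_le_mul_left i2 (by positivity)
      refine ⟨⟨m, ⟨a, b⟩, ⟨h, h'⟩⟩, ?_, ?_⟩
      · simp only [K, mem_product, mem_Icc]
        exact ⟨⟨by omega, Nat.le_floor h8⟩, ⟨⟨ha0, Nat.le_floor (by nlinarith)⟩, hb0,
          Nat.le_floor (by nlinarith)⟩, ⟨hh0, Nat.le_floor (by nlinarith)⟩, hh0',
          Nat.le_floor (by nlinarith)⟩
      · simp only [G, mem_filter]
        refine ⟨hn, p1, p2, T1, T2, h1, hp1, hp2, h7, ?_, ?_, ?_, ?_⟩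
        · rw [mul_comm]; omega
        · rw [mul_comm]; omega
        · rw [mul_comm h T1]; omega
        · rw [mul_comm h' T2]; omega) (by
      rintro ⟨m, ⟨a, b⟩, ⟨h, h'⟩⟩ _
      rw [mul_one]
      have : (G ⟨m, ⟨a, b⟩, ⟨h, h'⟩⟩).card ≤ 1 := by
        rw [card_le_one]
        intro n hn n' hn'
        simp only [G, mem_filter] at hn hn'
        obtain ⟨_, p1, p2, T1, T2, i1, i2, i3, i4, i5, i6, i7, i8⟩ := hn
        obtain ⟨_, q1, q2, S1, S2, j1, j2, j3, j4, j5, j6, j7, j8⟩ := hn'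
        have h := lin_unique (m := m) (a := a) (b := b) (h := h) (h' := h') (p1 := p1) (p2 := p2)
          (T1 := T1) (T2 := T2) (q1 := q1) (q2 := q2) (S1 := S1) (S2 := S2)
          (by exact_mod_cast i4) (by exact_mod_cast i2) (by exact_mod_cast i3)
          (by exact_mod_cast i5) (by exact_mod_cast i6) (by exact_mod_cast i7)
          (by exact_mod_cast i8) (by exact_mod_cast j5) (by exact_mod_cast j6)
          (by exact_mod_cast j7) (by exact_mod_cast j8)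
        have e1 : p1 = q1 := by exact_mod_cast h.1
        have e2 : p2 = q2 := by exact_mod_cast h.2
        rw [i1, j1, e1, e2]
      exact_mod_cast this)
  have h2 : ∑ _k ∈ K, (1 : ℝ) ≤ zz x * ((B * B) * ((zz x * B) * (zz x * B))) := by
    rw [sum_const, nsmul_eq_mul, mul_one]
    have h3 : (K.card : ℝ) = (⌊zz x⌋₊ : ℝ) * (((⌊B⌋₊ : ℝ) * ⌊B⌋₊) *
        ((⌊zz x * B⌋₊ : ℝ) * ⌊zz x * B⌋₊)) := by
      simp only [K, card_product, Nat.card_Icc, Nat.add_sub_cancel]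
      push_cast
      ring
    rw [h3]
    have h5 : (⌊B⌋₊ : ℝ) ≤ B := Nat.floor_le (by linarith)
    have h6 : (⌊zz x⌋₊ : ℝ) ≤ zz x := Nat.floor_le (by linarith)
    have h7 : (⌊zz x * B⌋₊ : ℝ) ≤ zz x * B := Nat.floor_le (by positivity)
    gcongr
  have h3 : zz x = (x : ℝ) ^ (1 / 600 : ℝ) := rfl
  calc (A.card : ℝ) ≤ _ := h1
    _ ≤ 1 * (zz x * ((B * B) * ((zz x * B) * (zz x * B)))) :=
        mul_le_mul_of_nonneg_left h2 (by norm_num)
    _ = zz x * B * B * zz x * B * zz x * B := by ring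
    _ = (x : ℝ) ^ (1 / 600 + 9 / 200 + 9 / 200 + 1 / 600 + 9 / 200 + 1 / 600 + 9 / 200 : ℝ) := by
        rw [h3, hB, ← rpow_add hx0, ← rpow_add hx0, ← rpow_add hx0, ← rpow_add hx0,
          ← rpow_add hx0, ← rpow_add hx0]
    _ ≤ _ := rpow_le_rpow_of_exponent_le hx1' (by norm_num)

end Pool.Agent.K1H88.WS
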