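import Pool.Agent.K1H88.WS.CaseA

set_option autoImplicit false

/-! One exceptional prime. -/

namespace Pool.Agent.K1H88.WS

open Finset Real Pool.Agent.W57.SW

theorem caseB0 : ∃ C : ℝ, 0 < C ∧ ∀ x : ℕ, 1 ≤ x → ∀ A : Finset ℕ,
    (∀ n ∈ A, ∃ p m : ℕ, n = p * m ∧ n ≤ x ∧ p.Prime ∧ Nz x p ∧ 2 ≤ m ∧ m ∈ UU x 1 ∧
      Lam x p ∣ m - 1 ∧ (p : ℝ) ^ (1 / 2 : ℝ) * (x : ℝ) ^ (1 / 12000 : ℝ) ≤ Lam x p) →
    (A.card : ℝ) ≤ C * (x : ℝ) ^ (1 / 2 - 1 / 20000 : ℝ) := by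
  classical
  obtain ⟨R, hR, hU⟩ := UU_sum (1 / 1000000) (by norm_num)
  obtain ⟨C', hC', hd⟩ := card_divisors_le (1 / 1000000) (by norm_num)
  refine ⟨C' * R, by positivity, ?_⟩
  intro x hx1 A hA
  have hx1' : (1 : ℝ) ≤ x := by exact_mod_cast hx1
  have hx0 : (0 : ℝ) < x := by linarith
  let K : Finset ((_ : ℕ) × ℕ) := (UU x 1).sigma (fun m => (m - 1).divisors)
  let F : ((_ : ℕ) × ℕ) → Finset ℕ := fun k => (Icc 1 x).filter (fun p =>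
    2 ≤ p ∧ p * k.1 ≤ x ∧ k.2 ∣ p - 1 ∧
      (p : ℝ) ^ (1 / 2 : ℝ) * (x : ℝ) ^ (1 / 12000 : ℝ) ≤ k.2)
  have h1 := count_img K A F (fun k p => p * k.1)
    (fun k => (k.1 : ℝ) ^ (-(1 / 2 + 2 * (1 / 1000000 : ℝ))))
    ((x : ℝ) ^ (1 / 2 + 2 * (1 / 1000000 : ℝ)) * (x : ℝ) ^ (-(1 / 12000 : ℝ))) (by
      intro n hn
      obtain ⟨p, m, h1, h2, h3, h4, h5, h6, h7, h8⟩ := hA n hn
      have hp := h3.two_le
      refine ⟨⟨m, Lam x p⟩, ?_, p, ?_, h1⟩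
      · rw [mem_sigma, Nat.mem_divisors]
        exact ⟨h6, h7, show m - 1 ≠ 0 by omega⟩
      · rw [mem_filter, mem_Icc]
        have hpm : p * m ≤ x := by rw [← h1]; exact h2
        exact ⟨⟨by omega, by nlinarith⟩, hp, hpm, lam_dvd_pred h3 h4, h8⟩) (by
      rintro ⟨m, T⟩ hk
      rw [mem_sigma] at hk
      have hm1 : 1 ≤ m := (mem_UU.1 hk.1).1.1
      have hT1 : 1 ≤ T := Nat.pos_of_mem_divisors hk.2
      have hm0 : (0 : ℝ) < m := by exact_mod_cast hm1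
      have hT0 : (0 : ℝ) < T := by exact_mod_cast hT1
      rcases (F ⟨m, T⟩).eq_empty_or_nonempty with h0 | hne
      · rw [h0]; simp; positivity
      obtain ⟨F', hF'⟩ : ∃ F', F' = F ⟨m, T⟩ := ⟨_, rfl⟩
      rw [← hF'] at hne ⊢
      have hFm : ∀ p ∈ F', 2 ≤ p ∧ p * m ≤ x ∧ T ∣ p - 1 ∧
          (p : ℝ) ^ (1 / 2 : ℝ) * (x : ℝ) ^ (1 / 12000 : ℝ) ≤ T := by
        intro p hp
        rw [hF'] at hp
        exact (mem_filter.1 hp).2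
      obtain ⟨X', hX'⟩ : ∃ X', X' = F'.max' hne := ⟨_, rfl⟩
      have hX'F : X' ∈ F' := by rw [hX']; exact F'.max'_mem hne
      obtain ⟨g1, g2, g3, g4⟩ := hFm X' hX'F
      have hX0 : (0 : ℝ) < X' := by exact_mod_cast (by omega : 0 < X')
      have hsub : F' ⊆ (Icc 1 (X' / T)).image (fun k => 1 + T * k) := by
        intro p hp
        obtain ⟨b1, b2, ⟨k, hk⟩, b4⟩ := hFm p hp
        have hpX : p ≤ X' := by rw [hX']; exact F'.le_max' p hp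
        rw [mem_image]
        refine ⟨k, ?_, by omega⟩
        rw [mem_Icc]
        constructor
        · rcases Nat.eq_zero_or_pos k with h | h
          · rw [h, mul_zero] at hk; omega
          · exact h
        · rw [Nat.le_div_iff_mul_le hT1, mul_comm, ← hk]; omega
      have h2 : (F'.card : ℝ) ≤ (X' : ℝ) / T := by
        have h3 := (card_le_card hsub).trans card_image_le
        rw [Nat.card_Icc, Nat.add_sub_cancel] at h3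
        exact le_trans (by exact_mod_cast h3) Nat.cast_div_le
      have hxκ : 0 < (x : ℝ) ^ (1 / 12000 : ℝ) := by positivity
      have h3 : (X' : ℝ) / T ≤ (X' : ℝ) ^ (1 / 2 : ℝ) * (x : ℝ) ^ (-(1 / 12000 : ℝ)) := by
        rw [div_le_iff₀ hT0]
        calc (X' : ℝ) = (X' : ℝ) ^ (1 / 2 : ℝ) * (x : ℝ) ^ (-(1 / 12000 : ℝ)) *
              ((X' : ℝ) ^ (1 / 2 : ℝ) * (x : ℝ) ^ (1 / 12000 : ℝ)) := by
              have i1 : (X' : ℝ) ^ (1 / 2 : ℝ) * (X' : ℝ) ^ (1 / 2 : ℝ) = X' := by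
                rw [← rpow_add hX0]; norm_num
              have i2 : (x : ℝ) ^ (-(1 / 12000 : ℝ)) * (x : ℝ) ^ (1 / 12000 : ℝ) = 1 := by
                rw [← rpow_add hx0]; norm_num
              calc (X' : ℝ) = X' * 1 := (mul_one _).symm
                _ = ((X' : ℝ) ^ (1 / 2 : ℝ) * (X' : ℝ) ^ (1 / 2 : ℝ)) *
                    ((x : ℝ) ^ (-(1 / 12000 : ℝ)) * (x : ℝ) ^ (1 / 12000 : ℝ)) := by rw [i1, i2]
                _ = _ := by ring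
          _ ≤ _ := mul_le_mul_of_nonneg_left g4 (by positivity)
      have hmx : m ≤ x := by nlinarith
      have h4 : (X' : ℝ) ^ (1 / 2 : ℝ) ≤ (x : ℝ) ^ (1 / 2 + 2 * (1 / 1000000 : ℝ)) *
          (m : ℝ) ^ (-(1 / 2 + 2 * (1 / 1000000 : ℝ))) := by
        have i1 : (X' : ℝ) ≤ (x : ℝ) / m := by
          rw [le_div_iff₀ hm0]; exact_mod_cast g2
        have i2 : (1 : ℝ) ≤ (x : ℝ) / m := by
          rw [one_le_div hm0]; exact_mod_cast hmx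
        calc (X' : ℝ) ^ (1 / 2 : ℝ) ≤ ((x : ℝ) / m) ^ (1 / 2 : ℝ) :=
              rpow_le_rpow hX0.le i1 (by norm_num)
          _ ≤ ((x : ℝ) / m) ^ (1 / 2 + 2 * (1 / 1000000 : ℝ)) :=
              rpow_le_rpow_of_exponent_le i2 (by norm_num)
          _ = _ := by
              rw [div_rpow hx0.le hm0.le, rpow_neg hm0.le]
              exact div_eq_mul_inv _ _
      calc (F'.card : ℝ) ≤ _ := h2
        _ ≤ _ := h3
        _ ≤ ((x : ℝ) ^ (1 / 2 + 2 * (1 / 1000000 : ℝ)) *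
            (m : ℝ) ^ (-(1 / 2 + 2 * (1 / 1000000 : ℝ)))) * (x : ℝ) ^ (-(1 / 12000 : ℝ)) :=
            mul_le_mul_of_nonneg_right h4 (by positivity)
        _ = _ := by ring)
  have h2 : ∑ k ∈ K, (k.1 : ℝ) ^ (-(1 / 2 + 2 * (1 / 1000000 : ℝ))) ≤
      C' * (x : ℝ) ^ (1 / 1000000 : ℝ) * R := by
    rw [Finset.sum_sigma]
    have h3 : ∀ m ∈ UU x 1, ∑ _s ∈ (m - 1).divisors, (m : ℝ) ^ (-(1 / 2 + 2 * (1 / 1000000 : ℝ))) ≤
        C' * (x : ℝ) ^ (1 / 1000000 : ℝ) * (m : ℝ) ^ (-(1 / 2 + 2 * (1 / 1000000 : ℝ))) := by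
      intro m hm
      rw [sum_const, nsmul_eq_mul]
      apply mul_le_mul_of_nonneg_right _ (by positivity)
      rcases Nat.lt_or_ge m 2 with h | h
      · have : m - 1 = 0 := by omega
        rw [this]; simp; positivity
      · have := (mem_UU.1 hm).1.2
        exact hd x (m - 1) (by omega) (by omega)
    refine (sum_le_sum h3).trans ?_
    rw [← mul_sum]
    exact mul_le_mul_of_nonneg_left (hU x 1) (by positivity)
  calc (A.card : ℝ) ≤ _ := h1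
    _ ≤ _ * (C' * (x : ℝ) ^ (1 / 1000000 : ℝ) * R) :=
        mul_le_mul_of_nonneg_left h2 (by positivity)
    _ = C' * R * ((x : ℝ) ^ (1 / 2 + 2 * (1 / 1000000 : ℝ)) * (x : ℝ) ^ (-(1 / 12000 : ℝ)) *
        (x : ℝ) ^ (1 / 1000000 : ℝ)) := by ring
    _ = C' * R * (x : ℝ) ^ (1 / 2 + 2 * (1 / 1000000 : ℝ) + -(1 / 12000 : ℝ) + 1 / 1000000) := by
        rw [← rpow_add hx0, ← rpow_add hx0]
    _ ≤ _ := mul_le_mul_of_nonneg_left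
        (rpow_le_rpow_of_exponent_le hx1' (by norm_num)) (by positivity)

open Classical in
/-- primes with small exponent -/
noncomputable def PS (x : ℕ) : Finset ℕ := (Icc 1 x).filter (fun p => p.Prime ∧ Nz x p ∧
  (Lam x p : ℝ) < (p : ℝ) ^ (1 / 2 : ℝ) * (x : ℝ) ^ (1 / 12000 : ℝ))

lemma mem_PS {x p : ℕ} : p ∈ PS x ↔ (1 ≤ p ∧ p ≤ x) ∧ p.Prime ∧ Nz x p ∧
    (Lam x p : ℝ) < (p : ℝ) ^ (1 / 2 : ℝ) * (x : ℝ) ^ (1 / 12000 : ℝ) := by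
  unfold PS
  simp only [mem_filter, mem_Icc]

theorem sumB : ∃ C : ℝ, 0 < C ∧ ∀ x : ℕ, 1 ≤ x →
    ∑ k ∈ PS x ×ˢ UU x 1, ((k.1 : ℝ) * k.2) ^ (-(1 / 2 + 2 * (1 / 1000000 : ℝ))) ≤
      C * ((x : ℝ) ^ (1 / 12000 : ℝ) * (x : ℝ) ^ (1 / 1000000 : ℝ)) := by
  obtain ⟨R, hR, hU⟩ := UU_sum (1 / 1000000) (by norm_num)
  obtain ⟨C', hC', hsum⟩ := inv_lam_sum (1 / 1000000) (by norm_num)
  refine ⟨C' * R, by positivity, fun x hx1 => ?_⟩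
  have hx1' : (1 : ℝ) ≤ x := by exact_mod_cast hx1
  have hx0 : (0 : ℝ) < x := by linarith
  rw [Finset.sum_product]
  have h1 : ∀ p ∈ PS x, ∑ m ∈ UU x 1, ((p : ℝ) * m) ^ (-(1 / 2 + 2 * (1 / 1000000 : ℝ))) ≤
      (x : ℝ) ^ (1 / 12000 : ℝ) * R * (1 / ((Lam x p : ℕ) : ℝ)) := by
    intro p hp
    obtain ⟨⟨a1, a2⟩, a3, a4, a5⟩ := mem_PS.1 hp
    have hp1 : (1 : ℝ) ≤ p := by exact_mod_cast a1
    have hp0 : (0 : ℝ) < p := by linarith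
    have hL0 : (0 : ℝ) < (Lam x p : ℕ) := by exact_mod_cast lam_pos a3 a4
    have h2 : ∀ m ∈ UU x 1, ((p : ℝ) * m) ^ (-(1 / 2 + 2 * (1 / 1000000 : ℝ))) =
        (p : ℝ) ^ (-(1 / 2 + 2 * (1 / 1000000 : ℝ))) *
          (m : ℝ) ^ (-(1 / 2 + 2 * (1 / 1000000 : ℝ))) := by
      intro m _
      exact mul_rpow (Nat.cast_nonneg _) (Nat.cast_nonneg _)
    rw [sum_congr rfl h2, ← mul_sum]
    have h3 : (p : ℝ) ^ (-(1 / 2 + 2 * (1 / 1000000 : ℝ))) ≤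
        (x : ℝ) ^ (1 / 12000 : ℝ) * (1 / ((Lam x p : ℕ) : ℝ)) := by
      calc (p : ℝ) ^ (-(1 / 2 + 2 * (1 / 1000000 : ℝ))) ≤ (p : ℝ) ^ (-(1 / 2 : ℝ)) :=
            rpow_le_rpow_of_exponent_le hp1 (by norm_num)
        _ = 1 / (p : ℝ) ^ (1 / 2 : ℝ) := by rw [rpow_neg hp0.le, one_div ((p : ℝ) ^ (1 / 2 : ℝ))]
        _ ≤ (x : ℝ) ^ (1 / 12000 : ℝ) * (1 / ((Lam x p : ℕ) : ℝ)) := by
            rw [mul_one_div, div_le_div_iff₀ (by positivity) hL0]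
            linarith
    calc _ ≤ ((x : ℝ) ^ (1 / 12000 : ℝ) * (1 / ((Lam x p : ℕ) : ℝ))) * R :=
          mul_le_mul h3 (hU x 1) (sum_nonneg fun _ _ => by positivity) (by positivity)
      _ = _ := by ring
  refine (sum_le_sum h1).trans ?_
  rw [← mul_sum]
  have h4 := hsum x hx1 (PS x) (by
    intro p hp
    obtain ⟨⟨a1, a2⟩, a3, a4, a5⟩ := mem_PS.1 hp
    exact ⟨a3, a2, a4⟩)
  calc _ ≤ (x : ℝ) ^ (1 / 12000 : ℝ) * R * (C' * (x : ℝ) ^ (1 / 1000000 : ℝ)) :=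
        mul_le_mul_of_nonneg_left h4 (by positivity)
    _ = _ := by ring

theorem caseB1 : ∃ C : ℝ, 0 < C ∧ ∃ X0 : ℕ, ∀ x : ℕ, X0 ≤ x → ∀ A : Finset ℕ,
    (∀ n ∈ A, ∃ p m q : ℕ, n = p * m * q ∧ n ≤ x ∧ p ∈ PS x ∧ m ∈ UU x 1 ∧
      q ∈ PP x 1 ∧ zz x ≤ q ∧ Lam x q ∣ p * m - 1) →
    (A.card : ℝ) ≤ C * (x : ℝ) ^ (1 / 2 - 1 / 20000 : ℝ) := by
  classical
  obtain ⟨C, hC, D0, hfib⟩ := prime_fiber_w (1 / 1000000) (by norm_num) (by norm_num)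
  obtain ⟨C', hC', hsum⟩ := sumB
  obtain ⟨X0, hX01, hX0⟩ := zz_large D0
  refine ⟨C * C', by positivity, X0, ?_⟩
  intro x hx A hA
  have hx1 : 1 ≤ x := hX01.trans hx
  have hx1' : (1 : ℝ) ≤ x := by exact_mod_cast hx1
  have hx0 : (0 : ℝ) < x := by linarith
  have hz1 := zz_one hx1
  have hz0 : 0 < zz x := by linarith
  have hDz := hX0 x hx
  let F : ℕ × ℕ → Finset ℕ := fun k =>
    (Icc 1 x).filter (fun q => q ∈ PP x 1 ∧ D0 ≤ q ∧ k.1 * k.2 * q ≤ x ∧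
      Lam x q ∣ k.1 * k.2 - 1 ∧ zz x ≤ q ∧ 2 ≤ k.1 * k.2)
  have h1 := count_img (PS x ×ˢ UU x 1) A F (fun k q => k.1 * k.2 * q)
    (fun k => ((k.1 : ℝ) * k.2) ^ (-(1 / 2 + 2 * (1 / 1000000 : ℝ))))
    (C * ((x : ℝ) ^ (1 / 1000000 : ℝ) * (x : ℝ) ^ (1 / 2 + 2 * (1 / 1000000 : ℝ)) *
      (zz x) ^ (-(1 / 10 - (1 / 1000000 : ℝ))))) (by
      intro n hn
      obtain ⟨p, m, q, h1, h2, h3, h6, h7, h8, h9⟩ := hA n hn
      have hm := (mem_UU.1 h6).1.1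
      have hp := (mem_PS.1 h3).2.1.two_le
      refine ⟨⟨p, m⟩, ?_, ?_⟩
      · rw [mem_product]
        exact ⟨h3, h6⟩
      · refine ⟨q, mem_filter.2 ⟨mem_Icc.2 (mem_PP.1 h7).1, h7, ?_, ?_, h9, h8, ?_⟩, h1⟩
        · exact_mod_cast hDz.trans h8
        · rw [← h1]; exact h2
        · show 2 ≤ p * m
          nlinarith) (by
      rintro ⟨p, m⟩ hk
      rcases (F ⟨p, m⟩).eq_empty_or_nonempty with h0 | ⟨q0, hq0⟩
      · rw [h0]; simp; positivity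
      · have hD2 : 2 ≤ p * m := (mem_filter.1 hq0).2.2.2.2.2.2
        have h2 := hfib x (p * m) 1 (zz x) hD2 hz1 (F ⟨p, m⟩) (by
          intro q hq
          obtain ⟨_, a1, a2, a3, a4, a5, _⟩ := mem_filter.1 hq
          exact ⟨a1, a2, a3, a4, a5⟩)
        push_cast at h2
        exact h2)
  have h2 := hsum x hx1
  rw [zz_rpow] at h1
  calc (A.card : ℝ) ≤ _ := h1
    _ ≤ _ * (C' * ((x : ℝ) ^ (1 / 12000 : ℝ) * (x : ℝ) ^ (1 / 1000000 : ℝ))) :=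
        mul_le_mul_of_nonneg_left h2 (by positivity)
    _ = C * C' * ((x : ℝ) ^ (1 / 1000000 : ℝ) * (x : ℝ) ^ (1 / 2 + 2 * (1 / 1000000 : ℝ)) *
      (x : ℝ) ^ (-(1 / 10 - (1 / 1000000 : ℝ)) / 600) * (x : ℝ) ^ (1 / 12000 : ℝ) *
      (x : ℝ) ^ (1 / 1000000 : ℝ)) := by ring
    _ = C * C' * (x : ℝ) ^ ((1 / 1000000 : ℝ) + (1 / 2 + 2 * (1 / 1000000 : ℝ)) +
      (-(1 / 10 - (1 / 1000000 : ℝ)) / 600) + 1 / 12000 + 1 / 1000000) := by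
        rw [← rpow_add hx0, ← rpow_add hx0, ← rpow_add hx0, ← rpow_add hx0]
    _ ≤ _ := mul_le_mul_of_nonneg_left
        (rpow_le_rpow_of_exponent_le hx1' (by norm_num)) (by positivity)

theorem caseB2 : ∃ C : ℝ, 0 < C ∧ ∀ x : ℕ, 1 ≤ x → ∀ A : Finset ℕ,
    (∀ n ∈ A, ∃ p m E : ℕ, n = p * m * E ∧ n ≤ x ∧ p ∈ PS x ∧ m ∈ UU x 1 ∧
      zz x ≤ Lam x (p * m) ∧ 1 ≤ E ∧ Odd E ∧ zz x ≤ E ∧ (E : ℝ) ≤ (zz x) ^ 2 ∧
      Lam x (p * m) ∣ p * m * E - 1 ∧ Nz x E ∧ (Sy x E 1 ∨ Sy x E 1)) →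
    (A.card : ℝ) ≤ C * (x : ℝ) ^ (1 / 2 - 1 / 20000 : ℝ) := by
  classical
  obtain ⟨C, hC, hfib⟩ := ap_fiber_w (1 / 1000000) (by norm_num) (by norm_num)
  obtain ⟨C', hC', hsum⟩ := sumB
  refine ⟨C * C', by positivity, ?_⟩
  intro x hx1 A hA
  have hx1' : (1 : ℝ) ≤ x := by exact_mod_cast hx1
  have hx0 : (0 : ℝ) < x := by linarith
  have hz1 := zz_one hx1
  have hz0 : 0 < zz x := by linarith
  let F : ℕ × ℕ → Finset ℕ := fun k =>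
    (Icc 1 x).filter (fun E => zz x ≤ Lam x (k.1 * k.2) ∧ 1 ≤ E ∧ Odd E ∧
      k.1 * k.2 * E ≤ x ∧ zz x ≤ E ∧ (E : ℝ) ≤ (zz x) ^ 2 ∧
      Lam x (k.1 * k.2) ∣ k.1 * k.2 * E - 1 ∧ Nz x E ∧ (Sy x E 1 ∨ Sy x E 1) ∧
      2 ≤ k.1 * k.2)
  have h1 := count_img (PS x ×ˢ UU x 1) A F (fun k q => k.1 * k.2 * q)
    (fun k => ((k.1 : ℝ) * k.2) ^ (-(1 / 2 + 2 * (1 / 1000000 : ℝ))))
    (C * ((x : ℝ) ^ (1 / 1000000 : ℝ) * (x : ℝ) ^ (1 / 2 + 2 * (1 / 1000000 : ℝ)) *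
      (zz x) ^ (-(1 / 5 : ℝ)))) (by
      intro n hn
      obtain ⟨p, m, E, h1, h2, h3, h6, h7, h8, h9, h10, h11, h12, h13, h14⟩ := hA n hn
      have hm := (mem_UU.1 h6).1.1
      have hp := (mem_PS.1 h3).2.1.two_le
      have hD2 : 2 ≤ p * m := by nlinarith
      have hDE : p * m * E ≤ x := by rw [← h1]; exact h2
      refine ⟨⟨p, m⟩, ?_, ?_⟩
      · rw [mem_product]
        exact ⟨h3, h6⟩
      · exact ⟨E, mem_filter.2 ⟨mem_Icc.2 ⟨h8, by nlinarith⟩, h7, h8, h9, hDE, h10, h11, h12, h13,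
          h14, hD2⟩, h1⟩) (by
      rintro ⟨p, m⟩ hk
      rcases (F ⟨p, m⟩).eq_empty_or_nonempty with h0 | ⟨q0, hq0⟩
      · rw [h0]; simp; positivity
      · have hD2 : 2 ≤ p * m := (mem_filter.1 hq0).2.2.2.2.2.2.2.2.2.2
        have h2 := hfib x (p * m) 1 (zz x) hD2 hz1 (F ⟨p, m⟩) (by
          intro q hq
          obtain ⟨_, a1, a2, a3, a4, a5, a6, a7, a8, a9, _⟩ := mem_filter.1 hq
          exact ⟨a1, a2, a3, a4, a5, a6, a7, a8, a9⟩)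
        push_cast at h2
        exact h2)
  have h2 := hsum x hx1
  rw [zz_rpow] at h1
  calc (A.card : ℝ) ≤ _ := h1
    _ ≤ _ * (C' * ((x : ℝ) ^ (1 / 12000 : ℝ) * (x : ℝ) ^ (1 / 1000000 : ℝ))) :=
        mul_le_mul_of_nonneg_left h2 (by positivity)
    _ = C * C' * ((x : ℝ) ^ (1 / 1000000 : ℝ) * (x : ℝ) ^ (1 / 2 + 2 * (1 / 1000000 : ℝ)) *
      (x : ℝ) ^ (-(1 / 5 : ℝ) / 600) * (x : ℝ) ^ (1 / 12000 : ℝ) *
      (x : ℝ) ^ (1 / 1000000 : ℝ)) := by ring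
    _ = C * C' * (x : ℝ) ^ ((1 / 1000000 : ℝ) + (1 / 2 + 2 * (1 / 1000000 : ℝ)) +
      (-(1 / 5 : ℝ) / 600) + 1 / 12000 + 1 / 1000000) := by
        rw [← rpow_add hx0, ← rpow_add hx0, ← rpow_add hx0, ← rpow_add hx0]
    _ ≤ _ := mul_le_mul_of_nonneg_left
        (rpow_le_rpow_of_exponent_le hx1' (by norm_num)) (by positivity)

end Pool.Agent.K1H88.WS
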