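import Pool.Agent.K1H88.WS.Fibers

set_option autoImplicit false

/-! Weighted fibers and the smooth case. -/

namespace Pool.Agent.K1H88.WS

open Finset Real Pool.Agent.W57.SW

/-- a prime last factor, weighted form -/
theorem prime_fiber_w (e : ℝ) (he : 0 < e) (he1 : e ≤ 1 / 1000) : ∃ C : ℝ, 0 < C ∧ ∃ D0 : ℕ,
    ∀ (x D m0 : ℕ) (z : ℝ), 2 ≤ D → 1 ≤ z → ∀ F : Finset ℕ,
    (∀ q ∈ F, q ∈ PP x m0 ∧ D0 ≤ q ∧ D * q ≤ x ∧ Lam x q ∣ D - 1 ∧ z ≤ q) →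
    (F.card : ℝ) ≤ C * ((x : ℝ) ^ e * (x : ℝ) ^ (1 / 2 + 2 * e) * z ^ (-(1 / 10 - e))) *
      (D : ℝ) ^ (-(1 / 2 + 2 * e)) := by
  obtain ⟨C, hC, D0, h⟩ := prime_fiber e he he1
  refine ⟨C, hC, D0, ?_⟩
  intro x D m0 z hD2 hz F hF
  have hD0 : (0 : ℝ) < D := by exact_mod_cast (by omega : 0 < D)
  rcases F.eq_empty_or_nonempty with h0 | ⟨q0, hq0⟩
  · rw [h0]; simp; positivity
  obtain ⟨a1, a2, a3, a4, a5⟩ := hF q0 hq0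
  have hq1 : 1 ≤ q0 := (mem_PP.1 a1).1.1
  have hDx : D ≤ x := by nlinarith
  have hx0 : (0 : ℝ) < x := by exact_mod_cast (by omega : 0 < x)
  have h1 := h x D m0 hD2 hDx F fun q hq => by
    obtain ⟨b1, b2, b3, b4, b5⟩ := hF q hq
    exact ⟨b1, b2, b3, b4⟩
  have hxD : z ≤ (x : ℝ) / D := by
    rw [le_div_iff₀ hD0]
    have h2 : ((D * q0 : ℕ) : ℝ) ≤ x := by exact_mod_cast a3
    push_cast at h2
    nlinarith
  have hz0 : 0 < z := by linarith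
  have hxD0 : 0 < (x : ℝ) / D := by linarith
  refine h1.trans ?_
  have h2 : ((x : ℝ) / D) ^ (2 / 5 + 3 * e) ≤
      ((x : ℝ) ^ (1 / 2 + 2 * e) * (D : ℝ) ^ (-(1 / 2 + 2 * e))) * z ^ (-(1 / 10 - e)) := by
    have h3 : (x : ℝ) ^ (1 / 2 + 2 * e) * (D : ℝ) ^ (-(1 / 2 + 2 * e)) =
        ((x : ℝ) / D) ^ (1 / 2 + 2 * e) := by
      rw [div_rpow hx0.le hD0.le, rpow_neg hD0.le]
      exact (div_eq_mul_inv _ _).symm
    rw [h3]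
    have h4 : ((x : ℝ) / D) ^ (-(1 / 10 - e)) ≤ z ^ (-(1 / 10 - e)) :=
      rpow_le_rpow_of_nonpos hz0 hxD (by linarith)
    calc ((x : ℝ) / D) ^ (2 / 5 + 3 * e) =
        ((x : ℝ) / D) ^ (1 / 2 + 2 * e) * ((x : ℝ) / D) ^ (-(1 / 10 - e)) := by
          rw [← rpow_add hxD0]; congr 1; ring
      _ ≤ _ := mul_le_mul_of_nonneg_left h4 (by positivity)
  calc C * (x : ℝ) ^ e * ((x : ℝ) / D) ^ (2 / 5 + 3 * e) ≤ C * (x : ℝ) ^ e *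
      (((x : ℝ) ^ (1 / 2 + 2 * e) * (D : ℝ) ^ (-(1 / 2 + 2 * e))) * z ^ (-(1 / 10 - e))) :=
        mul_le_mul_of_nonneg_left h2 (by positivity)
    _ = _ := by ring

/-- a last factor of medium size, weighted form -/
theorem ap_fiber_w (e : ℝ) (he : 0 < e) (he1 : e ≤ 1 / 4) : ∃ C : ℝ, 0 < C ∧
    ∀ (x D m0 : ℕ) (z : ℝ), 2 ≤ D → 1 ≤ z → ∀ F : Finset ℕ,
    (∀ E ∈ F, z ≤ Lam x D ∧ 1 ≤ E ∧ Odd E ∧ D * E ≤ x ∧ z ≤ E ∧ (E : ℝ) ≤ z ^ 2 ∧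
      Lam x D ∣ D * E - 1 ∧ Nz x E ∧ (Sy x E m0 ∨ Sy x E 1)) →
    (F.card : ℝ) ≤ C * ((x : ℝ) ^ e * (x : ℝ) ^ (1 / 2 + 2 * e) * z ^ (-(1 / 5 : ℝ))) *
      (D : ℝ) ^ (-(1 / 2 + 2 * e)) := by
  obtain ⟨C, hC, h⟩ := ap_fiber e he he1
  refine ⟨C, hC, ?_⟩
  intro x D m0 z hD2 hz F hF
  have hD0 : (0 : ℝ) < D := by exact_mod_cast (by omega : 0 < D)
  rcases F.eq_empty_or_nonempty with h0 | ⟨E0, hE0⟩
  · rw [h0]; simp; positivity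
  obtain ⟨a0, a1, a2, a3, _⟩ := hF E0 hE0
  have hDx : D ≤ x := by nlinarith
  have hx0 : (0 : ℝ) < x := by exact_mod_cast (by omega : 0 < x)
  have h1 := h x D m0 z hD2 hz a0 F fun E hE => (hF E hE).2
  have hz0 : 0 < z := by linarith
  have hxD1 : 1 ≤ (x : ℝ) / D := by
    rw [one_le_div hD0]; exact_mod_cast hDx
  refine h1.trans ?_
  have h3 : (x : ℝ) ^ (1 / 2 + 2 * e) * (D : ℝ) ^ (-(1 / 2 + 2 * e)) =
      ((x : ℝ) / D) ^ (1 / 2 + 2 * e) := by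
    rw [div_rpow hx0.le hD0.le, rpow_neg hD0.le]
    exact (div_eq_mul_inv _ _).symm
  have h4 : ((x : ℝ) / D) ^ (1 / 2 : ℝ) ≤ ((x : ℝ) / D) ^ (1 / 2 + 2 * e) :=
    rpow_le_rpow_of_exponent_le hxD1 (by linarith)
  calc C * (x : ℝ) ^ e * (((x : ℝ) / D) ^ (1 / 2 : ℝ) * z ^ (-(1 / 5 : ℝ))) ≤
      C * (x : ℝ) ^ e * (((x : ℝ) / D) ^ (1 / 2 + 2 * e) * z ^ (-(1 / 5 : ℝ))) := by
        apply mul_le_mul_of_nonneg_left _ (by positivity)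
        exact mul_le_mul_of_nonneg_right h4 (by positivity)
    _ = _ := by rw [← h3]; ring

/-- the smooth case -/
theorem caseS : ∃ C : ℝ, 0 < C ∧ ∀ x : ℕ, 1 ≤ x → ∀ A : Finset ℕ,
    (∀ n ∈ A, ∃ u m p1 N : ℕ, n = u * m ∧ 1 ≤ u ∧ (u : ℝ) ≤ ((x : ℝ) ^ (1 / 600 : ℝ)) ^ 7 ∧
      p1 ∣ u ∧ 1 ≤ N ∧ (N : ℝ) ≤ (x : ℝ) ^ (1 / 600 : ℝ) ∧ 1 ≤ m ∧ m ≤ x ∧ Squarefree m ∧
      m.primeFactors ⊆ PL x p1 N) →
    (A.card : ℝ) ≤ C * (x : ℝ) ^ (1 / 2 - 1 / 20000 : ℝ) := by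
  classical
  obtain ⟨C, hC, hPL⟩ := PL_card
  obtain ⟨C', hC', hd⟩ := card_divisors_le (1 / 1000000) (by norm_num)
  refine ⟨C' * C, by positivity, ?_⟩
  intro x hx A hA
  have hx1 : (1 : ℝ) ≤ x := by exact_mod_cast hx
  have hx0 : (0 : ℝ) < x := by linarith
  obtain ⟨z, hz⟩ : ∃ z : ℝ, z = (x : ℝ) ^ (1 / 600 : ℝ) := ⟨_, rfl⟩
  have hz1 : 1 ≤ z := by rw [hz]; exact one_le_rpow hx1 (by norm_num)
  have hz0 : 0 < z := by linarith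
  rw [← hz] at hA
  have hz7 : z ^ 7 ≤ x := by
    rw [hz, ← rpow_natCast, ← rpow_mul hx0.le]
    calc (x : ℝ) ^ ((1 / 600 : ℝ) * ((7 : ℕ) : ℝ)) ≤ (x : ℝ) ^ (1 : ℝ) :=
          rpow_le_rpow_of_exponent_le hx1 (by norm_num)
      _ = x := rpow_one _
  have hzx : z ≤ x := by
    rw [hz]
    calc (x : ℝ) ^ (1 / 600 : ℝ) ≤ (x : ℝ) ^ (1 : ℝ) :=
          rpow_le_rpow_of_exponent_le hx1 (by norm_num)
      _ = x := rpow_one _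
  let K : Finset ((_ : ℕ) × (_ : ℕ) × ℕ) := (Icc 1 ⌊z⌋₊).sigma
    (fun _ => (Icc 1 ⌊z ^ 7⌋₊).sigma (fun u => u.divisors))
  let F : ((_ : ℕ) × (_ : ℕ) × ℕ) → Finset ℕ := fun k =>
    (Icc 1 x).filter (fun m => Squarefree m ∧ m.primeFactors ⊆ PL x k.2.2 k.1)
  have h1 := count_le K A (fun k => (F k).image (fun m => k.2.1 * m)) (fun _ => 1)
    (C * (x : ℝ) ^ (243 / 500 : ℝ)) (by
      intro n hn
      obtain ⟨u, m, p1, N, h1, h2, h3, h4, h5, h6, h7, h8, h9, h10⟩ := hA n hn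
      refine ⟨⟨N, u, p1⟩, ?_, ?_⟩
      · rw [mem_sigma, mem_Icc, mem_sigma, mem_Icc, Nat.mem_divisors]
        exact ⟨⟨h5, Nat.le_floor h6⟩, ⟨h2, Nat.le_floor h3⟩, h4, Nat.pos_iff_ne_zero.1 h2⟩
      · rw [mem_image]
        exact ⟨m, mem_filter.2 ⟨mem_Icc.2 ⟨h7, h8⟩, h9, h10⟩, h1.symm⟩) (by
      rintro ⟨N, u, p1⟩ hk
      rw [mem_sigma, mem_Icc] at hk
      rw [mul_one]
      have h2 : N ≤ x := by
        have h3 : (N : ℝ) ≤ z := (Nat.le_floor_iff hz0.le).1 hk.1.2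
        exact_mod_cast h3.trans hzx
      refine le_trans (by exact_mod_cast card_image_le) (hPL x p1 N hk.1.1 h2 _ ?_)
      intro m hm
      rw [mem_filter, mem_Icc] at hm
      exact ⟨hm.2.1, hm.2.2, hm.1.2⟩)
  have h2 : ∑ _k ∈ K, (1 : ℝ) ≤ z * (z ^ 7 * (C' * (x : ℝ) ^ (1 / 1000000 : ℝ))) := by
    rw [Finset.sum_sigma]
    have h3 : ∀ N ∈ Icc 1 ⌊z⌋₊, ∑ _s ∈ (Icc 1 ⌊z ^ 7⌋₊).sigma (fun u => u.divisors), (1 : ℝ) ≤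
        z ^ 7 * (C' * (x : ℝ) ^ (1 / 1000000 : ℝ)) := by
      intro N _
      rw [Finset.sum_sigma]
      have h4 : ∀ u ∈ Icc 1 ⌊z ^ 7⌋₊, ∑ _s ∈ u.divisors, (1 : ℝ) ≤
          C' * (x : ℝ) ^ (1 / 1000000 : ℝ) := by
        intro u hu
        rw [mem_Icc] at hu
        rw [sum_const, nsmul_eq_mul, mul_one]
        apply hd x u hu.1
        have h5 : (u : ℝ) ≤ z ^ 7 := (Nat.le_floor_iff (by positivity)).1 hu.2
        exact_mod_cast h5.trans hz7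
      refine (sum_le_sum h4).trans ?_
      rw [sum_const, nsmul_eq_mul, Nat.card_Icc, Nat.add_sub_cancel]
      exact mul_le_mul_of_nonneg_right (Nat.floor_le (by positivity)) (by positivity)
    refine (sum_le_sum h3).trans ?_
    rw [sum_const, nsmul_eq_mul, Nat.card_Icc, Nat.add_sub_cancel]
    exact mul_le_mul_of_nonneg_right (Nat.floor_le hz0.le) (by positivity)
  have h3 : z * z ^ 7 = (x : ℝ) ^ (8 / 600 : ℝ) := by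
    rw [hz, ← pow_succ', ← rpow_natCast, ← rpow_mul hx0.le]
    norm_num
  calc (A.card : ℝ) ≤ _ := h1
    _ ≤ C * (x : ℝ) ^ (243 / 500 : ℝ) * (z * (z ^ 7 * (C' * (x : ℝ) ^ (1 / 1000000 : ℝ)))) :=
        mul_le_mul_of_nonneg_left h2 (by positivity)
    _ = C' * C * ((x : ℝ) ^ (243 / 500 : ℝ) * (z * z ^ 7) * (x : ℝ) ^ (1 / 1000000 : ℝ)) := by
        ring
    _ = C' * C * (x : ℝ) ^ (243 / 500 + 8 / 600 + 1 / 1000000 : ℝ) := by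
        rw [h3, ← rpow_add hx0, ← rpow_add hx0]
    _ ≤ _ := mul_le_mul_of_nonneg_left
        (rpow_le_rpow_of_exponent_le hx1 (by norm_num)) (by positivity)

end Pool.Agent.K1H88.WS
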