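import Pool.Agent.K1H88.WS.Jac2

set_option autoImplicit false

/-! The large sieve inequality for the numbers of an arithmetic progression with prescribed symbols. -/

namespace Pool.Agent.K1H88.WS

open Finset

/-- the general inequality: a family of odd numbers indexed by `k < K` -/
lemma ls_general (S : Finset ℕ) (T : Finset ℕ) (K : ℕ) (N : ℕ → ℕ) (e : ℕ → ℤ) (W : ℕ → ℕ → ℝ)
    (hT : ∀ k ∈ T, k < K ∧ Odd (N k) ∧ ∀ s ∈ S, jacobiSym (s : ℤ) (N k) = e s)
    (he : ∀ s ∈ S, |e s| = 1)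
    (hW : ∀ s ∈ S, ∀ s' ∈ S, |((∑ k ∈ range K, jo (s * s') (N k) : ℤ) : ℝ)| ≤ W s s') :
    (T.card : ℝ) * (S.card : ℝ) ^ 2 ≤ ∑ s ∈ S, ∑ s' ∈ S, W s s' := by
  have h1 : (T.card : ℝ) * (S.card : ℝ) ^ 2 ≤
      ∑ k ∈ range K, (∑ s ∈ S, (e s : ℝ) * (jo s (N k) : ℝ)) ^ 2 := by
    have h2 : ∀ k ∈ T, (∑ s ∈ S, (e s : ℝ) * (jo s (N k) : ℝ)) ^ 2 = (S.card : ℝ) ^ 2 := by
      intro k hk
      obtain ⟨_, ho, h3⟩ := hT k hk
      congr 1
      have h4 : ∀ s ∈ S, (e s : ℝ) * (jo s (N k) : ℝ) = 1 := by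
        intro s hs
        rw [jo, if_pos ho, h3 s hs]
        have h5 := he s hs
        have h6 : e s * e s = 1 := by
          rw [← abs_mul_abs_self, h5]; norm_num
        exact_mod_cast h6
      rw [sum_congr rfl h4]
      simp
    have h3 : ∑ k ∈ T, (∑ s ∈ S, (e s : ℝ) * (jo s (N k) : ℝ)) ^ 2 =
        (T.card : ℝ) * (S.card : ℝ) ^ 2 := by
      rw [sum_congr rfl h2, sum_const, nsmul_eq_mul]
    rw [← h3]
    exact sum_le_sum_of_subset_of_nonneg (fun k hk => mem_range.2 (hT k hk).1)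
      fun _ _ _ => sq_nonneg _
  refine h1.trans ?_
  have h2 : ∑ k ∈ range K, (∑ s ∈ S, (e s : ℝ) * (jo s (N k) : ℝ)) ^ 2 =
      ∑ s ∈ S, ∑ s' ∈ S, (e s : ℝ) * (e s' : ℝ) *
        ((∑ k ∈ range K, jo (s * s') (N k) : ℤ) : ℝ) := by
    have h3 : ∀ k ∈ range K, (∑ s ∈ S, (e s : ℝ) * (jo s (N k) : ℝ)) ^ 2 =
        ∑ s ∈ S, ∑ s' ∈ S, (e s : ℝ) * (e s' : ℝ) * (jo (s * s') (N k) : ℝ) := by
      intro k _
      rw [sq, sum_mul_sum]
      refine sum_congr rfl fun s _ => sum_congr rfl fun s' _ => ?_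
      rw [jo_mul]
      push_cast
      ring
    rw [sum_congr rfl h3, sum_comm]
    refine sum_congr rfl fun s _ => ?_
    rw [sum_comm]
    refine sum_congr rfl fun s' _ => ?_
    push_cast
    rw [mul_sum]
  rw [h2]
  refine sum_le_sum fun s hs => sum_le_sum fun s' hs' => ?_
  refine (le_abs_self _).trans ?_
  rw [abs_mul, abs_mul]
  have h4 : |(e s : ℝ)| = 1 := by exact_mod_cast he s hs
  have h5 : |(e s' : ℝ)| = 1 := by exact_mod_cast he s' hs'
  rw [h4, h5, one_mul, one_mul]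
  exact hW s hs s' hs'

/-- progressions -/
lemma ls_ap (S T : Finset ℕ) (X L M : ℕ) (hL : 0 < L) (r0 : ℕ) (e : ℕ → ℤ)
    (hS : ∀ s ∈ S, s ≤ M ∧ Odd s ∧ Squarefree s ∧ Nat.Coprime s L)
    (hT : ∀ n ∈ T, n ≤ X ∧ Odd n ∧ n % L = r0 ∧ ∀ s ∈ S, jacobiSym (s : ℤ) n = e s)
    (he : ∀ s ∈ S, |e s| = 1) :
    (T.card : ℝ) * (S.card : ℝ) ^ 2 ≤
      (S.card : ℝ) * ((X : ℝ) / L + 1) + (S.card : ℝ) ^ 2 * (4 * (M : ℝ) ^ 2) := by
  classical
  have hinj : Set.InjOn (fun n => n / L) (T : Set ℕ) := by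
    intro n hn n' hn' h
    have h1 := (hT n hn).2.2.1
    have h2 := (hT n' hn').2.2.1
    simp only at h
    rw [← Nat.div_add_mod n L, ← Nat.div_add_mod n' L, h, h1, h2]
  have hcard : (T.image (fun n => n / L)).card = T.card := card_image_of_injOn hinj
  have hmain := ls_general S (T.image (fun n => n / L)) (X / L + 1) (fun k => r0 + L * k) e
    (fun s s' => if s = s' then (X : ℝ) / L + 1 else 4 * (M : ℝ) ^ 2) ?_ he ?_
  · rw [hcard] at hmain
    refine hmain.trans ?_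
    have h1 : ∀ s ∈ S, ∑ s' ∈ S, (if s = s' then (X : ℝ) / L + 1 else 4 * (M : ℝ) ^ 2) ≤
        ((X : ℝ) / L + 1) + (S.card : ℝ) * (4 * (M : ℝ) ^ 2) := by
      intro s hs
      have h2 : ∀ s' ∈ S, (if s = s' then (X : ℝ) / L + 1 else 4 * (M : ℝ) ^ 2) ≤
          (if s = s' then (X : ℝ) / L + 1 else 0) + 4 * (M : ℝ) ^ 2 := by
        intro s' _
        split_ifs
        · have : 0 ≤ 4 * (M : ℝ) ^ 2 := by positivity
          linarith
        · linarith
      refine (sum_le_sum h2).trans ?_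
      rw [sum_add_distrib, sum_ite_eq, if_pos hs, sum_const, nsmul_eq_mul]
    refine (sum_le_sum h1).trans ?_
    rw [sum_const, nsmul_eq_mul]
    apply le_of_eq
    ring
  · intro k hk
    rw [mem_image] at hk
    obtain ⟨n, hn, rfl⟩ := hk
    obtain ⟨h1, h2, h3, h4⟩ := hT n hn
    have h5 : r0 + L * (n / L) = n := by rw [← h3]; exact Nat.mod_add_div n L
    refine ⟨?_, ?_, ?_⟩
    · exact Nat.lt_succ_of_le (Nat.div_le_div_right h1)
    · simp only [h5]; exact h2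
    · simp only [h5]; exact h4
  · intro s hs s' hs'
    obtain ⟨h1, h2, h3, h4⟩ := hS s hs
    obtain ⟨h1', h2', h3', h4'⟩ := hS s' hs'
    split_ifs with h
    · push_cast
      refine (abs_sum_le_sum_abs _ _).trans ?_
      have h5 : ∀ k ∈ range (X / L + 1), |(jo (s * s') (r0 + L * k) : ℝ)| ≤ 1 := by
        intro k _
        exact_mod_cast jo_abs_le _ _
      refine (sum_le_sum h5).trans ?_
      rw [sum_const, card_range, nsmul_eq_mul, mul_one]
      push_cast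
      have : ((X / L : ℕ) : ℝ) ≤ (X : ℝ) / L := Nat.cast_div_le
      linarith
    · refine (ap_sum h3 h3' h h2 h2' h4 h4' r0 _).trans ?_
      have h5 : (s : ℝ) ≤ M := by exact_mod_cast h1
      have h6 : (s' : ℝ) ≤ M := by exact_mod_cast h1'
      have h7 : (s : ℝ) * s' ≤ M * M := mul_le_mul h5 h6 (Nat.cast_nonneg _) (Nat.cast_nonneg _)
      nlinarith

end Pool.Agent.K1H88.WS
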