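import Pool.Agent.K1H88.WS.Smooth2
import Pool.Agent.K1H88.WS.LsAp

set_option autoImplicit false

/-! Small odd primes, symbols with respect to them, and counts in progressions. -/

namespace Pool.Agent.K1H88.WS

open Finset Real Pool.Agent.W57.SW

/-- the odd primes up to `(log x)^2` -/
noncomputable def Vs (x : ℕ) : Finset ℕ := opr ⌊(log x) ^ (2 : ℝ)⌋₊

lemma mem_Vs {x ℓ : ℕ} : ℓ ∈ Vs x ↔ ℓ.Prime ∧ (ℓ : ℝ) ≤ (log x) ^ (2 : ℝ) ∧ ℓ ≠ 2 := by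
  rw [Vs, mem_opr, Nat.le_floor_iff (rpow_nonneg (log_natCast_nonneg x) _)]

/-- `m` and `m0` have the same symbols -/
def Sy (x m m0 : ℕ) : Prop := ∀ ℓ ∈ Vs x, jacobiSym (ℓ : ℤ) m = jacobiSym (ℓ : ℤ) m0

/-- no small odd prime divides `m` -/
def Nz (x m : ℕ) : Prop := ∀ ℓ ∈ Vs x, ¬ ℓ ∣ m

lemma Sy.symm {x m m0 : ℕ} (h : Sy x m m0) : Sy x m0 m := fun ℓ hℓ => (h ℓ hℓ).symm

lemma Sy.trans {x m m0 m1 : ℕ} (h : Sy x m m0) (h' : Sy x m0 m1) : Sy x m m1 :=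
  fun ℓ hℓ => (h ℓ hℓ).trans (h' ℓ hℓ)

lemma Sy.refl (x m : ℕ) : Sy x m m := fun _ _ => rfl

lemma sy_smooth {x m m0 : ℕ} (h : Sy x m m0) : ∀ s : ℕ, 1 ≤ s →
    (∀ p : ℕ, p.Prime → p ∣ s → p ∈ Vs x) → jacobiSym (s : ℤ) m = jacobiSym (s : ℤ) m0 := by
  intro s
  induction s using Nat.strong_induction_on with
  | _ s ih =>
    intro hs hp
    rcases eq_or_lt_of_le hs with h1 | h1
    · rw [← h1]; simp
    · have hmp := Nat.minFac_prime (show s ≠ 1 by omega)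
      obtain ⟨r, hr⟩ := Nat.minFac_dvd s
      have hr0 : 1 ≤ r := by
        rcases Nat.eq_zero_or_pos r with h0 | h0
        · rw [h0, mul_zero] at hr; omega
        · exact h0
      have hlt : r < s := by
        rw [hr]; exact lt_mul_of_one_lt_left hr0 hmp.one_lt
      have h2 := ih r hlt hr0 fun p hpp hpr =>
        hp p hpp (hpr.trans ⟨s.minFac, by rw [mul_comm]; exact hr⟩)
      have h3 := h _ (hp _ hmp (Nat.minFac_dvd s))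
      have h4 : ((s : ℕ) : ℤ) = (s.minFac : ℤ) * (r : ℤ) := by exact_mod_cast hr
      rw [h4, jacobiSym.mul_left, jacobiSym.mul_left, h2, h3]

lemma nz_coprime {x m : ℕ} (h : Nz x m) {s : ℕ} (hp : ∀ p : ℕ, p.Prime → p ∣ s → p ∈ Vs x) :
    Nat.Coprime s m := by
  rw [Nat.coprime_iff_gcd_eq_one]
  by_contra hne
  obtain ⟨p, hpp, hpd⟩ := Nat.exists_prime_and_dvd hne
  exact h p (hp p hpp (hpd.trans (Nat.gcd_dvd_left _ _))) (hpd.trans (Nat.gcd_dvd_right _ _))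

lemma nz_abs {x m : ℕ} (h : Nz x m) {s : ℕ} (hp : ∀ p : ℕ, p.Prime → p ∣ s → p ∈ Vs x) :
    |jacobiSym (s : ℤ) m| = 1 := by
  have h1 := nz_coprime h hp
  rcases jacobiSym.eq_one_or_neg_one (a := (s : ℤ)) (b := m) (by
    rw [Int.gcd_natCast_natCast]; exact h1) with h2 | h2 <;> rw [h2] <;> norm_num

lemma card_ap {T : Finset ℕ} {X L r : ℕ} (hT : ∀ n ∈ T, n ≤ X ∧ n % L = r) :
    (T.card : ℝ) ≤ (X : ℝ) / L + 1 := by
  have hinj : Set.InjOn (fun n => n / L) (T : Set ℕ) := by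
    intro n hn n' hn' h
    have h1 := (hT n hn).2
    have h2 := (hT n' hn').2
    simp only at h
    rw [← Nat.div_add_mod n L, ← Nat.div_add_mod n' L, h, h1, h2]
  have h1 : T.card ≤ (range (X / L + 1)).card :=
    card_le_card_of_injOn (fun n => n / L) (fun n hn =>
      mem_coe.2 (mem_range.2 (Nat.lt_succ_of_le (Nat.div_le_div_right (hT n hn).1)))) hinj
  rw [card_range] at h1
  have h2 : ((X / L : ℕ) : ℝ) ≤ (X : ℝ) / L := Nat.cast_div_le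
  have h3 : (T.card : ℝ) ≤ ((X / L + 1 : ℕ) : ℝ) := by exact_mod_cast h1
  push_cast at h3
  linarith

lemma card_primeFactors_le {L : ℕ} (hL : 1 ≤ L) :
    (L.primeFactors.card : ℝ) ≤ (3 / 2) * log L := by
  have h1 : 2 ^ L.primeFactors.card ≤ L := by
    calc 2 ^ L.primeFactors.card ≤ ∏ p ∈ L.primeFactors, p :=
          Finset.pow_card_le_prod _ _ _ fun p hp => (Nat.prime_of_mem_primeFactors hp).two_le
      _ ≤ L := Nat.le_of_dvd (by omega) (Nat.prod_primeFactors_dvd L)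
  have h2 : ((2 : ℝ) ^ L.primeFactors.card) ≤ L := by exact_mod_cast h1
  have h3 := log_le_log (by positivity) h2
  rw [log_pow] at h3
  have h4 : (2 / 3 : ℝ) ≤ log 2 := by linarith [log_two_gt_d9]
  have h5 : (0 : ℝ) ≤ L.primeFactors.card := Nat.cast_nonneg _
  nlinarith

/-- numbers with prescribed symbols in a progression -/
theorem ap_count (δ : ℝ) (hδ : 0 < δ) (hδ1 : δ ≤ 1 / 4) : ∃ C : ℝ, 0 < C ∧
    ∀ x Q X L E0 m0 : ℕ, Q ≤ x → X ≤ Q → 1 ≤ L → L ≤ Q → ∀ T : Finset ℕ,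
    (∀ n ∈ T, 1 ≤ n ∧ n ≤ X ∧ Odd n ∧ n % L = E0 % L ∧ Sy x n m0 ∧ Nz x n) →
    (T.card : ℝ) ≤ C * (Q : ℝ) ^ δ * (((X : ℝ) / L) ^ (4 / 5 : ℝ) + 1) := by
  classical
  obtain ⟨D0, hD0⟩ := smooth_avoid 2 δ (8 / δ) (by norm_num) hδ (by positivity)
  have hev1 : ∀ᶠ q : ℝ in Filter.atTop, 2 * (D0 : ℝ) + 2 ≤ q ^ (2 / 5 * δ) :=
    (tendsto_rpow_atTop (by positivity)).eventually (Filter.eventually_ge_atTop _)
  have hev2 : ∀ᶠ q : ℝ in Filter.atTop, 5 * log 2 / δ ≤ log q :=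
    tendsto_log_atTop.eventually (Filter.eventually_ge_atTop _)
  obtain ⟨Y, hY⟩ := Filter.eventually_atTop.mp (hev1.and hev2)
  refine ⟨(⌈Y⌉₊ : ℝ) + 8, by positivity, ?_⟩
  intro x Q X L E0 m0 hQx hXQ hL1 hLQ T hT
  have hceil : (0 : ℝ) ≤ (⌈Y⌉₊ : ℝ) := Nat.cast_nonneg _
  rcases T.eq_empty_or_nonempty with h0 | ⟨n0, hn0⟩
  · rw [h0]; simp; positivity
  have hX1 : 1 ≤ X := (hT n0 hn0).1.trans (hT n0 hn0).2.1
  have hQ1 : 1 ≤ Q := hX1.trans hXQ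
  have hQ1' : (1 : ℝ) ≤ Q := by exact_mod_cast hQ1
  have hQpos : (0 : ℝ) < Q := by linarith
  have hL0 : (0 : ℝ) < L := by exact_mod_cast hL1
  have hX0 : (0 : ℝ) < X := by exact_mod_cast hX1
  have hQd : (1 : ℝ) ≤ (Q : ℝ) ^ δ := one_le_rpow hQ1' hδ.le
  obtain ⟨Z, hZ⟩ : ∃ Z : ℝ, Z = (X : ℝ) / L := ⟨_, rfl⟩
  have hZ0 : 0 < Z := by rw [hZ]; positivity
  have hZ45 : 0 ≤ Z ^ (4 / 5 : ℝ) := by positivity
  rw [← hZ]
  rcases lt_or_ge Q ⌈Y⌉₊ with hsm | hlg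
  · have h1 : T ⊆ Icc 1 X := fun n hn => mem_Icc.2 ⟨(hT n hn).1, (hT n hn).2.1⟩
    have h2 := card_le_card h1
    rw [Nat.card_Icc, Nat.add_sub_cancel] at h2
    have h3 : (T.card : ℝ) ≤ ⌈Y⌉₊ := by exact_mod_cast h2.trans (hXQ.trans hsm.le)
    calc (T.card : ℝ) ≤ ((⌈Y⌉₊ : ℝ) + 8) * 1 * (0 + 1) := by linarith
      _ ≤ _ := by gcongr
  have hcardZ : (T.card : ℝ) ≤ Z + 1 := by
    rw [hZ]
    exact card_ap (r := E0 % L) fun n hn => ⟨(hT n hn).2.1, (hT n hn).2.2.2.1⟩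
  rcases le_or_gt Z ((Q : ℝ) ^ δ) with hZs | hZl
  · calc (T.card : ℝ) ≤ 8 * (Q : ℝ) ^ δ * (0 + 1) := by linarith
      _ ≤ _ := by gcongr; linarith
  obtain ⟨c1, c2⟩ := hY Q ((Nat.le_ceil Y).trans (by exact_mod_cast hlg))
  -- the length
  have hZ1 : 1 ≤ Z := hQd.trans hZl.le
  have hZ25 : 2 * (D0 : ℝ) + 2 ≤ Z ^ (2 / 5 : ℝ) := by
    refine c1.trans ?_
    rw [mul_comm, rpow_mul hQpos.le]
    exact rpow_le_rpow (by positivity) hZl.le (by norm_num)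
  obtain ⟨M, hM⟩ : ∃ M : ℕ, M = ⌊Z ^ (2 / 5 : ℝ)⌋₊ := ⟨_, rfl⟩
  have hMle : (M : ℝ) ≤ Z ^ (2 / 5 : ℝ) := by rw [hM]; exact Nat.floor_le (by positivity)
  have hMlt : Z ^ (2 / 5 : ℝ) < M + 1 := by rw [hM]; exact Nat.lt_floor_add_one _
  have hD00 : (0 : ℝ) ≤ D0 := Nat.cast_nonneg _
  have hMhalf : Z ^ (2 / 5 : ℝ) / 2 ≤ M := by linarith
  have hM1 : (1 : ℝ) ≤ M := by linarith
  have hM0 : (0 : ℝ) < M := by linarith
  have hMD : D0 ≤ M := by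
    have : (D0 : ℝ) ≤ M := by linarith
    exact_mod_cast this
  have hZX : Z ≤ X := by
    rw [hZ]; exact div_le_self hX0.le (by exact_mod_cast hL1)
  have hZQ : Z ≤ Q := hZX.trans (by exact_mod_cast hXQ)
  have hMx : M ≤ x := by
    have h1 : (M : ℝ) ≤ Q := by
      refine hMle.trans (le_trans ?_ hZQ)
      calc Z ^ (2 / 5 : ℝ) ≤ Z ^ (1 : ℝ) := rpow_le_rpow_of_exponent_le hZ1 (by norm_num)
        _ = Z := rpow_one Z
    have h2 : M ≤ Q := by exact_mod_cast h1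
    exact h2.trans hQx
  have hlogM : δ / 5 * log Q ≤ log M := by
    have h1 := log_le_log (by positivity) hMhalf
    rw [log_div (by positivity) (by norm_num), log_rpow hZ0] at h1
    have h2 := log_le_log (by positivity) hZl.le
    rw [log_rpow hQpos] at h2
    have h3 : log 2 ≤ δ / 5 * log Q := by
      rw [div_le_iff₀ hδ] at c2
      linarith
    linarith
  have hE : ((L.primeFactors.card : ℕ) : ℝ) ≤ 8 / δ * log M := by
    refine (card_primeFactors_le hL1).trans ?_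
    have h1 : log (L : ℝ) ≤ log Q := log_le_log hL0 (by exact_mod_cast hLQ)
    have h2 : 8 / δ * (δ / 5 * log Q) ≤ 8 / δ * log M :=
      mul_le_mul_of_nonneg_left hlogM (by positivity)
    have h3 : 8 / δ * (δ / 5 * log Q) = 8 / 5 * log Q := by field_simp
    have h4 : 0 ≤ log (Q : ℝ) := log_natCast_nonneg Q
    linarith
  obtain ⟨S, hS1, hS2⟩ := hD0 M hMD L.primeFactors hE
  have hlogMx : (log (M : ℝ)) ^ (2 : ℝ) ≤ (log (x : ℝ)) ^ (2 : ℝ) :=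
    rpow_le_rpow (log_natCast_nonneg M) (log_le_log hM0 (by exact_mod_cast hMx)) (by norm_num)
  have hSV : ∀ s ∈ S, ∀ p : ℕ, p.Prime → p ∣ s → p ∈ Vs x := by
    intro s hs p hp hps
    obtain ⟨_, _, ho, _, h5⟩ := hS1 s hs
    rw [mem_Vs]
    refine ⟨hp, (h5 p hp hps).1.trans hlogMx, ?_⟩
    rintro rfl
    exact (Nat.not_even_iff_odd.2 ho) (even_iff_two_dvd.2 hps)
  have hls := ls_ap S T X L M hL1 (E0 % L) (fun s => jacobiSym (s : ℤ) n0)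
    (by
      intro s hs
      obtain ⟨h1, h2, ho, h4, h5⟩ := hS1 s hs
      refine ⟨h2, ho, h4, ?_⟩
      rw [Nat.coprime_iff_gcd_eq_one]
      by_contra hne
      obtain ⟨p, hpp, hpd⟩ := Nat.exists_prime_and_dvd hne
      exact (h5 p hpp (hpd.trans (Nat.gcd_dvd_left _ _))).2
        (Nat.mem_primeFactors.2 ⟨hpp, hpd.trans (Nat.gcd_dvd_right _ _), by omega⟩))
    (by
      intro n hn
      obtain ⟨h1, h2, h3, h4, h5, h6⟩ := hT n hn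
      refine ⟨h2, h3, h4, fun s hs => ?_⟩
      exact sy_smooth (h5.trans (hT n0 hn0).2.2.2.2.1.symm) s (hS1 s hs).1 (hSV s hs))
    (fun s hs => nz_abs (hT n0 hn0).2.2.2.2.2 (hSV s hs))
  rw [← hZ] at hls
  have hScard : (1 : ℝ) / 2 * Z ^ (1 / 5 - 2 / 5 * δ) ≤ S.card := by
    refine le_trans ?_ hS2
    have h1 : (Z ^ (2 / 5 : ℝ) / 2) ^ ((1 : ℝ) - 1 / 2 - δ) ≤ (M : ℝ) ^ ((1 : ℝ) - 1 / 2 - δ) :=
      rpow_le_rpow (by positivity) hMhalf (by linarith)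
    refine le_trans ?_ h1
    rw [div_rpow (by positivity) (by norm_num), ← rpow_mul hZ0.le]
    have h2 : (2 : ℝ) ^ ((1 : ℝ) - 1 / 2 - δ) ≤ 2 := by
      calc (2 : ℝ) ^ ((1 : ℝ) - 1 / 2 - δ) ≤ (2 : ℝ) ^ (1 : ℝ) :=
            rpow_le_rpow_of_exponent_le (by norm_num) (by linarith)
        _ = 2 := rpow_one 2
    have h3 : (2 / 5 : ℝ) * (1 - 1 / 2 - δ) = 1 / 5 - 2 / 5 * δ := by ring
    rw [h3]
    have h4 : 0 < Z ^ (1 / 5 - 2 / 5 * δ) := by positivity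
    rw [div_mul_eq_mul_div, one_mul]
    exact div_le_div_of_nonneg_left h4.le (by positivity) h2
  have hSpos : (0 : ℝ) < S.card := by
    have : 0 < Z ^ (1 / 5 - 2 / 5 * δ) := by positivity
    linarith
  have hM2 : (M : ℝ) ^ 2 ≤ Z ^ (4 / 5 : ℝ) := by
    calc (M : ℝ) ^ 2 ≤ (Z ^ (2 / 5 : ℝ)) ^ 2 := pow_le_pow_left₀ hM0.le hMle 2
      _ = Z ^ (4 / 5 : ℝ) := by
        rw [← rpow_natCast, ← rpow_mul hZ0.le]; norm_num
  have h1 : (T.card : ℝ) * S.card ≤ (Z + 1) + S.card * (4 * (M : ℝ) ^ 2) := by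
    have h2 : ((T.card : ℝ) * S.card) * S.card ≤
        ((Z + 1) + S.card * (4 * (M : ℝ) ^ 2)) * S.card := by
      calc ((T.card : ℝ) * S.card) * S.card = (T.card : ℝ) * (S.card : ℝ) ^ 2 := by ring
        _ ≤ _ := hls
        _ = _ := by ring
    exact le_of_mul_le_mul_right h2 hSpos
  have h2 : Z + 1 ≤ S.card * (4 * (Z ^ (4 / 5 : ℝ) * (Q : ℝ) ^ δ)) := by
    have h3 : Z + 1 ≤ 2 * Z := by linarith
    have h4 : Z = Z ^ (1 / 5 - 2 / 5 * δ) * (Z ^ (4 / 5 : ℝ) * Z ^ (2 / 5 * δ)) := by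
      rw [← rpow_add hZ0, ← rpow_add hZ0]
      rw [show (1 / 5 - 2 / 5 * δ + (4 / 5 + 2 / 5 * δ) : ℝ) = 1 by ring, rpow_one]
    have h5 : Z ^ (2 / 5 * δ) ≤ (Q : ℝ) ^ δ := by
      calc Z ^ (2 / 5 * δ) ≤ (Q : ℝ) ^ (2 / 5 * δ) :=
            rpow_le_rpow hZ0.le hZQ (by positivity)
        _ ≤ (Q : ℝ) ^ δ := rpow_le_rpow_of_exponent_le hQ1' (by linarith)
    calc Z + 1 ≤ 2 * Z := h3
      _ = (1 / 2 * Z ^ (1 / 5 - 2 / 5 * δ)) * (4 * (Z ^ (4 / 5 : ℝ) * Z ^ (2 / 5 * δ))) := by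
          nth_rewrite 1 [h4]; ring
      _ ≤ S.card * (4 * (Z ^ (4 / 5 : ℝ) * (Q : ℝ) ^ δ)) := by
          refine mul_le_mul hScard ?_ (by positivity) hSpos.le
          exact mul_le_mul_of_nonneg_left (mul_le_mul_of_nonneg_left h5 hZ45) (by norm_num)
  have h3 : (T.card : ℝ) ≤ 4 * (Z ^ (4 / 5 : ℝ) * (Q : ℝ) ^ δ) + 4 * (M : ℝ) ^ 2 := by
    have h4 : (T.card : ℝ) * S.card ≤
        (4 * (Z ^ (4 / 5 : ℝ) * (Q : ℝ) ^ δ) + 4 * (M : ℝ) ^ 2) * S.card := by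
      calc (T.card : ℝ) * S.card ≤ _ := h1
        _ ≤ S.card * (4 * (Z ^ (4 / 5 : ℝ) * (Q : ℝ) ^ δ)) + S.card * (4 * (M : ℝ) ^ 2) := by
            linarith
        _ = _ := by ring
    exact le_of_mul_le_mul_right h4 hSpos
  have h4 : Z ^ (4 / 5 : ℝ) ≤ Z ^ (4 / 5 : ℝ) * (Q : ℝ) ^ δ := by
    nlinarith
  have h5 : 8 * (Q : ℝ) ^ δ ≤ ((⌈Y⌉₊ : ℝ) + 8) * (Q : ℝ) ^ δ :=
    mul_le_mul_of_nonneg_right (by linarith) (by positivity)
  calc (T.card : ℝ) ≤ 8 * (Q : ℝ) ^ δ * Z ^ (4 / 5 : ℝ) := by nlinarith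
    _ ≤ ((⌈Y⌉₊ : ℝ) + 8) * (Q : ℝ) ^ δ * (Z ^ (4 / 5 : ℝ) + 1) :=
      mul_le_mul h5 (by linarith) hZ45 (by positivity)

end Pool.Agent.K1H88.WS
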