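import Mathlib

set_option autoImplicit false

/-! The number of small divisors of an integer. -/

namespace Pool.Agent.K1H88.WS

open Finset Real

/-- `n ↦ n ^ (-σ)` -/
noncomputable def pwf (σ : ℝ) : ℕ →* ℝ where
  toFun n := (n : ℝ) ^ (-σ)
  map_one' := by simp
  map_mul' a b := by
    push_cast
    exact mul_rpow (Nat.cast_nonneg a) (Nat.cast_nonneg b)

lemma sum_divisors_le (N : ℕ) (hN : N ≠ 0) (σ : ℝ) (hσ : 0 < σ) :
    ∑ T ∈ N.divisors, (T : ℝ) ^ (-σ) ≤ ∏ p ∈ N.primeFactors, (1 - (p : ℝ) ^ (-σ))⁻¹ := by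
  classical
  have hlt : ∀ {p : ℕ}, p.Prime → ‖pwf σ p‖ < 1 := by
    intro p hp
    have hp1 : (1 : ℝ) < p := by exact_mod_cast hp.one_lt
    change ‖(p : ℝ) ^ (-σ)‖ < 1
    rw [norm_of_nonneg (by positivity)]
    exact rpow_lt_one_of_one_lt_of_neg hp1 (by linarith)
  obtain ⟨h1, h2⟩ := EulerProduct.summable_and_hasSum_factoredNumbers_prod_filter_prime_geometric
    (f := pwf σ) hlt N.primeFactors
  have h3 : N.primeFactors.filter Nat.Prime = N.primeFactors :=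
    filter_true_of_mem fun p hp => Nat.prime_of_mem_primeFactors hp
  rw [h3] at h2
  have h4 : ∀ T ∈ N.divisors, T ∈ Nat.factoredNumbers N.primeFactors := by
    intro T hT
    rw [Nat.mem_divisors] at hT
    rw [Nat.mem_factoredNumbers]
    refine ⟨ne_zero_of_dvd_ne_zero hT.2 hT.1, fun p hp => ?_⟩
    rw [Nat.mem_primeFactorsList (ne_zero_of_dvd_ne_zero hT.2 hT.1)] at hp
    exact Nat.mem_primeFactors.2 ⟨hp.1, hp.2.trans hT.1, hN⟩
  have h5 : ∑ T ∈ N.divisors, (T : ℝ) ^ (-σ) =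
      ∑ T ∈ N.divisors.attach, pwf σ ((⟨T.1, h4 T.1 T.2⟩ :
        Nat.factoredNumbers N.primeFactors) : ℕ) := by
    rw [← sum_attach]
    rfl
  have h6 : ∑ T ∈ N.divisors.attach, pwf σ ((⟨T.1, h4 T.1 T.2⟩ :
        Nat.factoredNumbers N.primeFactors) : ℕ) =
      ∑ m ∈ N.divisors.attach.image (fun T => (⟨T.1, h4 T.1 T.2⟩ :
        Nat.factoredNumbers N.primeFactors)), pwf σ (m : ℕ) := by
    rw [sum_image]
    intro a _ b _ hab
    apply Subtype.ext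
    exact congrArg (fun z : Nat.factoredNumbers N.primeFactors => (z : ℕ)) hab
  rw [h5, h6]
  exact sum_le_hasSum _ (fun m _ => by
    change 0 ≤ (((m : ℕ) : ℝ)) ^ (-σ)
    positivity) h2

/-- few divisors up to `Q` -/
theorem div_count (ε : ℝ) (hε : 0 < ε) : ∃ C : ℝ, 0 < C ∧ ∀ x N Q : ℕ, 1 ≤ N → N ≤ x → 1 ≤ Q →
    (log x) ^ (24 / 25 : ℝ) ≤ log Q →
    ((N.divisors.filter (fun T => T ≤ Q)).card : ℝ) ≤ C * (Q : ℝ) ^ (1 / 20 + ε) := by
  classical
  have hev1 : ∀ᶠ t : ℝ in Filter.atTop, 100 * t ^ (20 / 21 : ℝ) ≤ ε * t ^ (24 / 25 : ℝ) := by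
    have h := (tendsto_rpow_atTop (show (0 : ℝ) < 24 / 25 - 20 / 21 by norm_num)).eventually
      (Filter.eventually_ge_atTop (100 / ε))
    filter_upwards [h, Filter.eventually_gt_atTop 0] with t ht ht0
    rw [div_le_iff₀ hε] at ht
    calc 100 * t ^ (20 / 21 : ℝ) ≤ (t ^ (24 / 25 - 20 / 21 : ℝ) * ε) * t ^ (20 / 21 : ℝ) :=
          mul_le_mul_of_nonneg_right ht (by positivity)
      _ = ε * (t ^ (24 / 25 - 20 / 21 : ℝ) * t ^ (20 / 21 : ℝ)) := by ring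
      _ = ε * t ^ (24 / 25 : ℝ) := by rw [← rpow_add ht0]; norm_num
  have hev2 : ∀ᶠ t : ℝ in Filter.atTop, (1 : ℝ) ≤ t := Filter.eventually_ge_atTop _
  obtain ⟨Y0, hY0⟩ := Filter.eventually_atTop.mp
    (tendsto_log_atTop.eventually (hev1.and hev2))
  refine ⟨(⌈Y0⌉₊ : ℝ) + 1, by positivity, ?_⟩
  intro x N Q hN hNx hQ hlog
  have hceil : (0 : ℝ) ≤ (⌈Y0⌉₊ : ℝ) := Nat.cast_nonneg _
  have hQ1 : (1 : ℝ) ≤ Q := by exact_mod_cast hQ
  have hQ0 : (0 : ℝ) < Q := by linarith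
  have hQp : (1 : ℝ) ≤ (Q : ℝ) ^ (1 / 20 + ε) := one_le_rpow hQ1 (by positivity)
  rcases lt_or_ge x ⌈Y0⌉₊ with hsm | hlg
  · have h1 : (N.divisors.filter (fun T => T ≤ Q)).card ≤ N := by
      refine (card_filter_le _ _).trans (Nat.card_divisors_le_self N)
    have h2 : ((N.divisors.filter (fun T => T ≤ Q)).card : ℝ) ≤ ⌈Y0⌉₊ := by
      exact_mod_cast h1.trans (hNx.trans hsm.le)
    calc _ ≤ ((⌈Y0⌉₊ : ℝ) + 1) * 1 := by linarith
      _ ≤ _ := mul_le_mul_of_nonneg_left hQp (by positivity)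
  obtain ⟨c1, c2⟩ := hY0 x ((Nat.le_ceil Y0).trans (by exact_mod_cast hlg))
  obtain ⟨t, ht⟩ : ∃ t : ℝ, t = log x := ⟨_, rfl⟩
  rw [← ht] at c1 c2 hlog
  have ht0 : 0 < t := by linarith
  have h1 : ((N.divisors.filter (fun T => T ≤ Q)).card : ℝ) ≤
      (Q : ℝ) ^ (1 / 20 : ℝ) * ∑ T ∈ N.divisors, (T : ℝ) ^ (-(1 / 20 : ℝ)) := by
    rw [mul_sum]
    have h2 : ((N.divisors.filter (fun T => T ≤ Q)).card : ℝ) =
        ∑ T ∈ N.divisors.filter (fun T => T ≤ Q), (1 : ℝ) := by simp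
    rw [h2]
    refine le_trans (sum_le_sum fun T hT => ?_)
      (sum_le_sum_of_subset_of_nonneg (filter_subset _ _) fun T _ _ => by positivity)
    rw [mem_filter, Nat.mem_divisors] at hT
    have hT0 : (0 : ℝ) < T := by
      exact_mod_cast Nat.pos_of_ne_zero (ne_zero_of_dvd_ne_zero hT.1.2 hT.1.1)
    rw [rpow_neg hT0.le, ← div_eq_mul_inv, one_le_div (by positivity)]
    exact rpow_le_rpow hT0.le (by exact_mod_cast hT.2) (by norm_num)
  refine h1.trans ?_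
  have h2 := sum_divisors_le N (by omega) (1 / 20) (by norm_num)
  have h3 : ∏ p ∈ N.primeFactors, (1 - (p : ℝ) ^ (-(1 / 20 : ℝ)))⁻¹ ≤
      exp (∑ p ∈ N.primeFactors, 40 * (p : ℝ) ^ (-(1 / 20 : ℝ))) := by
    rw [Real.exp_sum]
    refine prod_le_prod (fun p hp => ?_) fun p hp => ?_
    · have hp1 : (1 : ℝ) < p := by exact_mod_cast (Nat.prime_of_mem_primeFactors hp).one_lt
      have : (p : ℝ) ^ (-(1 / 20 : ℝ)) < 1 := rpow_lt_one_of_one_lt_of_neg hp1 (by norm_num)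
      exact inv_nonneg.2 (by linarith)
    · have hp2 : (2 : ℝ) ≤ p := by exact_mod_cast (Nat.prime_of_mem_primeFactors hp).two_le
      obtain ⟨u, hu⟩ : ∃ u : ℝ, u = (p : ℝ) ^ (-(1 / 20 : ℝ)) := ⟨_, rfl⟩
      rw [← hu]
      have hu0 : 0 < u := by rw [hu]; positivity
      have hu1 : u ≤ 39 / 40 := by
        rw [hu]
        calc (p : ℝ) ^ (-(1 / 20 : ℝ)) ≤ (2 : ℝ) ^ (-(1 / 20 : ℝ)) :=
              rpow_le_rpow_of_nonpos (by norm_num) hp2 (by norm_num)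
          _ ≤ 39 / 40 := by
            rw [rpow_neg (by norm_num), inv_le_comm₀ (by positivity) (by norm_num)]
            have : ((39 / 40 : ℝ)⁻¹) ^ (20 : ℕ) ≤ 2 := by norm_num
            calc ((39 / 40 : ℝ)⁻¹) = (((39 / 40 : ℝ)⁻¹) ^ (20 : ℕ)) ^ (1 / 20 : ℝ) := by
                  rw [← rpow_natCast, ← rpow_mul (by norm_num)]; norm_num
              _ ≤ 2 ^ (1 / 20 : ℝ) := rpow_le_rpow (by positivity) this (by norm_num)
      have h4 : 0 < 1 - u := by linarith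
      have h5 : (1 - u)⁻¹ ≤ 1 + 40 * u := by
        rw [inv_le_comm₀ h4 (by positivity)]
        rw [inv_le_comm₀ (by positivity) h4] 
        rw [inv_le_iff_one_le_mul₀ h4]
        nlinarith
      exact h5.trans (by rw [add_comm]; exact add_one_le_exp _)
  have h4 : ∑ p ∈ N.primeFactors, 40 * (p : ℝ) ^ (-(1 / 20 : ℝ)) ≤ 100 * t ^ (20 / 21 : ℝ) := by
    rw [← mul_sum]
    obtain ⟨Z, hZ⟩ : ∃ Z : ℕ, Z = ⌊t ^ (20 / 21 : ℝ)⌋₊ := ⟨_, rfl⟩
    have hZle : (Z : ℝ) ≤ t ^ (20 / 21 : ℝ) := by rw [hZ]; exact Nat.floor_le (by positivity)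
    have h5 : ∀ p ∈ N.primeFactors, (p : ℝ) ^ (-(1 / 20 : ℝ)) ≤
        (if p ≤ Z then (1 : ℝ) else 0) + t ^ (-(1 / 21 : ℝ)) := by
      intro p hp
      have hp1 : (1 : ℝ) < p := by exact_mod_cast (Nat.prime_of_mem_primeFactors hp).one_lt
      split_ifs with h6
      · have : (p : ℝ) ^ (-(1 / 20 : ℝ)) < 1 := rpow_lt_one_of_one_lt_of_neg hp1 (by norm_num)
        have : 0 ≤ t ^ (-(1 / 21 : ℝ)) := by positivity
        linarith
      · push Not at h6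
        have h7 : t ^ (20 / 21 : ℝ) ≤ p := by
          rw [hZ] at h6
          exact (Nat.lt_of_floor_lt h6).le
        rw [zero_add]
        calc (p : ℝ) ^ (-(1 / 20 : ℝ)) ≤ (t ^ (20 / 21 : ℝ)) ^ (-(1 / 20 : ℝ)) :=
              rpow_le_rpow_of_nonpos (by positivity) h7 (by norm_num)
          _ = t ^ (-(1 / 21 : ℝ)) := by rw [← rpow_mul ht0.le]; norm_num
    have h6 := sum_le_sum h5
    rw [sum_add_distrib, sum_const, nsmul_eq_mul, ← sum_filter, sum_const, nsmul_eq_mul,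
      mul_one] at h6
    have h7 : ((N.primeFactors.filter (fun p => p ≤ Z)).card : ℝ) ≤ t ^ (20 / 21 : ℝ) := by
      refine le_trans ?_ hZle
      have : N.primeFactors.filter (fun p => p ≤ Z) ⊆ Icc 1 Z := by
        intro p hp
        rw [mem_filter] at hp
        exact mem_Icc.2 ⟨(Nat.prime_of_mem_primeFactors hp.1).one_lt.le, hp.2⟩
      have := card_le_card this
      rw [Nat.card_Icc, Nat.add_sub_cancel] at this
      exact_mod_cast this
    have h8 : (N.primeFactors.card : ℝ) ≤ (3 / 2) * t := by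
      have h9 : 2 ^ N.primeFactors.card ≤ N := by
        calc 2 ^ N.primeFactors.card ≤ ∏ p ∈ N.primeFactors, p :=
              Finset.pow_card_le_prod _ _ _ fun p hp => (Nat.prime_of_mem_primeFactors hp).two_le
          _ ≤ N := Nat.le_of_dvd (by omega) (Nat.prod_primeFactors_dvd N)
      have h10 : ((2 : ℝ) ^ N.primeFactors.card) ≤ x := by exact_mod_cast h9.trans hNx
      have h11 := log_le_log (by positivity) h10
      rw [log_pow, ← ht] at h11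
      have h12 : (2 / 3 : ℝ) ≤ log 2 := by linarith [log_two_gt_d9]
      have h13 : (0 : ℝ) ≤ N.primeFactors.card := Nat.cast_nonneg _
      nlinarith
    have h9 : (N.primeFactors.card : ℝ) * t ^ (-(1 / 21 : ℝ)) ≤ (3 / 2) * t ^ (20 / 21 : ℝ) := by
      calc (N.primeFactors.card : ℝ) * t ^ (-(1 / 21 : ℝ)) ≤ (3 / 2) * t * t ^ (-(1 / 21 : ℝ)) :=
            mul_le_mul_of_nonneg_right h8 (by positivity)
        _ = (3 / 2) * (t ^ (1 : ℝ) * t ^ (-(1 / 21 : ℝ))) := by rw [rpow_one]; ring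
        _ = (3 / 2) * t ^ (20 / 21 : ℝ) := by rw [← rpow_add ht0]; norm_num
    linarith
  have h5 : ∑ T ∈ N.divisors, (T : ℝ) ^ (-(1 / 20 : ℝ)) ≤ (Q : ℝ) ^ ε := by
    refine h2.trans (h3.trans ?_)
    rw [rpow_def_of_pos hQ0]
    apply exp_le_exp.2
    calc _ ≤ 100 * t ^ (20 / 21 : ℝ) := h4
      _ ≤ ε * t ^ (24 / 25 : ℝ) := c1
      _ ≤ ε * log Q := mul_le_mul_of_nonneg_left hlog hε.le
      _ = _ := mul_comm _ _
  calc (Q : ℝ) ^ (1 / 20 : ℝ) * ∑ T ∈ N.divisors, (T : ℝ) ^ (-(1 / 20 : ℝ)) ≤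
      (Q : ℝ) ^ (1 / 20 : ℝ) * (Q : ℝ) ^ ε := mul_le_mul_of_nonneg_left h5 (by positivity)
    _ = 1 * (Q : ℝ) ^ (1 / 20 + ε) := by rw [rpow_add hQ0, one_mul]
    _ ≤ _ := mul_le_mul_of_nonneg_right (by linarith) (by positivity)

end Pool.Agent.K1H88.WS
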