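import Pool.Agent.K1H88.WS.Sums

set_option autoImplicit false

/-! The number of possible last factors. -/

namespace Pool.Agent.K1H88.WS

open Finset Real Pool.Agent.W57.SW

/-- a prime last factor -/
theorem prime_fiber (e : ℝ) (he : 0 < e) (he1 : e ≤ 1 / 1000) : ∃ C : ℝ, 0 < C ∧ ∃ D0 : ℕ,
    ∀ x D m0 : ℕ, 2 ≤ D → D ≤ x → ∀ F : Finset ℕ,
    (∀ q ∈ F, q ∈ PP x m0 ∧ D0 ≤ q ∧ D * q ≤ x ∧ Lam x q ∣ D - 1) →
    (F.card : ℝ) ≤ C * (x : ℝ) ^ e * ((x : ℝ) / D) ^ (2 / 5 + 3 * e) := by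
  classical
  obtain ⟨C, hC, D0, hap⟩ := ap_prime e he he1
  obtain ⟨C', hC', hdiv⟩ := card_divisors_le e he
  refine ⟨C' * C, by positivity, D0, ?_⟩
  intro x D m0 hD2 hDx F hF
  have hD0 : (0 : ℝ) < D := by exact_mod_cast (by omega : 0 < D)
  have hcov : F ⊆ (D - 1).divisors.biUnion (fun T => F.filter (fun q => Lam x q = T)) := by
    intro q hq
    rw [mem_biUnion]
    refine ⟨Lam x q, ?_, mem_filter.2 ⟨hq, rfl⟩⟩
    rw [Nat.mem_divisors]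
    exact ⟨(hF q hq).2.2.2, by omega⟩
  have h1 : (F.card : ℝ) ≤ ∑ T ∈ (D - 1).divisors, ((F.filter (fun q => Lam x q = T)).card : ℝ) := by
    exact_mod_cast (card_le_card hcov).trans card_biUnion_le
  have h2 : ∀ T ∈ (D - 1).divisors, ((F.filter (fun q => Lam x q = T)).card : ℝ) ≤
      C * ((x : ℝ) / D) ^ (2 / 5 + 3 * e) := by
    intro T hT
    rcases (F.filter (fun q => Lam x q = T)).eq_empty_or_nonempty with h0 | ⟨q0, hq0⟩
    · rw [h0]; simp; positivity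
    · rw [mem_filter] at hq0
      obtain ⟨a1, a2, a3, a4⟩ := hF q0 hq0.1
      rw [mem_PP] at a1
      have hq0X : q0 ≤ x / D := by
        rw [Nat.le_div_iff_mul_le (by omega)]
        rw [mul_comm]; exact a3
      have h3 := Nat.le_of_dvd (Nat.sub_pos_of_lt a1.2.1.one_lt)
        (lam_dvd_pred a1.2.1 a1.2.2.2.1)
      have h4 := lam_pos a1.2.1 a1.2.2.2.1
      rw [hq0.2] at h3 h4
      have h5 := hap x (x / D) T m0 (Nat.div_le_self _ _) h4 (by omega)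
        (F.filter (fun q => Lam x q = T)) (by
          intro q hq
          rw [mem_filter] at hq
          obtain ⟨b1, b2, b3, b4⟩ := hF q hq.1
          refine ⟨b1, b2, ?_, hq.2⟩
          rw [Nat.le_div_iff_mul_le (by omega), mul_comm]
          exact b3)
      refine h5.trans (mul_le_mul_of_nonneg_left ?_ hC.le)
      exact rpow_le_rpow (Nat.cast_nonneg _) Nat.cast_div_le (by linarith)
  have h3 := sum_le_sum h2
  rw [sum_const, nsmul_eq_mul] at h3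
  have h4 := hdiv x (D - 1) (by omega) (by omega)
  calc (F.card : ℝ) ≤ _ := h1
    _ ≤ _ := h3
    _ ≤ (C' * (x : ℝ) ^ e) * (C * ((x : ℝ) / D) ^ (2 / 5 + 3 * e)) :=
        mul_le_mul_of_nonneg_right h4 (by positivity)
    _ = _ := by ring

/-- a last factor of medium size -/
theorem ap_fiber (e : ℝ) (he : 0 < e) (he1 : e ≤ 1 / 4) : ∃ C : ℝ, 0 < C ∧
    ∀ (x D m0 : ℕ) (z : ℝ), 2 ≤ D → 1 ≤ z → z ≤ Lam x D → ∀ F : Finset ℕ,
    (∀ E ∈ F, 1 ≤ E ∧ Odd E ∧ D * E ≤ x ∧ z ≤ E ∧ (E : ℝ) ≤ z ^ 2 ∧ Lam x D ∣ D * E - 1 ∧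
      Nz x E ∧ (Sy x E m0 ∨ Sy x E 1)) →
    (F.card : ℝ) ≤ C * (x : ℝ) ^ e * (((x : ℝ) / D) ^ (1 / 2 : ℝ) * z ^ (-(1 / 5 : ℝ))) := by
  classical
  obtain ⟨C, hC, hap⟩ := ap_count e he he1
  refine ⟨4 * C, by positivity, ?_⟩
  intro x D m0 z hD2 hz1 hzL F hF
  rcases F.eq_empty_or_nonempty with h0 | hne
  · rw [h0]; simp; positivity
  obtain ⟨X', hX'⟩ : ∃ X', X' = F.max' hne := ⟨_, rfl⟩
  have hX'F : X' ∈ F := by rw [hX']; exact F.max'_mem hne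
  obtain ⟨g1, g2, g3, g4, g5, g6, g7, g8⟩ := hF X' hX'F
  obtain ⟨L, hL⟩ : ∃ L, L = Lam x D := ⟨_, rfl⟩
  rw [← hL] at hzL g6
  have hDX : 2 ≤ D * X' := by nlinarith
  have hL0 : 0 < L := Nat.pos_of_dvd_of_pos g6 (by omega)
  have hLx : L ≤ x := by
    have := Nat.le_of_dvd (by omega) g6
    omega
  have hL0' : (0 : ℝ) < L := by exact_mod_cast hL0
  have hX'x : X' ≤ x := by nlinarith
  have hX'0 : (0 : ℝ) < X' := by exact_mod_cast g1
  have hz0 : 0 < z := by linarith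
  have hx1 : (1 : ℝ) ≤ x := by exact_mod_cast g1.trans hX'x
  have hD0 : (0 : ℝ) < D := by exact_mod_cast (by omega : 0 < D)
  have hcop : Nat.Coprime L D := by
    have h1 : Nat.Coprime (D * X' - 1) (D * X') :=
      (Nat.coprime_self_sub_left (by omega : 1 ≤ D * X')).2 (Nat.coprime_one_left _)
    exact Nat.Coprime.coprime_dvd_left g6 (Nat.Coprime.coprime_dvd_right (dvd_mul_right D X') h1)
  have hmod : ∀ E ∈ F, E % L = X' % L := by
    intro E hE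
    obtain ⟨b1, b2, b3, b4, b5, b6, b7, b8⟩ := hF E hE
    rw [← hL] at b6
    have hDE : 1 ≤ D * E := by nlinarith
    have h1 : D * E ≡ 1 [MOD L] := ((Nat.modEq_iff_dvd' hDE).2 b6).symm
    have h2 : D * X' ≡ 1 [MOD L] := ((Nat.modEq_iff_dvd' (by omega)).2 g6).symm
    exact Nat.ModEq.cancel_left_of_coprime hcop (h1.trans h2.symm)
  have hbound : ((X' : ℝ) / L) ^ (4 / 5 : ℝ) + 1 ≤
      2 * (((x : ℝ) / D) ^ (1 / 2 : ℝ) * z ^ (-(1 / 5 : ℝ))) := by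
    have h1 : ((X' : ℝ) / L) ^ (4 / 5 : ℝ) ≤ (X' : ℝ) ^ (1 / 2 : ℝ) * z ^ (-(1 / 5 : ℝ)) := by
      have h2 : (X' : ℝ) / L ≤ X' / z := div_le_div_of_nonneg_left hX'0.le hz0 hzL
      calc ((X' : ℝ) / L) ^ (4 / 5 : ℝ) ≤ ((X' : ℝ) / z) ^ (4 / 5 : ℝ) :=
            rpow_le_rpow (by positivity) h2 (by norm_num)
        _ = (X' : ℝ) ^ (1 / 2 : ℝ) * (X' : ℝ) ^ (3 / 10 : ℝ) * z ^ (-(4 / 5 : ℝ)) := by
            rw [div_rpow hX'0.le hz0.le, ← rpow_add hX'0, rpow_neg hz0.le, div_eq_mul_inv]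
            norm_num
        _ ≤ (X' : ℝ) ^ (1 / 2 : ℝ) * (z ^ 2) ^ (3 / 10 : ℝ) * z ^ (-(4 / 5 : ℝ)) := by
            apply mul_le_mul_of_nonneg_right _ (by positivity)
            apply mul_le_mul_of_nonneg_left _ (by positivity)
            exact rpow_le_rpow hX'0.le g5 (by norm_num)
        _ = (X' : ℝ) ^ (1 / 2 : ℝ) * z ^ (-(1 / 5 : ℝ)) := by
            rw [← rpow_natCast z 2, ← rpow_mul hz0.le, mul_assoc, ← rpow_add hz0]
            norm_num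
    have h3 : (1 : ℝ) ≤ (X' : ℝ) ^ (1 / 2 : ℝ) * z ^ (-(1 / 5 : ℝ)) := by
      calc (1 : ℝ) ≤ z ^ (3 / 10 : ℝ) := one_le_rpow hz1 (by norm_num)
        _ = z ^ (1 / 2 : ℝ) * z ^ (-(1 / 5 : ℝ)) := by
            rw [← rpow_add hz0]; norm_num
        _ ≤ _ := mul_le_mul_of_nonneg_right (rpow_le_rpow hz0.le g4 (by norm_num)) (by positivity)
    have h4 : (X' : ℝ) ^ (1 / 2 : ℝ) ≤ ((x : ℝ) / D) ^ (1 / 2 : ℝ) := by
      apply rpow_le_rpow hX'0.le _ (by norm_num)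
      rw [le_div_iff₀ hD0]
      have : ((D * X' : ℕ) : ℝ) ≤ x := by exact_mod_cast g3
      push_cast at this
      linarith
    have h5 : (X' : ℝ) ^ (1 / 2 : ℝ) * z ^ (-(1 / 5 : ℝ)) ≤
        ((x : ℝ) / D) ^ (1 / 2 : ℝ) * z ^ (-(1 / 5 : ℝ)) :=
      mul_le_mul_of_nonneg_right h4 (by positivity)
    linarith
  have hcount : ∀ m1 : ℕ, ((F.filter (fun q => Sy x q m1)).card : ℝ) ≤
      C * (x : ℝ) ^ e * (2 * (((x : ℝ) / D) ^ (1 / 2 : ℝ) * z ^ (-(1 / 5 : ℝ)))) := by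
    intro m1
    have h1 := hap x x X' L X' m1 le_rfl hX'x hL0 hLx (F.filter (fun q => Sy x q m1)) (by
      intro E hE
      rw [mem_filter] at hE
      obtain ⟨hEF, hEs⟩ := hE
      obtain ⟨b1, b2, b3, b4, b5, b6, b7, b8⟩ := hF E hEF
      exact ⟨b1, by rw [hX']; exact F.le_max' E hEF, b2, hmod E hEF, hEs, b7⟩)
    exact h1.trans (mul_le_mul_of_nonneg_left hbound (by positivity))
  have h3 : F ⊆ F.filter (fun q => Sy x q m0) ∪ F.filter (fun q => Sy x q 1) := by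
    intro q hq
    rw [mem_union]
    rcases (hF q hq).2.2.2.2.2.2.2 with h5 | h5
    · exact Or.inl (mem_filter.2 ⟨hq, h5⟩)
    · exact Or.inr (mem_filter.2 ⟨hq, h5⟩)
  have h4 := (card_le_card h3).trans (card_union_le _ _)
  have h5 : (F.card : ℝ) ≤ ((F.filter (fun q => Sy x q m0)).card : ℝ) +
    ((F.filter (fun q => Sy x q 1)).card : ℝ) := by exact_mod_cast h4
  have h6 := hcount m0
  have h7 := hcount 1
  linarith

end Pool.Agent.K1H88.WS
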