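import Mathlib

set_option autoImplicit false

/-! Complete and incomplete sums of Jacobi symbols along arithmetic progressions. -/

namespace Pool.Agent.K1H88.WS

open Finset

/-- sums over `range ℓ` and over `ZMod ℓ` -/
lemma sum_range_zmod {ℓ : ℕ} [NeZero ℓ] (f : ZMod ℓ → ℤ) :
    ∑ t ∈ range ℓ, f (t : ZMod ℓ) = ∑ z : ZMod ℓ, f z := by
  refine Finset.sum_bij' (fun t _ => (t : ZMod ℓ)) (fun z _ => z.val) ?_ ?_ ?_ ?_ ?_
  · intro a _; exact mem_univ _
  · intro z _; exact mem_range.2 (ZMod.val_lt z)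
  · intro a ha; exact ZMod.val_cast_of_lt (mem_range.1 ha)
  · intro z _; exact ZMod.natCast_zmod_val z
  · intro a _; rfl

/-- complete sum of the Legendre symbol along a progression -/
lemma legendre_ap_sum {ℓ : ℕ} (hℓ : ℓ.Prime) (hℓ2 : ℓ ≠ 2) (n0 u : ℕ) (hu : Nat.Coprime u ℓ) :
    ∑ t ∈ range ℓ, jacobiSym ((n0 + u * t : ℕ) : ℤ) ℓ = 0 := by
  have := Fact.mk hℓ
  have h1 : ∀ t : ℕ, jacobiSym ((n0 + u * t : ℕ) : ℤ) ℓ =
      quadraticChar (ZMod ℓ) ((n0 : ZMod ℓ) + (u : ZMod ℓ) * (t : ZMod ℓ)) := by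
    intro t
    rw [← jacobiSym.legendreSym.to_jacobiSym, legendreSym]
    push_cast
    rfl
  simp only [h1]
  rw [sum_range_zmod (fun z : ZMod ℓ => quadraticChar (ZMod ℓ) ((n0 : ZMod ℓ) + (u : ZMod ℓ) * z))]
  have hu0 : (u : ZMod ℓ) ≠ 0 := by
    intro h
    rw [ZMod.natCast_eq_zero_iff] at h
    exact (Nat.Prime.coprime_iff_not_dvd hℓ).1 hu.symm h
  have e : ∑ z : ZMod ℓ, quadraticChar (ZMod ℓ) ((n0 : ZMod ℓ) + (u : ZMod ℓ) * z) =
      ∑ z : ZMod ℓ, quadraticChar (ZMod ℓ) z := by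
    refine Fintype.sum_bijective (fun z : ZMod ℓ => (n0 : ZMod ℓ) + (u : ZMod ℓ) * z) ?_ _ _ ?_
    · constructor
      · intro a b hab
        exact mul_left_cancel₀ hu0 (add_left_cancel hab)
      · intro b
        exact ⟨(b - n0) / u, by field_simp; ring⟩
    · intro z; rfl
  rw [e]
  apply quadraticChar_sum_zero
  rw [ZMod.ringChar_zmod_n]
  exact hℓ2

/-- splitting a sum over a range -/
lemma sum_range_split (F : ℕ → ℤ) (b ℓ : ℕ) :
    ∑ k ∈ range (b * ℓ), F k = ∑ k1 ∈ range b, ∑ t ∈ range ℓ, F (k1 + b * t) := by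
  rw [Finset.sum_comm]
  induction ℓ with
  | zero => simp
  | succ ℓ ih =>
    rw [Nat.mul_succ, sum_range_add, ih, sum_range_succ]
    congr 1
    refine sum_congr rfl fun k _ => ?_
    rw [add_comm]

/-- incomplete sums of a periodic function whose sum over a period is bounded -/
lemma periodic_sum_le {F : ℕ → ℤ} {P : ℕ} (hP : 0 < P) (hF : ∀ k, F (k + P) = F k) {A B : ℝ}
    (hA : |((∑ k ∈ range P, F k : ℤ) : ℝ)| ≤ A) (hb : ∀ k, |F k| ≤ 1) (hB : B = P) (K : ℕ) :
    |((∑ k ∈ range K, F k : ℤ) : ℝ)| ≤ A * (K / P) + B := by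
  have hA0 : 0 ≤ A := (abs_nonneg _).trans hA
  have hper : ∀ (m k : ℕ), F (k + P * m) = F k := by
    intro m
    induction m with
    | zero => intro k; simp
    | succ m ih =>
      intro k
      rw [Nat.mul_succ, ← add_assoc, hF, ih]
  have hK : K = P * (K / P) + K % P := (Nat.div_add_mod K P).symm
  have h1 : ∑ k ∈ range K, F k = (K / P : ℕ) * ∑ k ∈ range P, F k + ∑ k ∈ range (K % P), F k := by
    conv_lhs => rw [hK, sum_range_add]
    congr 1
    · rw [sum_range_split]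
      have : ∀ k1 ∈ range P, ∑ t ∈ range (K / P), F (k1 + P * t) = (K / P : ℕ) * F k1 := by
        intro k1 _
        rw [sum_congr rfl fun t _ => hper t k1]
        simp
      rw [sum_congr rfl this, ← mul_sum]
    · refine sum_congr rfl fun k _ => ?_
      rw [add_comm, hper]
  rw [h1]
  push_cast
  have h2 : |(∑ k ∈ range (K % P), (F k : ℝ))| ≤ B := by
    refine (abs_sum_le_sum_abs _ _).trans ?_
    have : ∀ k ∈ range (K % P), |(F k : ℝ)| ≤ 1 := by
      intro k _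
      exact_mod_cast hb k
    refine (sum_le_sum this).trans ?_
    rw [sum_const, card_range, nsmul_eq_mul, mul_one, hB]
    exact_mod_cast (Nat.mod_lt K hP).le
  have h3 : |((K / P : ℕ) : ℝ) * ∑ k ∈ range P, (F k : ℝ)| ≤ A * (K / P) := by
    rw [abs_mul, abs_of_nonneg (Nat.cast_nonneg _), mul_comm]
    push_cast at hA
    have h4 : ((K / P : ℕ) : ℝ) ≤ K / P := Nat.cast_div_le
    exact mul_le_mul hA h4 (Nat.cast_nonneg _) hA0
  exact (abs_add_le _ _).trans (add_le_add h3 h2)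

/-- the symbol `(k|n)` for odd `n`, zero for even `n` -/
def jo (k n : ℕ) : ℤ := if Odd n then jacobiSym (k : ℤ) n else 0

lemma jo_abs_le (k n : ℕ) : |jo k n| ≤ 1 := by
  unfold jo
  split_ifs
  · rcases jacobiSym.trichotomy (k : ℤ) n with h | h | h <;> simp [h]
  · simp

lemma jo_periodic (k n : ℕ) (m : ℕ) : jo k (n + 4 * k * m) = jo k n := by
  unfold jo
  have h0 : Odd (n + 4 * k * m) ↔ Odd n := by
    have e : 4 * k * m = 2 * (2 * k * m) := by ring
    rw [e, Nat.odd_iff, Nat.odd_iff]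
    omega
  by_cases h : Odd n
  · rw [if_pos (h0.2 h), if_pos h]
    rw [jacobiSym.mod_right (k : ℤ) (h0.2 h), jacobiSym.mod_right (k : ℤ) h]
    congr 1
    rw [Int.natAbs_natCast]
    exact Nat.add_mul_mod_self_left _ _ _
  · rw [if_neg (fun h' => h (h0.1 h')), if_neg h]

lemma jo_mul (a b n : ℕ) : jo (a * b) n = jo a n * jo b n := by
  unfold jo
  split_ifs
  · push_cast
    rw [jacobiSym.mul_left]
  · simp

/-- complete sums over a progression for a symbol with an isolated prime factor -/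
lemma complete_zero {ℓ b L : ℕ} (hℓ : ℓ.Prime) (hℓ2 : ℓ ≠ 2) (hℓb : Nat.Coprime ℓ b)
    (hℓL : Nat.Coprime ℓ L) (n0 : ℕ) :
    ∑ t ∈ range ℓ, jo (ℓ * b) (n0 + 4 * b * L * t) = 0 := by
  have hodd : Odd ℓ := hℓ.odd_of_ne_two hℓ2
  have hpar : ∀ t, Odd (n0 + 4 * b * L * t) ↔ Odd n0 := by
    intro t
    have e : 4 * b * L * t = 2 * (2 * b * L * t) := by ring
    rw [e, Nat.odd_iff, Nat.odd_iff]
    omega
  by_cases hn0 : Odd n0
  · have h1 : ∀ t ∈ range ℓ, jo (ℓ * b) (n0 + 4 * b * L * t) =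
        (jacobiSym ((b : ℕ) : ℤ) n0 * (qrSign n0 ℓ)) *
          jacobiSym ((n0 + 4 * b * L * t : ℕ) : ℤ) ℓ := by
      intro t _
      rw [jo_mul]
      have e1 : jo b (n0 + 4 * b * L * t) = jacobiSym ((b : ℕ) : ℤ) n0 := by
        have := jo_periodic b n0 (L * t)
        rw [← mul_assoc] at this
        rw [this, jo, if_pos hn0]
      have e2 : jo ℓ (n0 + 4 * b * L * t) =
          qrSign n0 ℓ * jacobiSym ((n0 + 4 * b * L * t : ℕ) : ℤ) ℓ := by
        rw [jo, if_pos ((hpar t).2 hn0)]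
        rw [jacobiSym.quadratic_reciprocity' hodd ((hpar t).2 hn0)]
        congr 1
        unfold qrSign
        congr 1
        rw [ZMod.χ₄_nat_mod_four, ZMod.χ₄_nat_mod_four n0]
        congr 2
        rw [show 4 * b * L * t = 4 * (b * L * t) by ring, Nat.add_mul_mod_self_left]
      rw [e1, e2]
      ring
    rw [sum_congr rfl h1, ← mul_sum, legendre_ap_sum hℓ hℓ2, mul_zero]
    have h4 : Nat.Coprime 4 ℓ := by
      rw [Nat.coprime_comm]
      have : Nat.Coprime ℓ 2 := (Nat.coprime_primes hℓ Nat.prime_two).2 hℓ2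
      exact this.mul_right this
    exact (h4.mul_left hℓb.symm).mul_left hℓL.symm
  · refine sum_eq_zero fun t _ => ?_
    rw [jo, if_neg (fun h => hn0 ((hpar t).1 h))]

end Pool.Agent.K1H88.WS
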