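import Pool.Agent.K1H88.WS.Jac

set_option autoImplicit false

/-! Incomplete sums of Jacobi symbols along arithmetic progressions. -/

namespace Pool.Agent.K1H88.WS

open Finset

/-- a prime dividing exactly one of two different squarefree numbers -/
lemma exists_isolated {s s' : ℕ} (hs : Squarefree s) (hs' : Squarefree s') (hne : s ≠ s')
    (ho : Odd s) (ho' : Odd s') :
    ∃ ℓ b : ℕ, ℓ.Prime ∧ ℓ ≠ 2 ∧ Nat.Coprime ℓ b ∧ s * s' = ℓ * b ∧ 0 < b := by
  have key : ∀ s s' : ℕ, Squarefree s → Squarefree s' → Odd s → Odd s' →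
      (∃ ℓ, ℓ ∈ s.primeFactors ∧ ℓ ∉ s'.primeFactors) →
      ∃ ℓ b : ℕ, ℓ.Prime ∧ ℓ ≠ 2 ∧ Nat.Coprime ℓ b ∧ s * s' = ℓ * b ∧ 0 < b := by
    rintro s s' hs hs' ho ho' ⟨ℓ, h1, h2⟩
    rw [Nat.mem_primeFactors] at h1
    have hs0 : s' ≠ 0 := hs'.ne_zero
    obtain ⟨hp, ⟨c, hc⟩, hs1⟩ := h1
    have h3 : ¬ ℓ ∣ s' := fun h => h2 (Nat.mem_primeFactors.2 ⟨hp, h, hs0⟩)
    refine ⟨ℓ, c * s', hp, ?_, ?_, ?_, ?_⟩
    · rintro rfl
      rw [hc] at ho
      exact (Nat.not_even_iff_odd.2 ho) (even_two_mul c)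
    · refine Nat.Coprime.mul_right ?_ ((Nat.Prime.coprime_iff_not_dvd hp).2 h3)
      rw [hc] at hs
      exact (Nat.squarefree_mul_iff.1 hs).1
    · rw [hc]; ring
    · refine Nat.mul_pos (Nat.pos_of_ne_zero ?_) (Nat.pos_of_ne_zero hs0)
      rintro rfl
      exact hs1 (by rw [hc]; simp)
  by_cases h : s.primeFactors ⊆ s'.primeFactors
  · by_cases h' : s'.primeFactors ⊆ s.primeFactors
    · exfalso
      apply hne
      rw [← Nat.prod_primeFactors_of_squarefree hs, ← Nat.prod_primeFactors_of_squarefree hs',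
        Subset.antisymm h h']
    · rw [Finset.not_subset] at h'
      obtain ⟨ℓ, b, h1, h2, h3, h4, h5⟩ := key s' s hs' hs ho' ho h'
      exact ⟨ℓ, b, h1, h2, h3, by rw [mul_comm]; exact h4, h5⟩
  · rw [Finset.not_subset] at h
    exact key s s' hs hs' ho ho' h

/-- incomplete sums along a progression -/
lemma ap_sum {s s' L : ℕ} (hs : Squarefree s) (hs' : Squarefree s') (hne : s ≠ s')
    (ho : Odd s) (ho' : Odd s') (hL : Nat.Coprime s L) (hL' : Nat.Coprime s' L) (r0 K : ℕ) :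
    |((∑ k ∈ range K, jo (s * s') (r0 + L * k) : ℤ) : ℝ)| ≤ 4 * (s * s') := by
  obtain ⟨ℓ, b, hℓ, hℓ2, hco, hab, hb0⟩ := exists_isolated hs hs' hne ho ho'
  have hℓL : Nat.Coprime ℓ L := by
    have h1 : ℓ ∣ s * s' := ⟨b, hab⟩
    exact Nat.Coprime.coprime_dvd_left h1 (Nat.Coprime.mul_left hL hL')
  have hP : 0 < 4 * (s * s') := by
    rw [hab]
    have := hℓ.pos
    positivity
  have hF : ∀ k, jo (s * s') (r0 + L * (k + 4 * (s * s'))) = jo (s * s') (r0 + L * k) := by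
    intro k
    rw [← jo_periodic (s * s') (r0 + L * k) L]
    congr 1
    ring
  have hz : ∑ k ∈ range (4 * (s * s')), jo (s * s') (r0 + L * k) = 0 := by
    rw [hab, show 4 * (ℓ * b) = 4 * b * ℓ by ring, sum_range_split]
    refine sum_eq_zero fun k1 _ => ?_
    rw [← complete_zero hℓ hℓ2 hco hℓL (r0 + L * k1)]
    refine sum_congr rfl fun t _ => ?_
    congr 1
    ring
  have h := periodic_sum_le (F := fun k => jo (s * s') (r0 + L * k)) hP hF (A := 0)
    (B := ((4 * (s * s') : ℕ) : ℝ)) (by rw [hz]; simp) (fun k => jo_abs_le _ _) rfl K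
  refine h.trans ?_
  push_cast
  simp

end Pool.Agent.K1H88.WS
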