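import Pool.Agent.K1H88.WS.Def
import Pool.Agent.W57.SW.GroupSq

set_option autoImplicit false

/-! The exponent of the group generated by the small odd primes. -/

namespace Pool.Agent.K1H88.WS

open Finset Real Pool.Agent.W57.SW

/-- the least common multiple of the orders of the small odd primes modulo `D` -/
noncomputable def Lam (x D : ℕ) : ℕ := (Vs x).lcm (fun ℓ => orderOf (ℓ : ZMod D))

lemma lam_dvd {x D k : ℕ} (h : ∀ ℓ ∈ Vs x, (ℓ : ZMod D) ^ k = 1) : Lam x D ∣ k :=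
  Finset.lcm_dvd fun ℓ hℓ => orderOf_dvd_of_pow_eq_one (h ℓ hℓ)

lemma pow_lam {x D : ℕ} : ∀ s : ℕ, 1 ≤ s → (∀ p : ℕ, p.Prime → p ∣ s → p ∈ Vs x) →
    (s : ZMod D) ^ Lam x D = 1 := by
  intro s hs hp
  refine pow_eq_one_of_primes s hs fun p hpp hps => ?_
  exact orderOf_dvd_iff_pow_eq_one.1 (Finset.dvd_lcm (f := fun ℓ : ℕ => orderOf (ℓ : ZMod D))
    (hp p hpp hps))

lemma lam_dvd_lam {x D q : ℕ} (h : q ∣ D) : Lam x q ∣ Lam x D := by
  refine lam_dvd fun ℓ hℓ => ?_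
  have h1 : (ℓ : ZMod D) ^ Lam x D = 1 := orderOf_dvd_iff_pow_eq_one.1
    (Finset.dvd_lcm (f := fun ℓ : ℕ => orderOf (ℓ : ZMod D)) hℓ)
  have h2 := congrArg (ZMod.castHom h (ZMod q)) h1
  rwa [map_pow, map_natCast, map_one] at h2

/-- the order divides `q - 1` -/
lemma lam_dvd_pred {x q : ℕ} (hq : q.Prime) (h : Nz x q) : Lam x q ∣ q - 1 := by
  refine lam_dvd fun ℓ hℓ => ?_
  have := Fact.mk hq
  apply ZMod.pow_card_sub_one_eq_one
  intro h0
  rw [ZMod.natCast_eq_zero_iff] at h0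
  exact h ℓ hℓ (by
    have h1 := (Nat.prime_dvd_prime_iff_eq hq (mem_Vs.1 hℓ).1).1 h0
    rw [h1])

lemma lam_pos {x q : ℕ} (hq : q.Prime) (h : Nz x q) : 0 < Lam x q :=
  Nat.pos_of_dvd_of_pos (lam_dvd_pred hq h) (Nat.sub_pos_of_lt hq.one_lt)

/-- the number of solutions of `z ^ T = 1` modulo a prime -/
lemma card_roots_le {q T : ℕ} (hq : q.Prime) (hT : 0 < T) (S : Finset (ZMod q))
    (hS : ∀ z ∈ S, z ^ T = 1) : S.card ≤ T := by
  classical
  have := Fact.mk hq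
  have h1 : S ⊆ (Polynomial.nthRoots T (1 : ZMod q)).toFinset := by
    intro z hz
    rw [Multiset.mem_toFinset, Polynomial.mem_nthRoots hT]
    exact hS z hz
  exact (card_le_card h1).trans ((Multiset.toFinset_card_le _).trans
    (Polynomial.card_nthRoots T 1))

/-- the lower bound for the order modulo a prime -/
theorem lam_lower (δ : ℝ) (hδ : 0 < δ) : ∃ D0 : ℕ, ∀ x q : ℕ, q.Prime → D0 ≤ q → q ≤ x →
    Nz x q → (q : ℝ) ^ (1 / 2 - δ) ≤ (Lam x q : ℝ) := by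
  classical
  obtain ⟨D0, hD0⟩ := smooth_avoid 2 δ 0 (by norm_num) hδ le_rfl
  refine ⟨D0, fun x q hq hDq hqx hnz => ?_⟩
  obtain ⟨S, hS1, hS2⟩ := hD0 q hDq ∅ (by simp)
  have e : (1 : ℝ) - 1 / 2 - δ = 1 / 2 - δ := by ring
  rw [e] at hS2
  refine hS2.trans ?_
  have hq0 : (0 : ℝ) < q := by exact_mod_cast hq.pos
  have hlog : (log (q : ℝ)) ^ (2 : ℝ) ≤ (log (x : ℝ)) ^ (2 : ℝ) :=
    rpow_le_rpow (log_natCast_nonneg q) (log_le_log hq0 (by exact_mod_cast hqx)) (by norm_num)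
  have hSV : ∀ s ∈ S, ∀ p : ℕ, p.Prime → p ∣ s → p ∈ Vs x := by
    intro s hs p hp hps
    obtain ⟨_, _, ho, _, h5⟩ := hS1 s hs
    rw [mem_Vs]
    refine ⟨hp, (h5 p hp hps).1.trans hlog, ?_⟩
    rintro rfl
    exact (Nat.not_even_iff_odd.2 ho) (even_iff_two_dvd.2 hps)
  have hinj : Set.InjOn (fun s : ℕ => (s : ZMod q)) (S : Set ℕ) := by
    intro s hs s' hs' h
    simp only at h
    rw [ZMod.natCast_eq_natCast_iff] at h
    obtain ⟨a1, a2, _⟩ := hS1 s hs
    obtain ⟨b1, b2, _⟩ := hS1 s' hs'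
    have h2 : (s - 1) ≡ (s' - 1) [MOD q] := by
      have e1 : s = (s - 1) + 1 := by omega
      have e2 : s' = (s' - 1) + 1 := by omega
      rw [e1, e2] at h
      exact Nat.ModEq.add_right_cancel' 1 h
    have h3 := Nat.ModEq.eq_of_lt_of_lt h2 (by omega) (by omega)
    omega
  have h1 : (S.image (fun s : ℕ => (s : ZMod q))).card = S.card := card_image_of_injOn hinj
  rw [← h1]
  have h2 := card_roots_le hq (lam_pos hq hnz) (S.image (fun s : ℕ => (s : ZMod q))) (by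
    intro z hz
    rw [mem_image] at hz
    obtain ⟨s, hs, rfl⟩ := hz
    exact pow_lam s (hS1 s hs).1 (hSV s hs))
  exact_mod_cast h2

/-- pairs of elements with equal images -/
lemma pairs_lower {α : Type*} [DecidableEq α] (S : Finset ℕ) (φ : ℕ → α) (t : ℕ)
    (h : (S.image φ).card ≤ t) :
    ((S.card : ℝ)) ^ 2 ≤ t * ∑ s ∈ S, ∑ s' ∈ S, (if φ s = φ s' then (1 : ℝ) else 0) := by
  have h1 : ∑ s ∈ S, ∑ s' ∈ S, (if φ s = φ s' then (1 : ℝ) else 0) =
      ∑ z ∈ S.image φ, ((S.filter (fun s => φ s = z)).card : ℝ) ^ 2 := by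
    have h2 : ∀ s ∈ S, ∑ s' ∈ S, (if φ s = φ s' then (1 : ℝ) else 0) =
        ((S.filter (fun s' => φ s' = φ s)).card : ℝ) := by
      intro s _
      rw [← sum_filter, sum_const, nsmul_eq_mul, mul_one]
      congr 3
      ext a
      exact eq_comm
    rw [sum_congr rfl h2]
    rw [Finset.sum_comp (fun z => ((S.filter (fun s' => φ s' = z)).card : ℝ)) φ]
    refine sum_congr rfl fun z _ => ?_
    rw [nsmul_eq_mul, sq]
  have h2 : (S.card : ℝ) = ∑ z ∈ S.image φ, ((S.filter (fun s => φ s = z)).card : ℝ) := by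
    have := Finset.card_eq_sum_card_image φ S
    exact_mod_cast this
  rw [h1, h2]
  refine (sq_sum_le_card_mul_sum_sq).trans ?_
  apply mul_le_mul_of_nonneg_right _ (sum_nonneg fun _ _ => sq_nonneg _)
  exact_mod_cast h

/-- few primes modulo which the small odd primes generate a small group -/
theorem ord_count (ε : ℝ) (hε : 0 < ε) : ∃ C : ℝ, 0 < C ∧ ∀ x : ℕ, 1 ≤ x → ∀ t : ℕ, 1 ≤ t →
    t ≤ x → ∀ P : Finset ℕ, (∀ p ∈ P, p.Prime ∧ p ≤ x ∧ Nz x p ∧ Lam x p ≤ t) →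
    (P.card : ℝ) ≤ C * t * (x : ℝ) ^ ε := by
  classical
  obtain ⟨D0, hD0⟩ := smooth_avoid (7 / 4) (1 / 35) 0 (by norm_num) (by norm_num) le_rfl
  have hev1 : ∀ᶠ q : ℝ in Filter.atTop, 16 ≤ (log q) ^ (1 / 4 : ℝ) :=
    ((tendsto_rpow_atTop (by norm_num)).comp tendsto_log_atTop).eventually
      (Filter.eventually_ge_atTop _)
  have hev2 : ∀ᶠ q : ℝ in Filter.atTop, 12 * log q ≤ q ^ ε := by
    have h := (isLittleO_log_rpow_atTop hε).def (show (0 : ℝ) < 1 / 12 by norm_num)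
    filter_upwards [h, Filter.eventually_ge_atTop 1] with q hq hq1
    rw [norm_of_nonneg (log_nonneg hq1), norm_of_nonneg (by positivity)] at hq
    linarith
  have hev3 : ∀ᶠ q : ℝ in Filter.atTop, (D0 : ℝ) + 64 ≤ q := Filter.eventually_ge_atTop _
  obtain ⟨Y, hY⟩ := Filter.eventually_atTop.mp (hev1.and (hev2.and hev3))
  refine ⟨(⌈Y⌉₊ : ℝ) + 2, by positivity, ?_⟩
  intro x hx1 t ht1 htx P hP
  have hceil : (0 : ℝ) ≤ (⌈Y⌉₊ : ℝ) := Nat.cast_nonneg _
  have hx1' : (1 : ℝ) ≤ x := by exact_mod_cast hx1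
  have hxpos : (0 : ℝ) < x := by linarith
  have ht1' : (1 : ℝ) ≤ t := by exact_mod_cast ht1
  have htx' : (t : ℝ) ≤ x := by exact_mod_cast htx
  have hxe : (1 : ℝ) ≤ (x : ℝ) ^ ε := one_le_rpow hx1' hε.le
  rcases lt_or_ge x ⌈Y⌉₊ with hsm | hlg
  · have h1 : P ⊆ Icc 1 x := fun p hp => mem_Icc.2 ⟨(hP p hp).1.one_lt.le, (hP p hp).2.1⟩
    have h2 := card_le_card h1
    rw [Nat.card_Icc, Nat.add_sub_cancel] at h2
    have h3 : (P.card : ℝ) ≤ ⌈Y⌉₊ := by exact_mod_cast h2.trans hsm.le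
    calc (P.card : ℝ) ≤ ((⌈Y⌉₊ : ℝ) + 2) * 1 * 1 := by linarith
      _ ≤ _ := by
        apply mul_le_mul _ hxe (by norm_num) (by positivity)
        exact mul_le_mul_of_nonneg_left ht1' (by positivity)
  obtain ⟨c1, c2, c3⟩ := hY x ((Nat.le_ceil Y).trans (by exact_mod_cast hlg))
  have hD00 : (0 : ℝ) ≤ D0 := Nat.cast_nonneg _
  -- the length
  obtain ⟨M, hM⟩ : ∃ M : ℕ, M = t * x ^ 3 := ⟨_, rfl⟩
  have hx64 : (64 : ℝ) ≤ x := by linarith
  have hMx4 : (M : ℝ) ≤ (x : ℝ) ^ 4 := by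
    rw [hM]; push_cast
    calc (t : ℝ) * (x : ℝ) ^ 3 ≤ x * (x : ℝ) ^ 3 := by gcongr
      _ = _ := by ring
  have hxM : x ≤ M := by
    rw [hM]
    calc x = 1 * x ^ 1 := by ring
      _ ≤ t * x ^ 3 := Nat.mul_le_mul ht1 (Nat.pow_le_pow_right hx1 (by norm_num))
  have hM0 : (0 : ℝ) < M := by exact_mod_cast (by omega : 0 < M)
  have hDM : D0 ≤ M := by
    have : (D0 : ℝ) ≤ x := by linarith
    have : D0 ≤ x := by exact_mod_cast this
    omega
  have hlogx : 0 ≤ log (x : ℝ) := log_natCast_nonneg x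
  have hlogx0 : 0 < log (x : ℝ) := log_pos (by linarith)
  have hlogM : log (M : ℝ) ≤ 4 * log x := by
    have := log_le_log hM0 hMx4
    rwa [log_pow] at this
  have hlog : (log (M : ℝ)) ^ (7 / 4 : ℝ) ≤ (log (x : ℝ)) ^ (2 : ℝ) := by
    have h1 : (log (M : ℝ)) ^ (7 / 4 : ℝ) ≤ (4 * log x) ^ (7 / 4 : ℝ) :=
      rpow_le_rpow (log_natCast_nonneg M) hlogM (by norm_num)
    refine h1.trans ?_
    rw [mul_rpow (by norm_num) hlogx]
    have h2 : (4 : ℝ) ^ (7 / 4 : ℝ) ≤ 16 := by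
      calc (4 : ℝ) ^ (7 / 4 : ℝ) ≤ (4 : ℝ) ^ (2 : ℝ) :=
            rpow_le_rpow_of_exponent_le (by norm_num) (by norm_num)
        _ = 16 := by norm_num
    calc (4 : ℝ) ^ (7 / 4 : ℝ) * (log (x : ℝ)) ^ (7 / 4 : ℝ) ≤
        (log (x : ℝ)) ^ (1 / 4 : ℝ) * (log (x : ℝ)) ^ (7 / 4 : ℝ) :=
          mul_le_mul_of_nonneg_right (h2.trans c1) (by positivity)
      _ = (log (x : ℝ)) ^ (2 : ℝ) := by
          rw [← rpow_add hlogx0]; norm_num
  obtain ⟨S, hS1, hS2⟩ := hD0 M hDM ∅ (by simp)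
  have hSV : ∀ s ∈ S, ∀ p : ℕ, p.Prime → p ∣ s → p ∈ Vs x := by
    intro s hs p hp hps
    obtain ⟨_, _, ho, _, h5⟩ := hS1 s hs
    rw [mem_Vs]
    refine ⟨hp, (h5 p hp hps).1.trans hlog, ?_⟩
    rintro rfl
    exact (Nat.not_even_iff_odd.2 ho) (even_iff_two_dvd.2 hps)
  have hS2t : 2 * (t : ℝ) ≤ S.card := by
    refine le_trans ?_ hS2
    have e : (1 : ℝ) - 1 / (7 / 4) - 1 / 35 = 2 / 5 := by norm_num
    rw [e]
    have h1 : ((2 * (t : ℝ)) ^ (5 / 2 : ℝ)) ≤ M := by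
      have h2 : (2 : ℝ) ^ (5 / 2 : ℝ) ≤ 8 := by
        calc (2 : ℝ) ^ (5 / 2 : ℝ) ≤ (2 : ℝ) ^ (3 : ℝ) :=
              rpow_le_rpow_of_exponent_le (by norm_num) (by norm_num)
          _ = 8 := by norm_num
      have h3 : (t : ℝ) ^ (5 / 2 : ℝ) ≤ t * (x : ℝ) ^ 2 := by
        calc (t : ℝ) ^ (5 / 2 : ℝ) ≤ (t : ℝ) ^ (3 : ℝ) :=
              rpow_le_rpow_of_exponent_le ht1' (by norm_num)
          _ = t * (t : ℝ) ^ 2 := by
              rw [show (3 : ℝ) = ((3 : ℕ) : ℝ) by norm_num, rpow_natCast]; ring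
          _ ≤ _ := by gcongr
      rw [mul_rpow (by norm_num) (by positivity), hM]
      push_cast
      calc (2 : ℝ) ^ (5 / 2 : ℝ) * (t : ℝ) ^ (5 / 2 : ℝ) ≤ x * (t * (x : ℝ) ^ 2) := by
            apply mul_le_mul (by linarith) h3 (by positivity) hxpos.le
        _ = _ := by ring
    calc 2 * (t : ℝ) = ((2 * (t : ℝ)) ^ (5 / 2 : ℝ)) ^ (2 / 5 : ℝ) := by
          rw [← rpow_mul (by positivity)]; norm_num
      _ ≤ (M : ℝ) ^ (2 / 5 : ℝ) := rpow_le_rpow (by positivity) h1 (by norm_num)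
  have hSpos : (0 : ℝ) < S.card := by linarith
  -- pairs
  have hpair : ∀ p ∈ P, (S.card : ℝ) ^ 2 / (2 * t) ≤
      ∑ s ∈ S, ∑ s' ∈ S, (if s ≠ s' ∧ (s : ZMod p) = (s' : ZMod p) then (1 : ℝ) else 0) := by
    intro p hp
    obtain ⟨hpp, hpx, hnz, hlam⟩ := hP p hp
    have h1 := card_roots_le hpp (lam_pos hpp hnz) (S.image (fun s : ℕ => (s : ZMod p))) (by
      intro z hz
      rw [mem_image] at hz
      obtain ⟨s, hs, rfl⟩ := hz
      exact pow_lam s (hS1 s hs).1 (hSV s hs))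
    have h2 := pairs_lower S (fun s : ℕ => (s : ZMod p)) t (h1.trans hlam)
    have h3 : ∑ s ∈ S, ∑ s' ∈ S, (if (s : ZMod p) = (s' : ZMod p) then (1 : ℝ) else 0) =
        ∑ s ∈ S, ∑ s' ∈ S, (if s ≠ s' ∧ (s : ZMod p) = (s' : ZMod p) then (1 : ℝ) else 0) +
          S.card := by
      have h4 : (S.card : ℝ) = ∑ s ∈ S, ∑ s' ∈ S, (if s = s' then (1 : ℝ) else 0) := by
        have h5 : ∀ s ∈ S, ∑ s' ∈ S, (if s = s' then (1 : ℝ) else 0) = 1 := by
          intro s hs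
          rw [sum_ite_eq, if_pos hs]
        rw [sum_congr rfl h5]; simp
      rw [h4, ← sum_add_distrib]
      refine sum_congr rfl fun s _ => ?_
      rw [← sum_add_distrib]
      refine sum_congr rfl fun s' _ => ?_
      by_cases h6 : s = s'
      · simp [h6]
      · simp [h6]
    rw [h3] at h2
    have h5 : (S.card : ℝ) * t ≤ (S.card : ℝ) ^ 2 / 2 := by nlinarith
    rw [div_le_iff₀ (by positivity)]
    nlinarith
  have hsum := sum_le_sum hpair
  rw [sum_const, nsmul_eq_mul] at hsum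
  have h1 : ∑ p ∈ P, ∑ s ∈ S, ∑ s' ∈ S,
      (if s ≠ s' ∧ (s : ZMod p) = (s' : ZMod p) then (1 : ℝ) else 0) ≤
      (S.card : ℝ) ^ 2 * (6 * log x) := by
    rw [sum_comm]
    have h2 : ∀ s ∈ S, ∑ p ∈ P, ∑ s' ∈ S,
        (if s ≠ s' ∧ (s : ZMod p) = (s' : ZMod p) then (1 : ℝ) else 0) ≤
        (S.card : ℝ) * (6 * log x) := by
      intro s hs
      rw [sum_comm, ← nsmul_eq_mul, ← sum_const]
      refine sum_le_sum fun s' hs' => ?_
      by_cases hss : s = s'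
      · simp [hss]; positivity
      · have h3 : ∑ p ∈ P, (if s ≠ s' ∧ (s : ZMod p) = (s' : ZMod p) then (1 : ℝ) else 0) ≤
            ((((s : ℤ) - s').natAbs).primeFactors.card : ℝ) := by
          rw [← sum_filter, sum_const, nsmul_eq_mul, mul_one]
          have : P.filter (fun p => s ≠ s' ∧ (s : ZMod p) = (s' : ZMod p)) ⊆
              (((s : ℤ) - s').natAbs).primeFactors := by
            intro p hp
            rw [mem_filter] at hp
            obtain ⟨hpP, _, h4⟩ := hp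
            rw [Nat.mem_primeFactors]
            refine ⟨(hP p hpP).1, ?_, ?_⟩
            · have h5 : ((s : ℤ) : ZMod p) = ((s' : ℤ) : ZMod p) := by exact_mod_cast h4
              rw [ZMod.intCast_eq_intCast_iff_dvd_sub] at h5
              rw [← Int.natCast_dvd, ← Int.dvd_neg]
              have : -((s : ℤ) - s') = s' - s := by ring
              rw [this]; exact h5
            · rw [Int.natAbs_ne_zero]
              intro h; apply hss
              exact_mod_cast sub_eq_zero.1 h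
          exact_mod_cast card_le_card this
        refine h3.trans ?_
        have h5 : 1 ≤ ((s : ℤ) - s').natAbs := by
          rw [Nat.one_le_iff_ne_zero, Int.natAbs_ne_zero]
          intro h; apply hss
          exact_mod_cast sub_eq_zero.1 h
        refine (card_primeFactors_le h5).trans ?_
        have h6 : ((s : ℤ) - s').natAbs ≤ M := by
          have a1 := (hS1 s hs).2.1
          have a2 := (hS1 s' hs').2.1
          omega
        have h7 : log ((((s : ℤ) - s').natAbs : ℕ) : ℝ) ≤ log M :=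
          log_le_log (by exact_mod_cast h5) (by exact_mod_cast h6)
        linarith
    refine (sum_le_sum h2).trans ?_
    rw [sum_const, nsmul_eq_mul]
    apply le_of_eq; ring
  have h2 := hsum.trans h1
  have h3 : (P.card : ℝ) ≤ 2 * t * (6 * log x) := by
    have h4 : (S.card : ℝ) ^ 2 * P.card ≤ (S.card : ℝ) ^ 2 * (2 * t * (6 * log x)) := by
      have h5 : (P.card : ℝ) * ((S.card : ℝ) ^ 2 / (2 * t)) * (2 * t) ≤
          (S.card : ℝ) ^ 2 * (6 * log x) * (2 * t) :=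
        mul_le_mul_of_nonneg_right h2 (by positivity)
      have h6 : (P.card : ℝ) * ((S.card : ℝ) ^ 2 / (2 * t)) * (2 * t) =
          (S.card : ℝ) ^ 2 * P.card := by field_simp
      rw [h6] at h5
      calc _ ≤ _ := h5
        _ = _ := by ring
    exact le_of_mul_le_mul_left h4 (by positivity)
  calc (P.card : ℝ) ≤ t * (12 * log x) := by linarith
    _ ≤ t * (x : ℝ) ^ ε := mul_le_mul_of_nonneg_left c2 (by positivity)
    _ = 1 * t * (x : ℝ) ^ ε := by ring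
    _ ≤ _ := by
      apply mul_le_mul_of_nonneg_right _ (by positivity)
      apply mul_le_mul_of_nonneg_right _ (by positivity)
      linarith

end Pool.Agent.K1H88.WS
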