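import Pool.Agent.K1H88.WS.Def

set_option autoImplicit false

/-! Sums of Jacobi symbols of the products `(1 + g a) (1 + g b)`. -/

namespace Pool.Agent.K1H88.WS

open Finset Real

/-- the product of two linear forms -/
def NN (a b g : ℕ) : ℕ := (1 + g * a) * (1 + g * b)

/-- complete sum of a product of two linear forms modulo a prime -/
lemma quad_complete {ℓ : ℕ} [Fact ℓ.Prime] (hℓ2 : ℓ ≠ 2) (a b : ZMod ℓ) (ha : a ≠ 0) (hb : b ≠ 0)
    (hab : a ≠ b) :
    |∑ z : ZMod ℓ, quadraticChar (ZMod ℓ) ((1 + z * a) * (1 + z * b))| ≤ 1 := by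
  have hF : ringChar (ZMod ℓ) ≠ 2 := by rw [ZMod.ringChar_zmod_n]; exact hℓ2
  have hba : b - a ≠ 0 := sub_ne_zero.2 (Ne.symm hab)
  set χ := quadraticChar (ZMod ℓ) with hχ
  have hJ : jacobiSum χ χ = -χ (-1) := by
    have h1 := jacobiSum_nontrivial_inv (quadraticChar_ne_one hF)
    rwa [(quadraticChar_isQuadratic (F := ZMod ℓ)).inv] at h1
  have e1 : ∀ z : ZMod ℓ, χ ((1 + z * a) * (1 + z * b)) = χ (-(a * b)) *
      (χ (b * (1 + z * a) / (b - a)) * χ (1 - b * (1 + z * a) / (b - a))) := by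
    intro z
    rw [← map_mul, ← map_mul χ (-(a * b))]
    have e2 : -(a * b) * (b * (1 + z * a) / (b - a) * (1 - b * (1 + z * a) / (b - a))) =
        ((1 + z * a) * (1 + z * b)) * (a * b / (b - a)) ^ 2 := by
      field_simp
      ring
    rw [e2, map_mul χ ((1 + z * a) * (1 + z * b)), map_pow]
    have e3 : χ (a * b / (b - a)) ^ 2 = 1 := by
      rw [hχ]
      apply quadraticChar_sq_one
      exact div_ne_zero (mul_ne_zero ha hb) hba
    rw [e3, mul_one]
  rw [sum_congr rfl fun z _ => e1 z, ← mul_sum]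
  have e4 : ∑ z : ZMod ℓ, χ (b * (1 + z * a) / (b - a)) * χ (1 - b * (1 + z * a) / (b - a)) =
      jacobiSum χ χ := by
    unfold jacobiSum
    refine Fintype.sum_bijective (fun z : ZMod ℓ => b * (1 + z * a) / (b - a)) ?_ _ _ ?_
    · constructor
      · intro u v huv
        simp only at huv
        field_simp at huv
        have h6 : a * (u - v) = 0 := by linear_combination huv
        rcases mul_eq_zero.1 h6 with h7 | h7
        · exact absurd h7 ha
        · exact sub_eq_zero.1 h7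
      · intro w
        refine ⟨(w * (b - a) / b - 1) / a, ?_⟩
        simp only
        field_simp
        ring
    · intro z; rfl
  rw [e4, hJ, abs_mul, abs_neg]
  have h5 : ∀ w : ZMod ℓ, |χ w| ≤ 1 := by
    intro w
    rcases quadraticChar_isQuadratic (F := ZMod ℓ) w with h | h | h <;> rw [hχ, h] <;> norm_num
  calc |χ (-(a * b))| * |χ (-1)| ≤ 1 * 1 :=
        mul_le_mul (h5 _) (h5 _) (abs_nonneg _) (by norm_num)
    _ = 1 := by norm_num

lemma NN_modEq {a b g g' m : ℕ} (h : g ≡ g' [MOD m]) : NN a b g ≡ NN a b g' [MOD m] := by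
  unfold NN
  exact Nat.ModEq.mul (Nat.ModEq.add_left 1 (h.mul_right a)) (Nat.ModEq.add_left 1 (h.mul_right b))

lemma jac_congr {x y m : ℕ} (h : x ≡ y [MOD m]) :
    jacobiSym ((x : ℕ) : ℤ) m = jacobiSym ((y : ℕ) : ℤ) m := by
  apply jacobiSym.mod_left'
  exact_mod_cast congrArg (fun z : ℕ => (z : ℤ)) h

/-- complete sum along a progression modulo a prime -/
lemma quad_prime {ℓ a b v c : ℕ} (hℓ : ℓ.Prime) (hℓ2 : ℓ ≠ 2) (ha : ¬ ℓ ∣ a) (hb : ¬ ℓ ∣ b)
    (hab : (a : ZMod ℓ) ≠ (b : ZMod ℓ)) (hv : Nat.Coprime v ℓ) :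
    ∑ t ∈ range ℓ, jacobiSym ((NN a b (c + v * t) : ℕ) : ℤ) ℓ =
      ∑ t ∈ range ℓ, jacobiSym ((NN a b t : ℕ) : ℤ) ℓ ∧
    |∑ t ∈ range ℓ, jacobiSym ((NN a b t : ℕ) : ℤ) ℓ| ≤ 1 := by
  have := Fact.mk hℓ
  have h1 : ∀ n : ℕ, jacobiSym ((NN a b n : ℕ) : ℤ) ℓ =
      quadraticChar (ZMod ℓ) ((1 + (n : ZMod ℓ) * (a : ZMod ℓ)) *
        (1 + (n : ZMod ℓ) * (b : ZMod ℓ))) := by
    intro n
    rw [← jacobiSym.legendreSym.to_jacobiSym, legendreSym, NN]
    push_cast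
    rfl
  have hv0 : (v : ZMod ℓ) ≠ 0 := by
    intro h
    rw [ZMod.natCast_eq_zero_iff] at h
    exact (Nat.Prime.coprime_iff_not_dvd hℓ).1 hv.symm h
  have e0 : ∑ t ∈ range ℓ, jacobiSym ((NN a b t : ℕ) : ℤ) ℓ =
      ∑ z : ZMod ℓ, quadraticChar (ZMod ℓ) ((1 + z * (a : ZMod ℓ)) * (1 + z * (b : ZMod ℓ))) := by
    rw [← sum_range_zmod (fun z : ZMod ℓ =>
      quadraticChar (ZMod ℓ) ((1 + z * (a : ZMod ℓ)) * (1 + z * (b : ZMod ℓ))))]
    exact sum_congr rfl fun t _ => h1 t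
  constructor
  · rw [e0]
    have e1 : ∑ t ∈ range ℓ, jacobiSym ((NN a b (c + v * t) : ℕ) : ℤ) ℓ =
        ∑ z : ZMod ℓ, quadraticChar (ZMod ℓ) ((1 + ((c : ZMod ℓ) + (v : ZMod ℓ) * z) *
          (a : ZMod ℓ)) * (1 + ((c : ZMod ℓ) + (v : ZMod ℓ) * z) * (b : ZMod ℓ))) := by
      rw [← sum_range_zmod (fun z : ZMod ℓ =>
        quadraticChar (ZMod ℓ) ((1 + ((c : ZMod ℓ) + (v : ZMod ℓ) * z) *
          (a : ZMod ℓ)) * (1 + ((c : ZMod ℓ) + (v : ZMod ℓ) * z) * (b : ZMod ℓ))))]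
      refine sum_congr rfl fun t _ => ?_
      rw [h1]
      push_cast
      rfl
    rw [e1]
    refine Fintype.sum_bijective (fun z : ZMod ℓ => (c : ZMod ℓ) + (v : ZMod ℓ) * z) ?_ _ _ ?_
    · constructor
      · intro x y hxy
        exact mul_left_cancel₀ hv0 (add_left_cancel hxy)
      · intro y
        exact ⟨(y - c) / v, by field_simp; ring⟩
    · intro z; rfl
  · rw [e0]
    apply quad_complete hℓ2 _ _ _ _ hab
    · rwa [Ne, ZMod.natCast_eq_zero_iff]
    · rwa [Ne, ZMod.natCast_eq_zero_iff]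

/-- complete sum along a progression modulo a squarefree number -/
lemma quad_mod (a b : ℕ) : ∀ d : ℕ, Squarefree d → Odd d →
    (∀ ℓ : ℕ, ℓ.Prime → ℓ ∣ d → ¬ ℓ ∣ a ∧ ¬ ℓ ∣ b ∧ (a : ZMod ℓ) ≠ (b : ZMod ℓ)) →
    ∀ n0 u : ℕ, Nat.Coprime u d →
    |∑ t ∈ range d, jacobiSym ((NN a b (n0 + u * t) : ℕ) : ℤ) d| ≤ 1 := by
  intro d
  induction d using Nat.strong_induction_on with
  | _ d ih =>
    intro hsq hodd hpr n0 u hu
    rcases eq_or_ne d 1 with h1 | h1
    · subst h1; simp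
    · have hmp := Nat.minFac_prime h1
      obtain ⟨d', hd⟩ := Nat.minFac_dvd d
      obtain ⟨ℓ, hℓ⟩ : ∃ ℓ, ℓ = d.minFac := ⟨_, rfl⟩
      rw [← hℓ] at hmp hd
      have hd0 : d ≠ 0 := hsq.ne_zero
      have hd'0 : d' ≠ 0 := by rintro rfl; exact hd0 (by rw [hd]; simp)
      have hco : Nat.Coprime ℓ d' := by
        rw [hd] at hsq
        exact (Nat.squarefree_mul_iff.1 hsq).1
      have hℓd : ℓ ∣ d := ⟨d', hd⟩
      have hd'd : d' ∣ d := ⟨ℓ, by rw [hd]; ring⟩
      have hℓ2 : ℓ ≠ 2 := by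
        rintro h2
        rw [h2] at hℓd
        exact (Nat.not_even_iff_odd.2 hodd) (even_iff_two_dvd.2 hℓd)
      have hlt : d' < d := by
        rw [hd]; exact lt_mul_of_one_lt_left (Nat.pos_of_ne_zero hd'0) hmp.one_lt
      obtain ⟨p1, p2, p3⟩ := hpr ℓ hmp hℓd
      have huℓ : Nat.Coprime u ℓ := Nat.Coprime.coprime_dvd_right hℓd hu
      have hud' : Nat.Coprime u d' := Nat.Coprime.coprime_dvd_right hd'd hu
      have hih := ih d' hlt (hsq.squarefree_of_dvd hd'd) (Odd.of_dvd_nat hodd hd'd)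
        (fun q hq hqd => hpr q hq (hqd.trans hd'd)) n0 u hud'
      have hNe : NeZero ℓ := ⟨hmp.ne_zero⟩
      have hNe' : NeZero d' := ⟨hd'0⟩
      have e1 : ∑ t ∈ range d, jacobiSym ((NN a b (n0 + u * t) : ℕ) : ℤ) d =
          (∑ k1 ∈ range d', jacobiSym ((NN a b (n0 + u * k1) : ℕ) : ℤ) d') *
            ∑ t ∈ range ℓ, jacobiSym ((NN a b t : ℕ) : ℤ) ℓ := by
        have e2 : range d = range (d' * ℓ) := by rw [hd, mul_comm]
        rw [e2, sum_range_split, sum_mul]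
        refine sum_congr rfl fun k1 _ => ?_
        rw [← (quad_prime (c := n0 + u * k1) (v := u * d') hmp hℓ2 p1 p2 p3
          (Nat.Coprime.mul_left huℓ hco.symm)).1, mul_sum]
        refine sum_congr rfl fun t _ => ?_
        conv_lhs => rw [hd, jacobiSym.mul_right]
        rw [mul_comm]
        congr 1
        · apply jac_congr
          apply NN_modEq
          have e3 : n0 + u * (k1 + d' * t) = (n0 + u * k1) + d' * (u * t) := by ring
          rw [e3]
          exact Nat.add_mul_mod_self_left _ _ _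
        · congr 2
          congr 1
          ring
      rw [e1, abs_mul]
      calc _ ≤ (1 : ℤ) * 1 := mul_le_mul hih (quad_prime (c := 0) (v := 1) hmp hℓ2 p1 p2 p3
              (by simp)).2 (abs_nonneg _) (by norm_num)
        _ = 1 := by norm_num

end Pool.Agent.K1H88.WS
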