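import Pool.Agent.K1H88.WS.Quad

set_option autoImplicit false

/-! Incomplete sums of Jacobi symbols of `(1 + g a) (1 + g b)`. -/

namespace Pool.Agent.K1H88.WS

open Finset Real

/-- the product of the parts of `s`, `s'` outside of their greatest common divisor -/
def dd (s s' : ℕ) : ℕ := (s / Nat.gcd s s') * (s' / Nat.gcd s s')

lemma dd_spec {s s' : ℕ} (hs : Squarefree s) (hs' : Squarefree s') :
    s * s' = dd s s' * (Nat.gcd s s') ^ 2 ∧ Nat.Coprime (dd s s') (Nat.gcd s s') ∧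
      Squarefree (dd s s') ∧ dd s s' ∣ s * s' := by
  obtain ⟨k, hk⟩ : ∃ k, k = Nat.gcd s s' := ⟨_, rfl⟩
  have hs0 : s ≠ 0 := hs.ne_zero
  have hk0 : 0 < k := by rw [hk]; exact Nat.gcd_pos_of_pos_left _ (Nat.pos_of_ne_zero hs0)
  obtain ⟨a, ha⟩ : k ∣ s := by rw [hk]; exact Nat.gcd_dvd_left _ _
  obtain ⟨b, hb⟩ : k ∣ s' := by rw [hk]; exact Nat.gcd_dvd_right _ _
  have hdd : dd s s' = a * b := by
    unfold dd
    rw [← hk]
    congr 1
    · rw [ha, Nat.mul_div_cancel_left _ hk0]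
    · rw [hb, Nat.mul_div_cancel_left _ hk0]
  have hka : Nat.Coprime k a := by
    rw [ha] at hs; exact (Nat.squarefree_mul_iff.1 hs).1
  have hkb : Nat.Coprime k b := by
    rw [hb] at hs'; exact (Nat.squarefree_mul_iff.1 hs').1
  have hab : Nat.Coprime a b := by
    have h1 : Nat.gcd (k * a) (k * b) = k := by rw [← ha, ← hb]; exact hk.symm
    rw [Nat.gcd_mul_left] at h1
    exact Nat.eq_of_mul_eq_mul_left hk0 (by rw [h1, mul_one])
  have hsa : Squarefree a := by
    rw [ha] at hs; exact (Nat.squarefree_mul_iff.1 hs).2.2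
  have hsb : Squarefree b := by
    rw [hb] at hs'; exact (Nat.squarefree_mul_iff.1 hs').2.2
  rw [hdd, ← hk]
  refine ⟨?_, ?_, ?_, ?_⟩
  · rw [ha, hb]; ring
  · exact (Nat.Coprime.mul_left hka.symm hkb.symm)
  · exact (Nat.squarefree_mul hab).2 ⟨hsa, hsb⟩
  · exact mul_dvd_mul ⟨k, by rw [ha]; ring⟩ ⟨k, by rw [hb]; ring⟩

/-- incomplete sums -/
lemma quad_sum {s s' a b : ℕ} (hs : Squarefree s) (hs' : Squarefree s') (ho : Odd s)
    (ho' : Odd s') (hpr : ∀ ℓ : ℕ, ℓ.Prime → ℓ ∣ s * s' →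
      ¬ ℓ ∣ a ∧ ¬ ℓ ∣ b ∧ (a : ZMod ℓ) ≠ (b : ZMod ℓ)) (K : ℕ) :
    |((∑ g ∈ range K, jo (s * s') (NN a b g) : ℤ) : ℝ)| ≤
      (K : ℝ) / (dd s s' : ℕ) + 4 * (s * s') := by
  obtain ⟨h1, h2, h3, h4⟩ := dd_spec hs hs'
  obtain ⟨d, hd⟩ : ∃ d, d = dd s s' := ⟨_, rfl⟩
  obtain ⟨k, hk⟩ : ∃ k, k = Nat.gcd s s' := ⟨_, rfl⟩
  rw [← hd, ← hk] at h1 h2
  rw [← hd] at h3 h4 ⊢
  have hd0 : 0 < d := Nat.pos_of_ne_zero h3.ne_zero
  have hk0 : 0 < k := by
    rw [hk]; exact Nat.gcd_pos_of_pos_left _ (Nat.pos_of_ne_zero hs.ne_zero)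
  have hodd : Odd (s * s') := ho.mul ho'
  have hdo : Odd d := Odd.of_dvd_nat hodd h4
  have hF1 : ∀ n, jo (s * s') n = jo d n * (jo k n) ^ 2 := by
    intro n
    rw [h1, jo_mul, sq, sq, jo_mul]
  have hP : 0 < 4 * k * d := by positivity
  have hper : ∀ g, jo (s * s') (NN a b (g + 4 * k * d)) = jo (s * s') (NN a b g) := by
    intro g
    have e1 : NN a b (g + 4 * k * d) = NN a b g + 4 * k * (d * (a * (1 + g * b) +
        b * (1 + g * a) + 4 * k * d * a * b)) := by
      unfold NN; ring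
    have e2 : NN a b (g + 4 * k * d) = NN a b g + 4 * d * (k * (a * (1 + g * b) +
        b * (1 + g * a) + 4 * k * d * a * b)) := by
      unfold NN; ring
    rw [hF1, hF1]
    congr 1
    · rw [e2, jo_periodic]
    · rw [e1, jo_periodic]
  have hcop : Nat.Coprime (4 * k) d := by
    apply Nat.Coprime.mul_left _ h2.symm
    have : Nat.Coprime 2 d := by
      rw [Nat.coprime_two_left]; exact hdo
    exact this.mul_left this
  have hinner : ∀ g1 : ℕ, |∑ t ∈ range d, jo (s * s') (NN a b (g1 + 4 * k * t))| ≤ 1 := by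
    intro g1
    have e1 : ∀ t, NN a b (g1 + 4 * k * t) = NN a b g1 + 4 * k * (t * (a * (1 + g1 * b) +
        b * (1 + g1 * a) + 4 * k * t * a * b)) := by
      intro t; unfold NN; ring
    have hpar : ∀ t, Odd (NN a b (g1 + 4 * k * t)) ↔ Odd (NN a b g1) := by
      intro t
      rw [e1, show 4 * k * (t * (a * (1 + g1 * b) + b * (1 + g1 * a) + 4 * k * t * a * b)) =
        2 * (2 * k * (t * (a * (1 + g1 * b) + b * (1 + g1 * a) + 4 * k * t * a * b))) by ring,
        Nat.odd_iff, Nat.odd_iff]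
      omega
    by_cases hn : Odd (NN a b g1)
    · have e2 : ∀ t ∈ range d, jo (s * s') (NN a b (g1 + 4 * k * t)) =
          ((jo k (NN a b g1)) ^ 2 * qrSign (NN a b g1) d) *
            jacobiSym ((NN a b (g1 + 4 * k * t) : ℕ) : ℤ) d := by
        intro t _
        rw [hF1]
        have e3 : jo k (NN a b (g1 + 4 * k * t)) = jo k (NN a b g1) := by
          rw [e1, jo_periodic]
        have e4 : jo d (NN a b (g1 + 4 * k * t)) = qrSign (NN a b g1) d *
            jacobiSym ((NN a b (g1 + 4 * k * t) : ℕ) : ℤ) d := by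
          rw [jo, if_pos ((hpar t).2 hn)]
          rw [jacobiSym.quadratic_reciprocity' hdo ((hpar t).2 hn)]
          congr 1
          unfold qrSign
          congr 1
          rw [ZMod.χ₄_nat_mod_four, ZMod.χ₄_nat_mod_four (NN a b g1)]
          congr 2
          rw [e1, show 4 * k * (t * (a * (1 + g1 * b) + b * (1 + g1 * a) + 4 * k * t * a * b)) =
            4 * (k * (t * (a * (1 + g1 * b) + b * (1 + g1 * a) + 4 * k * t * a * b))) by ring,
            Nat.add_mul_mod_self_left]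
        rw [e3, e4]
        ring
      rw [sum_congr rfl e2, ← mul_sum, abs_mul]
      have e5 : |(jo k (NN a b g1)) ^ 2 * qrSign (NN a b g1) d| ≤ 1 := by
        rw [abs_mul, abs_pow]
        have h6 := jo_abs_le k (NN a b g1)
        have h7 : |qrSign (NN a b g1) d| ≤ 1 := by
          unfold qrSign
          rcases jacobiSym.trichotomy (ZMod.χ₄ (NN a b g1)) d with h | h | h <;>
            rw [h] <;> norm_num
        calc |jo k (NN a b g1)| ^ 2 * |qrSign (NN a b g1) d| ≤ 1 ^ 2 * 1 := by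
              gcongr
          _ = 1 := by norm_num
      calc _ ≤ (1 : ℤ) * 1 := mul_le_mul e5 (quad_mod a b d h3 hdo
            (fun ℓ hℓ hℓd => hpr ℓ hℓ (hℓd.trans h4)) g1 (4 * k) hcop) (abs_nonneg _) (by norm_num)
        _ = 1 := by norm_num
    · rw [sum_eq_zero]
      · norm_num
      · intro t _
        rw [jo, if_neg (fun h => hn ((hpar t).1 h))]
  have hA : |((∑ g ∈ range (4 * k * d), jo (s * s') (NN a b g) : ℤ) : ℝ)| ≤ 4 * k := by
    rw [sum_range_split]
    have h5 : |∑ k1 ∈ range (4 * k), ∑ t ∈ range d, jo (s * s') (NN a b (k1 + 4 * k * t))| ≤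
        4 * k := by
      refine (abs_sum_le_sum_abs _ _).trans ((sum_le_sum fun g1 _ => hinner g1).trans ?_)
      simp
    exact_mod_cast h5
  have h5 := periodic_sum_le (F := fun g => jo (s * s') (NN a b g)) hP hper (A := 4 * (k : ℝ))
    (B := ((4 * k * d : ℕ) : ℝ)) hA (fun g => jo_abs_le _ _) rfl K
  refine h5.trans ?_
  have hk0' : (0 : ℝ) < k := by exact_mod_cast hk0
  have hd0' : (0 : ℝ) < d := by exact_mod_cast hd0
  have e1 : 4 * (k : ℝ) * ((K : ℝ) / ((4 * k * d : ℕ) : ℝ)) = (K : ℝ) / d := by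
    push_cast
    field_simp
  rw [e1]
  have e2 : ((4 * k * d : ℕ) : ℝ) ≤ 4 * ((s : ℝ) * s') := by
    have h6 : (s : ℝ) * s' = d * (k : ℝ) ^ 2 := by exact_mod_cast h1
    rw [h6]
    push_cast
    have : (k : ℝ) ≤ (k : ℝ) ^ 2 := by
      have : (1 : ℝ) ≤ k := by exact_mod_cast hk0
      nlinarith
    nlinarith
  linarith

/-- for squarefree numbers `s'` the numbers `dd s s'` are different -/
lemma dd_inj {s s' s'' : ℕ} (hs : Squarefree s) (hs' : Squarefree s') (hs'' : Squarefree s'')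
    (h : dd s s' = dd s s'') : s' = s'' := by
  obtain ⟨h1, _, _, _⟩ := dd_spec hs hs'
  obtain ⟨h2, _, _, _⟩ := dd_spec hs hs''
  have hs0 : 0 < s := Nat.pos_of_ne_zero hs.ne_zero
  obtain ⟨u, hu⟩ : ∃ u, u = Nat.gcd s s' := ⟨_, rfl⟩
  obtain ⟨v, hv⟩ : ∃ v, v = Nat.gcd s s'' := ⟨_, rfl⟩
  have hu0 : u ≠ 0 := by
    rw [hu]; exact (Nat.gcd_pos_of_pos_left _ hs0).ne'
  have hv0 : v ≠ 0 := by
    rw [hv]; exact (Nat.gcd_pos_of_pos_left _ hs0).ne'
  rw [← hu] at h1
  rw [← hv, ← h] at h2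
  have h3 : s' * v ^ 2 = s'' * u ^ 2 := by
    apply Nat.eq_of_mul_eq_mul_left hs0
    calc s * (s' * v ^ 2) = (s * s') * v ^ 2 := by ring
      _ = dd s s' * u ^ 2 * v ^ 2 := by rw [h1]
      _ = (dd s s' * v ^ 2) * u ^ 2 := by ring
      _ = s * s'' * u ^ 2 := by rw [← h2]
      _ = _ := by ring
  have h4 := congrArg Nat.factorization h3
  rw [Nat.factorization_mul hs'.ne_zero (pow_ne_zero 2 hv0),
    Nat.factorization_mul hs''.ne_zero (pow_ne_zero 2 hu0), Nat.factorization_pow,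
    Nat.factorization_pow] at h4
  apply Nat.eq_of_factorization_eq hs'.ne_zero hs''.ne_zero
  intro p
  have h5 := DFunLike.congr_fun h4 p
  simp only [Finsupp.coe_add, Pi.add_apply, Finsupp.smul_apply, smul_eq_mul] at h5
  have h6 := hs'.natFactorization_le_one p
  have h7 := hs''.natFactorization_le_one p
  omega

end Pool.Agent.K1H88.WS
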