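import Pool.Agent.H423R2.RZL.HBLS
import Pool.Agent.K1H88.WS.Def

set_option autoImplicit false

/-! Odd squarefree numbers with prescribed symbols: Heath-Brown's large sieve
(adapted from `Pool.Agent.W57.SW.Rank`). -/

namespace Pool.Agent.K1H88.WS

open Finset Real Pool.Agent.H306R2.RZ

theorem rank_signed (A ε : ℝ) (hA : 1 < A) (hε : 0 < ε) : ∃ K : ℝ, 0 < K ∧ ∀ x X : ℕ, 1 ≤ X →
    (log X) ^ A ≤ (log x) ^ (2 : ℝ) → ∀ (T : Finset ℕ) (m0 : ℕ),
    (∀ m ∈ T, 1 ≤ m ∧ m ≤ X ∧ Odd m ∧ Squarefree m ∧ Sy x m m0 ∧ Nz x m) →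
    (T.card : ℝ) ≤ K * (X : ℝ) ^ (1 / A + ε) := by
  have hA0 : 0 < A := by linarith
  obtain ⟨X0, hX0⟩ := smooth_avoid A (ε / 2) 0 hA (by positivity) le_rfl
  obtain ⟨C, hC, hLS⟩ := Pool.Agent.H423R2.RZL.HBLSn.HBLS (ε / 4) (by positivity)
  refine ⟨2 * C + (X0 : ℝ) + 1, by positivity, ?_⟩
  intro x X hX1 hlogle T m0 hTm
  have hX1' : (1 : ℝ) ≤ X := by exact_mod_cast hX1
  have hXpos : (0 : ℝ) < X := by linarith
  have hpow1 : (1 : ℝ) ≤ (X : ℝ) ^ (1 / A + ε) := one_le_rpow hX1' (by positivity)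
  rcases T.eq_empty_or_nonempty with h0 | ⟨m1, hm1⟩
  · rw [h0]; simp; positivity
  rcases lt_or_ge X X0 with hsm | hlg
  · have h1 : T ⊆ Icc 1 X := fun m hm => mem_Icc.mpr ⟨(hTm m hm).1, (hTm m hm).2.1⟩
    have h2 := card_le_card h1
    rw [Nat.card_Icc, Nat.add_sub_cancel] at h2
    have h3 : (T.card : ℝ) ≤ X0 := by exact_mod_cast h2.trans hsm.le
    calc (T.card : ℝ) ≤ (2 * C + X0 + 1) * 1 := by linarith
      _ ≤ _ := mul_le_mul_of_nonneg_left hpow1 (by positivity)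
  · obtain ⟨S, hS1, hS2⟩ := hX0 X hlg ∅ (by simp)
    -- apply the large sieve
    have h1 := hLS X X hX1 hX1 (fun n => if n ∈ T then 1 else 0)
    have hTosf : T ⊆ osf X := by
      intro m hm
      obtain ⟨a1, a2, a3, a4, _⟩ := hTm m hm
      rw [osf, mem_filter, mem_Icc]
      exact ⟨⟨a1, a2⟩, a3, a4⟩
    have hSsqf : S ⊆ sqf X := by
      intro s hs
      obtain ⟨a1, a2, _, a4, _⟩ := hS1 s hs
      rw [sqf, mem_filter, mem_Icc]
      exact ⟨⟨a1, a2⟩, a4⟩
    have hSV : ∀ s ∈ S, ∀ p : ℕ, p.Prime → p ∣ s → p ∈ Vs x := by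
      intro s hs p hp hps
      obtain ⟨_, _, ho, _, h5⟩ := hS1 s hs
      rw [mem_Vs]
      refine ⟨hp, (h5 p hp hps).1.trans hlogle, ?_⟩
      rintro rfl
      exact (Nat.not_even_iff_odd.2 ho) (even_iff_two_dvd.2 hps)
    have hone : ∀ s ∈ S, ∀ m ∈ T, jacobiSym (s : ℤ) m = jacobiSym (s : ℤ) m1 := by
      intro s hs m hm
      exact sy_smooth ((hTm m hm).2.2.2.2.1.trans (hTm m1 hm1).2.2.2.2.1.symm) s (hS1 s hs).1
        (hSV s hs)
    have habs : ∀ s ∈ S, |jacobiSym (s : ℤ) m1| = 1 := fun s hs =>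
      nz_abs (hTm m1 hm1).2.2.2.2.2 (hSV s hs)
    have hL : (S.card : ℝ) * (T.card : ℝ) ^ 2 ≤
        ∑ m ∈ sqf X, ‖∑ n ∈ osf X, (if n ∈ T then (1 : ℂ) else 0) * (js m n : ℂ)‖ ^ 2 := by
      rw [← nsmul_eq_mul, ← sum_const]
      refine le_trans (sum_le_sum fun s hs => ?_)
        (sum_le_sum_of_subset_of_nonneg hSsqf fun _ _ _ => by positivity)
      have e1 : ∑ n ∈ osf X, (if n ∈ T then (1 : ℂ) else 0) * (js s n : ℂ) =
          (T.card : ℂ) * ((jacobiSym (s : ℤ) m1 : ℤ) : ℂ) := by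
        have e2 : ∀ n ∈ osf X, (if n ∈ T then (1 : ℂ) else 0) * (js s n : ℂ) =
            if n ∈ T then ((jacobiSym (s : ℤ) m1 : ℤ) : ℂ) else 0 := by
          intro n _
          split_ifs with h
          · have := hone s hs n h
            unfold js
            rw [this]; simp
          · simp
        rw [sum_congr rfl e2, sum_ite_mem, inter_eq_right.mpr hTosf]
        simp
      rw [e1, norm_mul]
      have e3 : ‖((jacobiSym (s : ℤ) m1 : ℤ) : ℂ)‖ = 1 := by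
        rw [Complex.norm_intCast]
        exact_mod_cast habs s hs
      rw [e3]
      simp
    have hR : ∑ n ∈ osf X, ‖(if n ∈ T then (1 : ℂ) else 0)‖ ^ 2 = T.card := by
      have e2 : ∀ n ∈ osf X, ‖(if n ∈ T then (1 : ℂ) else 0)‖ ^ 2 =
            if n ∈ T then (1 : ℝ) else 0 := by
          intro n _
          split_ifs with h <;> simp
      rw [sum_congr rfl e2, sum_ite_mem, inter_eq_right.mpr hTosf]
      simp
    have h2 := hL.trans h1
    rw [hR] at h2
    rcases Nat.eq_zero_or_pos T.card with h0 | h0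
    · rw [h0]
      push_cast
      positivity
    · have h0' : (0 : ℝ) < T.card := by exact_mod_cast h0
      have h3 : (S.card : ℝ) * T.card ≤ C * ((X : ℝ) * X) ^ (ε / 4) * (X + X) := by
        have h4 : ((S.card : ℝ) * T.card) * T.card ≤
            (C * ((X : ℝ) * X) ^ (ε / 4) * (X + X)) * T.card := by
          calc ((S.card : ℝ) * T.card) * T.card = (S.card : ℝ) * (T.card : ℝ) ^ 2 := by ring
            _ ≤ _ := h2
        exact le_of_mul_le_mul_right h4 h0'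
      have h4 : (X : ℝ) ^ (1 - 1 / A - ε / 2) * T.card ≤
          C * ((X : ℝ) * X) ^ (ε / 4) * (X + X) :=
        (mul_le_mul_of_nonneg_right hS2 h0'.le).trans h3
      have e5 : C * ((X : ℝ) * X) ^ (ε / 4) * (X + X) = 2 * C * (X : ℝ) ^ (1 + ε / 2) := by
        rw [mul_rpow hXpos.le hXpos.le, ← rpow_add hXpos, rpow_add hXpos 1, rpow_one,
          show ε / 4 + ε / 4 = ε / 2 by ring]
        ring
      rw [e5] at h4
      have e6 : (X : ℝ) ^ (1 + ε / 2) = (X : ℝ) ^ (1 - 1 / A - ε / 2) * (X : ℝ) ^ (1 / A + ε) := by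
        rw [← rpow_add hXpos]; congr 1; ring
      have h7 : (T.card : ℝ) ≤ 2 * C * (X : ℝ) ^ (1 / A + ε) := by
        have hp : 0 < (X : ℝ) ^ (1 - 1 / A - ε / 2) := by positivity
        rw [e6] at h4
        have h8 : (X : ℝ) ^ (1 - 1 / A - ε / 2) * T.card ≤
            (X : ℝ) ^ (1 - 1 / A - ε / 2) * (2 * C * (X : ℝ) ^ (1 / A + ε)) := by
          calc _ ≤ _ := h4
            _ = _ := by ring
        exact le_of_mul_le_mul_left h8 hp
      refine h7.trans ?_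
      apply mul_le_mul_of_nonneg_right _ (by positivity)
      have : (0 : ℝ) ≤ X0 := Nat.cast_nonneg X0
      linarith

end Pool.Agent.K1H88.WS
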