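import Pool.Agent.K1H88.WS.Rank2
import Pool.Agent.K1H88.WS.Lam
import Pool.Agent.W57.SW.Count

set_option autoImplicit false

/-! Sums over the products of the primes of a sparse set. -/

namespace Pool.Agent.K1H88.WS

open Finset Real Pool.Agent.W57.SW

/-- sums over squarefree products of the primes of a set -/
lemma gen_sum (P U : Finset ℕ) (σ : ℝ) (hU : ∀ m ∈ U, Squarefree m ∧ m.primeFactors ⊆ P) :
    ∑ m ∈ U, (m : ℝ) ^ (-σ) ≤ exp (∑ q ∈ P, (q : ℝ) ^ (-σ)) := by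
  classical
  have h1 : ∀ m ∈ U, (m : ℝ) ^ (-σ) = ∏ q ∈ m.primeFactors, (q : ℝ) ^ (-σ) := by
    intro m hm
    rw [Real.finsetProd_rpow _ _ (fun q _ => Nat.cast_nonneg q)]
    congr 1
    have h0 := congrArg (fun z : ℕ => (z : ℝ)) (Nat.prod_primeFactors_of_squarefree (hU m hm).1)
    simp only [Nat.cast_prod] at h0
    exact h0.symm
  rw [sum_congr rfl h1]
  have h2 : ∑ m ∈ U, ∏ q ∈ m.primeFactors, (q : ℝ) ^ (-σ) =
      ∑ T ∈ U.image Nat.primeFactors, ∏ q ∈ T, (q : ℝ) ^ (-σ) := by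
    rw [sum_image]
    intro m hm m' hm' h
    rw [← Nat.prod_primeFactors_of_squarefree (hU m hm).1,
      ← Nat.prod_primeFactors_of_squarefree (hU m' hm').1, h]
  rw [h2]
  have h3 : U.image Nat.primeFactors ⊆ P.powerset := by
    intro T hT
    rw [mem_image] at hT
    obtain ⟨m, hm, rfl⟩ := hT
    exact mem_powerset.2 (hU m hm).2
  refine (sum_le_sum_of_subset_of_nonneg h3 fun T _ _ => prod_nonneg fun q _ =>
    rpow_nonneg (Nat.cast_nonneg q) _).trans ?_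
  rw [← Finset.prod_one_add, Real.exp_sum]
  refine prod_le_prod (fun q _ => by positivity) fun q _ => ?_
  rw [add_comm]
  exact add_one_le_exp _

/-- the number of such products up to `Y` -/
lemma gen_card (P U : Finset ℕ) (σ Y : ℝ) (hσ : 0 < σ) (hY : 0 ≤ Y)
    (hU : ∀ m ∈ U, Squarefree m ∧ m.primeFactors ⊆ P ∧ (m : ℝ) ≤ Y) :
    (U.card : ℝ) ≤ Y ^ σ * exp (∑ q ∈ P, (q : ℝ) ^ (-σ)) := by
  have h1 : (U.card : ℝ) ≤ ∑ m ∈ U, Y ^ σ * (m : ℝ) ^ (-σ) := by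
    rw [← nsmul_one (U.card), ← sum_const]
    push_cast
    refine sum_le_sum fun m hm => ?_
    obtain ⟨h2, _, h3⟩ := hU m hm
    have hm0 : (0 : ℝ) < m := by exact_mod_cast Nat.pos_of_ne_zero h2.ne_zero
    rw [rpow_neg hm0.le, ← div_eq_mul_inv, one_le_div (by positivity)]
    exact rpow_le_rpow hm0.le h3 hσ.le
  refine h1.trans ?_
  rw [← mul_sum]
  exact mul_le_mul_of_nonneg_left (gen_sum P U σ fun m hm => ⟨(hU m hm).1, (hU m hm).2.1⟩)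
    (by positivity)

open Classical in
/-- odd primes up to `x` without small divisors, with the symbols of `m0` or all symbols one -/
noncomputable def PP (x m0 : ℕ) : Finset ℕ :=
  (Icc 1 x).filter (fun q => q.Prime ∧ q ≠ 2 ∧ Nz x q ∧ (Sy x q m0 ∨ Sy x q 1))

lemma mem_PP {x m0 q : ℕ} : q ∈ PP x m0 ↔ (1 ≤ q ∧ q ≤ x) ∧ q.Prime ∧ q ≠ 2 ∧ Nz x q ∧
    (Sy x q m0 ∨ Sy x q 1) := by
  unfold PP
  simp only [mem_filter, mem_Icc]

open Classical in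
/-- odd squarefree numbers up to `x` without small divisors and with all symbols one -/
noncomputable def QQ (x : ℕ) : Finset ℕ :=
  (Icc 1 x).filter (fun r => Odd r ∧ Squarefree r ∧ Nz x r ∧ Sy x r 1)

lemma mem_QQ {x r : ℕ} : r ∈ QQ x ↔ (1 ≤ r ∧ r ≤ x) ∧ Odd r ∧ Squarefree r ∧ Nz x r ∧
    Sy x r 1 := by
  unfold QQ
  simp only [mem_filter, mem_Icc]

lemma PP_odd {x m0 q : ℕ} (h : q ∈ PP x m0) : Odd q :=
  (mem_PP.1 h).2.1.odd_of_ne_two (mem_PP.1 h).2.2.1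

/-- the count of `PP` in terms of a general exponent -/
lemma PP_rank (A ε : ℝ) (hA : 1 < A) (hε : 0 < ε) : ∃ K : ℝ, 0 < K ∧ ∀ x X m0 : ℕ, 1 ≤ X →
    (log X) ^ A ≤ (log x) ^ (2 : ℝ) →
    (((PP x m0).filter (fun q => q ≤ X)).card : ℝ) ≤ K * (X : ℝ) ^ (1 / A + ε) := by
  classical
  obtain ⟨K, hK, h⟩ := rank_signed A ε hA hε
  refine ⟨2 * K, by positivity, fun x X m0 hX hlog => ?_⟩
  have h1 := h x X hX hlog (((PP x m0).filter (fun q => q ≤ X)).filter (fun q => Sy x q m0)) m0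
    (by
      intro m hm
      rw [mem_filter, mem_filter, mem_PP] at hm
      obtain ⟨⟨⟨⟨a1, a2⟩, a3, a4, a5, a6⟩, a7⟩, a8⟩ := hm
      exact ⟨a1, a7, a3.odd_of_ne_two a4, a3.squarefree, a8, a5⟩)
  have h2 := h x X hX hlog (((PP x m0).filter (fun q => q ≤ X)).filter (fun q => Sy x q 1)) 1
    (by
      intro m hm
      rw [mem_filter, mem_filter, mem_PP] at hm
      obtain ⟨⟨⟨⟨a1, a2⟩, a3, a4, a5, a6⟩, a7⟩, a8⟩ := hm
      exact ⟨a1, a7, a3.odd_of_ne_two a4, a3.squarefree, a8, a5⟩)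
  have h3 : (PP x m0).filter (fun q => q ≤ X) ⊆
      ((PP x m0).filter (fun q => q ≤ X)).filter (fun q => Sy x q m0) ∪
      ((PP x m0).filter (fun q => q ≤ X)).filter (fun q => Sy x q 1) := by
    intro q hq
    have h4 := hq
    rw [mem_filter, mem_PP] at h4
    rw [mem_union]
    rcases h4.1.2.2.2.2 with h5 | h5
    · exact Or.inl (mem_filter.2 ⟨hq, h5⟩)
    · exact Or.inr (mem_filter.2 ⟨hq, h5⟩)
  have h4 := (card_le_card h3).trans (card_union_le _ _)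
  have h5 : (((PP x m0).filter (fun q => q ≤ X)).card : ℝ) ≤
    ((((PP x m0).filter (fun q => q ≤ X)).filter (fun q => Sy x q m0)).card : ℝ) +
    ((((PP x m0).filter (fun q => q ≤ X)).filter (fun q => Sy x q 1)).card : ℝ) := by
    exact_mod_cast h4
  linarith

lemma log_rpow_two_le {x X : ℕ} (h1 : 1 ≤ X) (h : X ≤ x) :
    (log (X : ℝ)) ^ (2 : ℝ) ≤ (log (x : ℝ)) ^ (2 : ℝ) :=
  rpow_le_rpow (log_natCast_nonneg X)
    (log_le_log (by exact_mod_cast h1) (by exact_mod_cast h)) (by norm_num)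

/-- bounded sums over `PP` -/
lemma PP_sum (ε : ℝ) (hε : 0 < ε) : ∃ R : ℝ, 0 ≤ R ∧ ∀ x m0 : ℕ,
    ∑ q ∈ PP x m0, (q : ℝ) ^ (-(1 / 2 + 2 * ε)) ≤ R := by
  obtain ⟨K, hK, h⟩ := PP_rank 2 ε (by norm_num) hε
  refine ⟨K ^ ((1 / 2 + 2 * ε) / (1 / 2 + ε)) *
    ∑' k : ℕ, (k : ℝ) ^ (-((1 / 2 + 2 * ε) / (1 / 2 + ε))), by positivity, fun x m0 => ?_⟩
  apply rank_sum _ K (1 / 2 + ε) (1 / 2 + 2 * ε) hK (by positivity) (by linarith)
  · intro q hq; exact (mem_PP.1 hq).1.1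
  · intro q hq
    obtain ⟨⟨a1, a2⟩, _⟩ := mem_PP.1 hq
    exact h x q m0 a1 (log_rpow_two_le a1 a2)

/-- bounded sums over `QQ` -/
lemma QQ_sum (ε : ℝ) (hε : 0 < ε) : ∃ R : ℝ, 0 ≤ R ∧ ∀ x : ℕ,
    ∑ q ∈ QQ x, (q : ℝ) ^ (-(1 / 2 + 2 * ε)) ≤ R := by
  classical
  obtain ⟨K, hK, h⟩ := rank_signed 2 ε (by norm_num) hε
  refine ⟨K ^ ((1 / 2 + 2 * ε) / (1 / 2 + ε)) *
    ∑' k : ℕ, (k : ℝ) ^ (-((1 / 2 + 2 * ε) / (1 / 2 + ε))), by positivity, fun x => ?_⟩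
  apply rank_sum _ K (1 / 2 + ε) (1 / 2 + 2 * ε) hK (by positivity) (by linarith)
  · intro q hq; exact (mem_QQ.1 hq).1.1
  · intro q hq
    obtain ⟨⟨a1, a2⟩, _⟩ := mem_QQ.1 hq
    apply h x q a1 (log_rpow_two_le a1 a2) _ 1
    intro m hm
    rw [mem_filter, mem_QQ] at hm
    obtain ⟨⟨⟨b1, b2⟩, b3, b4, b5, b6⟩, b7⟩ := hm
    exact ⟨b1, b7, b3, b4, b6, b5⟩

end Pool.Agent.K1H88.WS
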