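import Pool.Agent.W57.SW.Base

set_option autoImplicit false

/-! Many odd squarefree smooth numbers avoiding a small set of primes (adapted from
`Pool.Agent.W57.SW.Smooth`). -/

namespace Pool.Agent.K1H88.WS

open Finset Real Pool.Agent.W57.SW

/-- eventual inequalities -/
lemma ev_mainB (A η B : ℝ) (hA : 1 < A) (hη : 0 < η) (hB : 0 ≤ B) : ∀ᶠ t : ℝ in Filter.atTop,
    (t ^ (A - η) + (1 + B) * t) * (A * log t) + log (t ^ A + 1) + 1 ≤ 0.69 * t ^ A := by
  have hA0 : 0 < A := by linarith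
  -- `t^(A-η) * log t = o(t^A)`
  have h1 : ∀ᶠ t : ℝ in Filter.atTop, t ^ (A - η) * (A * log t) ≤ 0.1 * t ^ A := by
    have h := (isLittleO_log_rpow_atTop hη).def (show (0 : ℝ) < 0.1 / A by positivity)
    filter_upwards [h, Filter.eventually_ge_atTop 1] with t ht ht1
    have ht0 : 0 < t := by linarith
    rw [norm_of_nonneg (log_nonneg ht1), norm_of_nonneg (by positivity)] at ht
    have e : t ^ A = t ^ (A - η) * t ^ η := by rw [← rpow_add ht0]; congr 1; ring
    rw [e]
    have h2 : A * log t ≤ 0.1 * t ^ η := by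
      have := mul_le_mul_of_nonneg_left ht hA0.le
      calc A * log t ≤ A * (0.1 / A * t ^ η) := this
        _ = 0.1 * t ^ η := by field_simp
    calc t ^ (A - η) * (A * log t) ≤ t ^ (A - η) * (0.1 * t ^ η) :=
          mul_le_mul_of_nonneg_left h2 (by positivity)
      _ = _ := by ring
  have h2 : ∀ᶠ t : ℝ in Filter.atTop, (1 + B) * t * (A * log t) ≤ 0.1 * t ^ A := by
    have h := (isLittleO_log_rpow_atTop (show 0 < A - 1 by linarith)).def
      (show (0 : ℝ) < 0.1 / A / (1 + B) by positivity)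
    filter_upwards [h, Filter.eventually_ge_atTop 1] with t ht ht1
    have ht0 : 0 < t := by linarith
    rw [norm_of_nonneg (log_nonneg ht1), norm_of_nonneg (by positivity)] at ht
    have e : t ^ A = t * t ^ (A - 1) := by
      nth_rewrite 2 [← rpow_one t]
      rw [← rpow_add ht0]; congr 1; ring
    rw [e]
    have h2 : (1 + B) * (A * log t) ≤ 0.1 * t ^ (A - 1) := by
      have h3 := mul_le_mul_of_nonneg_left ht (by positivity : 0 ≤ (1 + B) * A)
      calc (1 + B) * (A * log t) = (1 + B) * A * log t := by ring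
        _ ≤ (1 + B) * A * (0.1 / A / (1 + B) * t ^ (A - 1)) := h3
        _ = 0.1 * t ^ (A - 1) := by field_simp
    calc (1 + B) * t * (A * log t) = t * ((1 + B) * (A * log t)) := by ring
      _ ≤ t * (0.1 * t ^ (A - 1)) :=
          mul_le_mul_of_nonneg_left h2 (by positivity)
      _ = _ := by ring
  have h3 : ∀ᶠ t : ℝ in Filter.atTop, log (t ^ A + 1) ≤ 0.1 * t ^ A := by
    have h := (isLittleO_log_id_atTop).def (show (0 : ℝ) < 0.05 by norm_num)
    have h' := ((tendsto_rpow_atTop hA0).atTop_add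
      (tendsto_const_nhds (x := (1 : ℝ)))).eventually h
    have h'' := (tendsto_rpow_atTop hA0).eventually (Filter.eventually_ge_atTop 1)
    filter_upwards [h', h''] with t ht ht1
    rw [norm_of_nonneg (log_nonneg (by linarith)), id, norm_of_nonneg (by linarith)] at ht
    linarith
  have h4 : ∀ᶠ t : ℝ in Filter.atTop, (1 : ℝ) ≤ 0.1 * t ^ A := by
    have h := (tendsto_rpow_atTop hA0).eventually (Filter.eventually_ge_atTop 10)
    filter_upwards [h] with t ht
    linarith
  filter_upwards [h1, h2, h3, h4, Filter.eventually_ge_atTop 1] with t a1 a2 a3 a4 a5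
  have : 0 < t ^ A := by positivity
  nlinarith

/-- many odd squarefree numbers `≤ D` have all prime factors `≤ (log D)^A`, none of them in `E` -/
theorem smooth_avoid (A δ B : ℝ) (hA : 1 < A) (hδ : 0 < δ) (hB : 0 ≤ B) : ∃ D0 : ℕ, ∀ D : ℕ,
    D0 ≤ D → ∀ E : Finset ℕ, (E.card : ℝ) ≤ B * log D → ∃ S : Finset ℕ,
    (∀ s ∈ S, 1 ≤ s ∧ s ≤ D ∧ Odd s ∧ Squarefree s ∧
      ∀ p : ℕ, p.Prime → p ∣ s → (p : ℝ) ≤ (log D) ^ A ∧ p ∉ E) ∧
      (D : ℝ) ^ (1 - 1 / A - δ) ≤ (S.card : ℝ) := by
  have hA0 : 0 < A := by linarith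
  obtain ⟨η, hη0, hη1, hη2⟩ : ∃ η : ℝ, 0 < η ∧ η ≤ A * δ / 2 ∧ η ≤ (A - 1) / 2 :=
    ⟨min (A * δ / 2) ((A - 1) / 2), lt_min (by positivity) (by linarith), min_le_left _ _,
      min_le_right _ _⟩
  have hev1 := ev_mainB A η B hA hη0 hB
  have hev2 : ∀ᶠ t : ℝ in Filter.atTop, 4 ≤ t ^ A :=
    (tendsto_rpow_atTop hA0).eventually (Filter.eventually_ge_atTop 4)
  have hev3 : ∀ᶠ t : ℝ in Filter.atTop, (A - 1 - η) * log t ≤ δ / 2 * t := by
    have h0 : 0 < A - 1 - η := by linarith
    have h := (isLittleO_log_id_atTop).def (show (0 : ℝ) < δ / 2 / (A - 1 - η) by positivity)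
    filter_upwards [h, Filter.eventually_ge_atTop 1] with t ht ht1
    rw [norm_of_nonneg (log_nonneg ht1), id, norm_of_nonneg (by linarith)] at ht
    calc (A - 1 - η) * log t ≤ (A - 1 - η) * (δ / 2 / (A - 1 - η) * t) :=
          mul_le_mul_of_nonneg_left ht h0.le
      _ = δ / 2 * t := by field_simp
  have hev4 : ∀ᶠ t : ℝ in Filter.atTop, A * log t < t := by
    have h := (isLittleO_log_id_atTop).def (show (0 : ℝ) < 1 / (2 * A) by positivity)
    filter_upwards [h, Filter.eventually_ge_atTop 1] with t ht ht1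
    rw [norm_of_nonneg (log_nonneg ht1), id, norm_of_nonneg (by linarith)] at ht
    calc A * log t ≤ A * (1 / (2 * A) * t) := mul_le_mul_of_nonneg_left ht hA0.le
      _ = t / 2 := by field_simp
      _ < t := by linarith
  have hev5 : ∀ᶠ t : ℝ in Filter.atTop, 2 ≤ t := Filter.eventually_ge_atTop _
  obtain ⟨t0, ht0⟩ := Filter.eventually_atTop.mp
    (hev1.and (hev2.and (hev3.and (hev4.and hev5))))
  refine ⟨⌈exp t0⌉₊, fun D hD E hE => ?_⟩
  have hD1 : exp t0 ≤ D := Nat.ceil_le.mp hD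
  have hD0 : (0 : ℝ) < D := (exp_pos _).trans_le hD1
  obtain ⟨t, ht⟩ : ∃ t : ℝ, t = log D := ⟨_, rfl⟩
  have htt0 : t0 ≤ t := by rw [ht, le_log_iff_exp_le hD0]; exact hD1
  obtain ⟨h1, h2, h3, h4, h5⟩ := ht0 t htt0
  have htpos : 0 < t := by linarith
  have hlt : 0 < log t := log_pos (by linarith)
  obtain ⟨y, hy⟩ : ∃ y : ℕ, y = ⌊t ^ A⌋₊ := ⟨_, rfl⟩
  have hyle : (y : ℝ) ≤ t ^ A := by rw [hy]; exact Nat.floor_le (by positivity)
  have hylt : t ^ A < y + 1 := by rw [hy]; exact Nat.lt_floor_add_one _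
  have hy3 : (3 : ℝ) < y := by linarith
  have hy3' : 3 < y := by exact_mod_cast hy3
  have hy0 : (0 : ℝ) < y := by linarith
  obtain ⟨Y, hY⟩ : ∃ Y : ℝ, Y = log y := ⟨_, rfl⟩
  have hY1 : 1 ≤ Y := by
    rw [hY, le_log_iff_exp_le hy0]; linarith [exp_one_lt_d9]
  have hYle : Y ≤ A * log t := by
    have h6 := log_le_log hy0 hyle
    rw [log_rpow htpos] at h6
    rw [hY]; exact h6
  obtain ⟨u, hu⟩ : ∃ u : ℕ, u = Nat.log y D := ⟨_, rfl⟩
  have hDne : D ≠ 0 := by
    intro h; rw [h] at hD0; simp at hD0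
  have huD : y ^ u ≤ D := by rw [hu]; exact Nat.pow_log_le_self y hDne
  have huD' : D < y ^ (u + 1) := by rw [hu]; exact Nat.lt_pow_succ_log_self (by omega) D
  have hut : u * Y ≤ t := by
    have h3 : ((y ^ u : ℕ) : ℝ) ≤ D := by exact_mod_cast huD
    push_cast at h3
    have h4 := log_le_log (by positivity) h3
    rw [log_pow] at h4
    rw [hY, ht]; exact h4
  have hut' : t < (u + 1) * Y := by
    have h3 : (D : ℝ) < ((y ^ (u + 1) : ℕ) : ℝ) := by exact_mod_cast huD'
    push_cast at h3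
    have h4 := log_lt_log hD0 h3
    rw [log_pow] at h4
    push_cast at h4
    rw [hY, ht]; exact h4
  have hu0' : (0 : ℝ) ≤ u := Nat.cast_nonneg u
  have hut1 : (u : ℝ) ≤ t := by nlinarith
  have hut2 : t < (u + 1) * (A * log t) := by
    refine hut'.trans_le ?_
    exact mul_le_mul_of_nonneg_left hYle (by positivity)
  have hupos : (0 : ℝ) < u := by
    by_contra hc
    have hu0 : (u : ℝ) = 0 := le_antisymm (not_lt.mp hc) hu0'
    rw [hu0] at hut2
    linarith
  have hu1 : 1 ≤ u := by exact_mod_cast hupos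
  -- number of odd primes
  obtain ⟨N, hN⟩ : ∃ N : ℕ, N = (opr y \ E).card := ⟨_, rfl⟩
  have hNpi : (Nat.primeCounting y : ℝ) - 1 - B * t ≤ N := by
    have h6 := Finset.le_card_sdiff E (opr y)
    have h7 : ((opr y).card : ℝ) ≤ N + E.card := by
      have : (opr y).card ≤ N + E.card := by rw [hN]; omega
      exact_mod_cast this
    rw [card_opr (by omega)] at h7
    rw [← ht] at hE
    linarith
  have hlow := primeCounting_low (y := y)
  have hNlow : t ^ (A - η) ≤ (N : ℝ) + 1 - u := by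
    have h6 : (0.69 : ℝ) * (t ^ A - 1) ≤ y * log 2 := by
      have h7 : (0.69 : ℝ) ≤ log 2 := by linarith [log_two_gt_d9]
      have h8 : t ^ A - 1 ≤ y := by linarith
      calc 0.69 * (t ^ A - 1) ≤ 0.69 * y := mul_le_mul_of_nonneg_left h8 (by norm_num)
        _ ≤ log 2 * y := mul_le_mul_of_nonneg_right h7 hy0.le
        _ = y * log 2 := mul_comm _ _
    have h9 : log ((y : ℝ) + 1) ≤ log (t ^ A + 1) := log_le_log (by positivity) (by linarith)
    have h10 : (t ^ (A - η) + (1 + B) * t) * (A * log t) ≤ Nat.primeCounting y * Y := by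
      rw [hY]; nlinarith
    have h11 : (t ^ (A - η) + (1 + B) * t) * (A * log t) ≤
        Nat.primeCounting y * (A * log t) := by
      refine h10.trans ?_
      exact mul_le_mul_of_nonneg_left hYle (Nat.cast_nonneg _)
    have h12 := le_of_mul_le_mul_right h11 (by positivity)
    linarith
  have htA : 0 < t ^ (A - η) := by positivity
  have hNu : u ≤ N := by
    have h6 : (u : ℝ) < ((N + 1 : ℕ) : ℝ) := by push_cast; linarith
    have h7 : u < N + 1 := by exact_mod_cast h6
    omega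
  have hch : (t ^ (A - η) / t) ^ u ≤ (N.choose u : ℝ) := by
    have h6 := Nat.pow_le_choose u N (α := ℝ)
    have h7 : ((N + 1 - u : ℕ) : ℝ) = N + 1 - u := by
      rw [Nat.cast_sub (by omega)]; push_cast; ring
    rw [h7] at h6
    refine le_trans ?_ h6
    rw [div_pow]
    apply div_le_div₀ (pow_nonneg (htA.le.trans hNlow) u)
    · exact pow_le_pow_left₀ htA.le hNlow u
    · positivity
    · have h8 : (u.factorial : ℝ) ≤ (u : ℝ) ^ u := by exact_mod_cast Nat.factorial_le_pow u
      exact h8.trans (pow_le_pow_left₀ hu0' hut1 u)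
  have hfin : (D : ℝ) ^ (1 - 1 / A - δ) ≤ (N.choose u : ℝ) := by
    refine le_trans ?_ hch
    have e1 : t ^ (A - η) / t = exp ((A - η - 1) * log t) := by
      nth_rewrite 2 [← rpow_one t]
      rw [← rpow_sub htpos, rpow_def_of_pos htpos]
      congr 1; ring
    rw [e1, ← exp_nat_mul, rpow_def_of_pos hD0, ← ht]
    apply exp_le_exp.mpr
    have e2 : t / (A * log t) - 1 ≤ u := by
      rw [sub_le_iff_le_add, div_le_iff₀ (by positivity)]
      exact hut2.le
    have e3 : 0 ≤ (A - η - 1) * log t := by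
      apply mul_nonneg (by linarith) hlt.le
    have e4 : (t / (A * log t) - 1) * ((A - η - 1) * log t) ≤ u * ((A - η - 1) * log t) :=
      mul_le_mul_of_nonneg_right e2 e3
    refine le_trans ?_ e4
    have e5 : (t / (A * log t) - 1) * ((A - η - 1) * log t) =
        t * (1 - 1 / A - η / A) - (A - 1 - η) * log t := by
      field_simp
      ring
    rw [e5]
    have e6 : η / A ≤ δ / 2 := by
      rw [div_le_iff₀ hA0]; linarith
    nlinarith
  have hpr : ∀ p ∈ opr y \ E, p.Prime := fun p hp => (mem_opr.mp (mem_sdiff.mp hp).1).1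
  refine ⟨prods (opr y \ E) u, ?_, ?_⟩
  · intro s hs
    obtain ⟨h3, h4, h5, h6, _⟩ := prods_spec hpr
      (fun p hp => (mem_opr.mp (mem_sdiff.mp hp).1).2.1) hs
    refine ⟨h3, h4.trans huD, ?_, h6, fun p hp hps => ?_⟩
    · rw [← Nat.not_even_iff_odd, even_iff_two_dvd]
      intro h
      have : 2 ∈ opr y := (mem_sdiff.mp
        (h5 (Nat.mem_primeFactors.mpr ⟨Nat.prime_two, h, by omega⟩))).1
      exact (mem_opr.mp this).2.2 rfl
    · have h7 : p ∈ opr y \ E := h5 (Nat.mem_primeFactors.mpr ⟨hp, hps, by omega⟩)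
      have h8 : (p : ℝ) ≤ y := by exact_mod_cast (mem_opr.mp (mem_sdiff.mp h7).1).2.1
      refine ⟨?_, (mem_sdiff.mp h7).2⟩
      rw [← ht]; linarith
  · rw [card_prods hpr, ← hN]
    exact hfin

end Pool.Agent.K1H88.WS
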