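import Pool.Agent.K1H88.WS.Semi
import Pool.Agent.K1H88.WS.Divs

set_option autoImplicit false

/-! Products of primes whose orders divide a fixed number. -/

namespace Pool.Agent.K1H88.WS

open Finset Real Pool.Agent.W57.SW

open Classical in
/-- the primes of `PP` for which the exponent divides `N` -/
noncomputable def PL (x m0 N : ℕ) : Finset ℕ := (PP x m0).filter (fun q => Lam x q ∣ N)

lemma mem_PL {x m0 N q : ℕ} : q ∈ PL x m0 N ↔ q ∈ PP x m0 ∧ Lam x q ∣ N := by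
  unfold PL
  simp only [mem_filter]

/-- primes in a progression with prescribed symbols and large order -/
lemma ap_prime (δ : ℝ) (hδ : 0 < δ) (hδ1 : δ ≤ 1 / 1000) : ∃ C : ℝ, 0 < C ∧ ∃ D0 : ℕ,
    ∀ x X T m0 : ℕ, X ≤ x → 1 ≤ T → T ≤ X → ∀ F : Finset ℕ,
    (∀ q ∈ F, q ∈ PP x m0 ∧ D0 ≤ q ∧ q ≤ X ∧ Lam x q = T) →
    (F.card : ℝ) ≤ C * (X : ℝ) ^ (2 / 5 + 3 * δ) := by
  classical
  obtain ⟨C, hC, hap⟩ := ap_count δ hδ (by linarith)
  obtain ⟨D0, hD0⟩ := lam_lower δ hδ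
  refine ⟨4 * C, by positivity, D0, ?_⟩
  intro x X T m0 hXx hT1 hTX F hF
  rcases F.eq_empty_or_nonempty with h0 | hne
  · rw [h0]; simp; positivity
  obtain ⟨X', hX'⟩ : ∃ X', X' = F.max' hne := ⟨_, rfl⟩
  have hX'F : X' ∈ F := by rw [hX']; exact F.max'_mem hne
  obtain ⟨g1, g2, g3, g4⟩ := hF X' hX'F
  rw [mem_PP] at g1
  obtain ⟨⟨g5, g6⟩, g7, g8, g9, g10⟩ := g1
  have hlow := hD0 x X' g7 g2 g6 g9
  rw [g4] at hlow
  have hX'1 : (1 : ℝ) ≤ X' := by exact_mod_cast g5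
  have hX'0 : (0 : ℝ) < X' := by linarith
  have hX1 : (1 : ℝ) ≤ X := hX'1.trans (by exact_mod_cast g3)
  have hX0 : (0 : ℝ) < X := by linarith
  have hT0 : (0 : ℝ) < T := by exact_mod_cast hT1
  have hZ : (X' : ℝ) / T ≤ (X : ℝ) ^ (1 / 2 + δ) := by
    have h1 : (X' : ℝ) / T ≤ (X' : ℝ) / (X' : ℝ) ^ (1 / 2 - δ) :=
      div_le_div_of_nonneg_left hX'0.le (by positivity) hlow
    have h2 : (X' : ℝ) / (X' : ℝ) ^ (1 / 2 - δ) = (X' : ℝ) ^ (1 / 2 + δ) := by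
      rw [div_eq_iff (by positivity), ← rpow_add hX'0]
      rw [show (1 / 2 + δ + (1 / 2 - δ) : ℝ) = 1 by ring, rpow_one]
    rw [h2] at h1
    exact h1.trans (rpow_le_rpow hX'0.le (by exact_mod_cast g3) (by linarith))
  have hcount : ∀ m1 : ℕ, ((F.filter (fun q => Sy x q m1)).card : ℝ) ≤
      2 * C * (X : ℝ) ^ (2 / 5 + 3 * δ) := by
    intro m1
    have h1 := hap x X X' T 1 m1 hXx g3 hT1 hTX (F.filter (fun q => Sy x q m1)) (by
      intro q hq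
      rw [mem_filter] at hq
      obtain ⟨hqF, hqs⟩ := hq
      obtain ⟨b1, b2, b3, b4⟩ := hF q hqF
      have hqodd := PP_odd b1
      rw [mem_PP] at b1
      obtain ⟨⟨b5, b6⟩, b7, b8, b9, b10⟩ := b1
      refine ⟨b5, by rw [hX']; exact F.le_max' q hqF, hqodd, ?_, hqs, b9⟩
      have h2 := lam_dvd_pred b7 b9
      rw [b4] at h2
      exact ((Nat.modEq_iff_dvd' b5).2 h2).symm)
    refine h1.trans ?_
    have h2 : ((X' : ℝ) / T) ^ (4 / 5 : ℝ) ≤ (X : ℝ) ^ (2 / 5 + 2 * δ) := by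
      calc ((X' : ℝ) / T) ^ (4 / 5 : ℝ) ≤ ((X : ℝ) ^ (1 / 2 + δ)) ^ (4 / 5 : ℝ) :=
            rpow_le_rpow (by positivity) hZ (by norm_num)
        _ = (X : ℝ) ^ ((1 / 2 + δ) * (4 / 5)) := by rw [← rpow_mul hX0.le]
        _ ≤ (X : ℝ) ^ (2 / 5 + 2 * δ) := rpow_le_rpow_of_exponent_le hX1 (by linarith)
    have h3 : (1 : ℝ) ≤ (X : ℝ) ^ (2 / 5 + 2 * δ) := one_le_rpow hX1 (by positivity)
    calc C * (X : ℝ) ^ δ * (((X' : ℝ) / T) ^ (4 / 5 : ℝ) + 1) ≤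
        C * (X : ℝ) ^ δ * (2 * (X : ℝ) ^ (2 / 5 + 2 * δ)) :=
          mul_le_mul_of_nonneg_left (by linarith) (by positivity)
      _ = 2 * C * ((X : ℝ) ^ δ * (X : ℝ) ^ (2 / 5 + 2 * δ)) := by ring
      _ = 2 * C * (X : ℝ) ^ (2 / 5 + 3 * δ) := by
          rw [← rpow_add hX0]; congr 2; ring
  have h3 : F ⊆ F.filter (fun q => Sy x q m0) ∪ F.filter (fun q => Sy x q 1) := by
    intro q hq
    rw [mem_union]
    rcases (mem_PP.1 (hF q hq).1).2.2.2.2 with h5 | h5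
    · exact Or.inl (mem_filter.2 ⟨hq, h5⟩)
    · exact Or.inr (mem_filter.2 ⟨hq, h5⟩)
  have h4 := (card_le_card h3).trans (card_union_le _ _)
  have h5 : (F.card : ℝ) ≤ ((F.filter (fun q => Sy x q m0)).card : ℝ) +
    ((F.filter (fun q => Sy x q 1)).card : ℝ) := by exact_mod_cast h4
  have h6 := hcount m0
  have h7 := hcount 1
  linarith

theorem PL_rank : ∃ K : ℝ, 0 < K ∧ ∀ x m0 N X : ℕ, 1 ≤ X → X ≤ x → 1 ≤ N → N ≤ x →
    (((PL x m0 N).filter (fun q => q ≤ X)).card : ℝ) ≤ K * (X : ℝ) ^ (97 / 200 : ℝ) := by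
  classical
  obtain ⟨K, hK, hrank⟩ := PP_rank (25 / 12) (1 / 1000) (by norm_num) (by norm_num)
  obtain ⟨C, hC, D0, hap⟩ := ap_prime (1 / 1000) (by norm_num) le_rfl
  obtain ⟨C', hC', hdiv⟩ := div_count (1 / 1000) (by norm_num)
  refine ⟨K + D0 + C * C', by positivity, ?_⟩
  intro x m0 N X hX1 hXx hN1 hNx
  have hX1' : (1 : ℝ) ≤ X := by exact_mod_cast hX1
  have hX0 : (0 : ℝ) < X := by linarith
  have hD00 : (0 : ℝ) ≤ D0 := Nat.cast_nonneg _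
  have hlogx : 0 ≤ log (x : ℝ) := log_natCast_nonneg x
  rcases le_or_gt (log (X : ℝ)) ((log (x : ℝ)) ^ (24 / 25 : ℝ)) with hs | hl
  · have h1 : (log (X : ℝ)) ^ (25 / 12 : ℝ) ≤ (log (x : ℝ)) ^ (2 : ℝ) := by
      calc (log (X : ℝ)) ^ (25 / 12 : ℝ) ≤ ((log (x : ℝ)) ^ (24 / 25 : ℝ)) ^ (25 / 12 : ℝ) :=
            rpow_le_rpow (log_natCast_nonneg X) hs (by norm_num)
        _ = (log (x : ℝ)) ^ (2 : ℝ) := by rw [← rpow_mul hlogx]; norm_num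
    have h2 := hrank x X m0 hX1 h1
    have h3 : (PL x m0 N).filter (fun q => q ≤ X) ⊆ (PP x m0).filter (fun q => q ≤ X) := by
      intro q hq
      rw [mem_filter, mem_PL] at hq
      exact mem_filter.2 ⟨hq.1.1, hq.2⟩
    have h4 : (((PL x m0 N).filter (fun q => q ≤ X)).card : ℝ) ≤
        (((PP x m0).filter (fun q => q ≤ X)).card : ℝ) := by exact_mod_cast card_le_card h3
    calc _ ≤ _ := h4
      _ ≤ K * (X : ℝ) ^ (1 / (25 / 12) + 1 / 1000 : ℝ) := h2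
      _ ≤ (K + D0 + C * C') * (X : ℝ) ^ (97 / 200 : ℝ) := by
          apply mul_le_mul _ (rpow_le_rpow_of_exponent_le hX1' (by norm_num)) (by positivity)
            (by positivity)
          have : 0 ≤ C * C' := by positivity
          linarith
  · obtain ⟨F, hF⟩ : ∃ F, F = (PL x m0 N).filter (fun q => q ≤ X) := ⟨_, rfl⟩
    rw [← hF]
    have hFm : ∀ q ∈ F, q ∈ PP x m0 ∧ Lam x q ∣ N ∧ q ≤ X := by
      intro q hq
      rw [hF, mem_filter, mem_PL] at hq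
      exact ⟨hq.1.1, hq.1.2, hq.2⟩
    have hlam : ∀ q ∈ F, 1 ≤ Lam x q ∧ Lam x q ≤ X := by
      intro q hq
      obtain ⟨a1, a2, a3⟩ := hFm q hq
      rw [mem_PP] at a1
      refine ⟨lam_pos a1.2.1 a1.2.2.2.1, ?_⟩
      have h1 := Nat.le_of_dvd (Nat.sub_pos_of_lt a1.2.1.one_lt)
        (lam_dvd_pred a1.2.1 a1.2.2.2.1)
      omega
    obtain ⟨Ds, hDs⟩ : ∃ Ds, Ds = N.divisors.filter (fun T => T ≤ X) := ⟨_, rfl⟩
    have hcov : F ⊆ Ico 0 D0 ∪ Ds.biUnion (fun T => F.filter (fun q => D0 ≤ q ∧ Lam x q = T)) := by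
      intro q hq
      rw [mem_union, mem_Ico, mem_biUnion]
      rcases lt_or_ge q D0 with h | h
      · exact Or.inl ⟨Nat.zero_le _, h⟩
      · refine Or.inr ⟨Lam x q, ?_, mem_filter.2 ⟨hq, h, rfl⟩⟩
        rw [hDs, mem_filter, Nat.mem_divisors]
        exact ⟨⟨(hFm q hq).2.1, by omega⟩, (hlam q hq).2⟩
    have h1 : (F.card : ℝ) ≤ D0 +
        ∑ T ∈ Ds, ((F.filter (fun q => D0 ≤ q ∧ Lam x q = T)).card : ℝ) := by
      have h2 := (card_le_card hcov).trans (card_union_le _ _)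
      have h3 := h2.trans (add_le_add_right card_biUnion_le _)
      rw [Nat.card_Ico, Nat.sub_zero] at h3
      exact_mod_cast h3
    have h2 : ∀ T ∈ Ds, ((F.filter (fun q => D0 ≤ q ∧ Lam x q = T)).card : ℝ) ≤
        C * (X : ℝ) ^ (2 / 5 + 3 * (1 / 1000) : ℝ) := by
      intro T hT
      rw [hDs, mem_filter, Nat.mem_divisors] at hT
      obtain ⟨⟨hT1, hT2⟩, hT3⟩ := hT
      apply hap x X T m0 hXx (Nat.pos_of_dvd_of_pos hT1 (by omega)) hT3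
      intro q hq
      rw [mem_filter] at hq
      obtain ⟨a1, a2, a3⟩ := hFm q hq.1
      exact ⟨a1, hq.2.1, a3, hq.2.2⟩
    have h3 := sum_le_sum h2
    rw [sum_const, nsmul_eq_mul] at h3
    have h4 := hdiv x N X hN1 hNx hX1 hl.le
    rw [← hDs] at h4
    have h5 : (Ds.card : ℝ) * (C * (X : ℝ) ^ (2 / 5 + 3 * (1 / 1000) : ℝ)) ≤
        C * C' * (X : ℝ) ^ (97 / 200 : ℝ) := by
      calc (Ds.card : ℝ) * (C * (X : ℝ) ^ (2 / 5 + 3 * (1 / 1000) : ℝ)) ≤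
          (C' * (X : ℝ) ^ (1 / 20 + 1 / 1000 : ℝ)) *
            (C * (X : ℝ) ^ (2 / 5 + 3 * (1 / 1000) : ℝ)) :=
            mul_le_mul_of_nonneg_right h4 (by positivity)
        _ = C * C' * ((X : ℝ) ^ (1 / 20 + 1 / 1000 : ℝ) *
            (X : ℝ) ^ (2 / 5 + 3 * (1 / 1000) : ℝ)) := by ring
        _ = C * C' * (X : ℝ) ^ (454 / 1000 : ℝ) := by
            rw [← rpow_add hX0]; norm_num
        _ ≤ _ := mul_le_mul_of_nonneg_left
            (rpow_le_rpow_of_exponent_le hX1' (by norm_num)) (by positivity)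
    have h6 : (D0 : ℝ) ≤ D0 * (X : ℝ) ^ (97 / 200 : ℝ) :=
      le_mul_of_one_le_right hD00 (one_le_rpow hX1' (by norm_num))
    have h7 : 0 ≤ K * (X : ℝ) ^ (97 / 200 : ℝ) := by positivity
    linarith

theorem PL_card : ∃ C : ℝ, 0 < C ∧ ∀ x m0 N : ℕ, 1 ≤ N → N ≤ x → ∀ U : Finset ℕ,
    (∀ m ∈ U, Squarefree m ∧ m.primeFactors ⊆ PL x m0 N ∧ m ≤ x) →
    (U.card : ℝ) ≤ C * (x : ℝ) ^ (243 / 500 : ℝ) := by
  obtain ⟨K, hK, hrank⟩ := PL_rank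
  obtain ⟨R, hR⟩ : ∃ R : ℝ, R = K ^ ((243 / 500 : ℝ) / (97 / 200)) *
    ∑' k : ℕ, (k : ℝ) ^ (-((243 / 500 : ℝ) / (97 / 200))) := ⟨_, rfl⟩
  refine ⟨exp R, exp_pos _, ?_⟩
  intro x m0 N hN1 hNx U hU
  have h1 := gen_card (PL x m0 N) U (243 / 500) x (by norm_num) (Nat.cast_nonneg _)
    (fun m hm => ⟨(hU m hm).1, (hU m hm).2.1, by exact_mod_cast (hU m hm).2.2⟩)
  refine h1.trans ?_
  rw [mul_comm]
  apply mul_le_mul_of_nonneg_right _ (by positivity)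
  apply exp_le_exp.2
  rw [hR]
  apply rank_sum _ K (97 / 200) (243 / 500) hK (by norm_num) (by norm_num)
  · intro q hq; exact (mem_PP.1 (mem_PL.1 hq).1).1.1
  · intro q hq
    obtain ⟨⟨a1, a2⟩, _⟩ := mem_PP.1 (mem_PL.1 hq).1
    exact hrank x m0 N q a1 a2 hN1 hNx

end Pool.Agent.K1H88.WS
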