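import Pool.Agent.K1H88.WS.CaseA4
import Pool.Agent.K1H88.WS.CaseB

set_option autoImplicit false

/-! The exceptions fall into the cases. -/

namespace Pool.Agent.K1H88.WS

open Finset Real Pool.Agent.W57.SW

def HA1 (x n : ℕ) : Prop :=
  ∃ r p1 m q : ℕ, n = r * m * q ∧ n ≤ x ∧ 2 ≤ r ∧ r ∈ QQ x ∧ p1 ∣ r ∧ m ∈ UU x p1 ∧
    q ∈ PP x p1 ∧ zz x ≤ q ∧ Lam x q ∣ r * m - 1

def HA2 (x n : ℕ) : Prop :=
  ∃ r p1 m E : ℕ, n = r * m * E ∧ n ≤ x ∧ 2 ≤ r ∧ r ∈ QQ x ∧ p1 ∣ r ∧ m ∈ UU x p1 ∧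
    zz x ≤ Lam x (r * m) ∧ 1 ≤ E ∧ Odd E ∧ zz x ≤ E ∧ (E : ℝ) ≤ (zz x) ^ 2 ∧
    Lam x (r * m) ∣ r * m * E - 1 ∧ Nz x E ∧ (Sy x E p1 ∨ Sy x E 1)

def HS (x n : ℕ) : Prop :=
  ∃ u m p1 N : ℕ, n = u * m ∧ 1 ≤ u ∧ (u : ℝ) ≤ ((x : ℝ) ^ (1 / 600 : ℝ)) ^ 7 ∧
    p1 ∣ u ∧ 1 ≤ N ∧ (N : ℝ) ≤ (x : ℝ) ^ (1 / 600 : ℝ) ∧ 1 ≤ m ∧ m ≤ x ∧ Squarefree m ∧
    m.primeFactors ⊆ PL x p1 N

def HA4i (x n : ℕ) : Prop :=
  ∃ p1 p2 m : ℕ, n = p1 * p2 * m ∧ n ≤ x ∧ p1.Prime ∧ p2.Prime ∧ Nz x p1 ∧ Nz x p2 ∧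
    Odd p2 ∧ Sy x p2 p1 ∧ 1 ≤ m ∧ (m : ℝ) ≤ zz x ∧ Lam x p1 ∣ m * p2 - 1 ∧
    (Lam x p1 : ℝ) ^ (1 / 5 : ℝ) * (p2 : ℝ) ^ (4 / 5 : ℝ) ≤ (x : ℝ) ^ (1 / 2 - 9 / 2000 : ℝ)

def HA4ii (x n : ℕ) : Prop :=
  ∃ p1 p2 : ℕ, n = p1 * p2 ∧ n ≤ x ∧ p1.Prime ∧ p2.Prime ∧ p1 ≠ p2 ∧ Nz x p1 ∧
    Nz x p2 ∧ n ∈ QQ x ∧ Lam x p1 ∣ p2 - 1 ∧ Lam x p2 ∣ p1 - 1 ∧
    (x : ℝ) ^ (1 - 9 / 200 : ℝ) ≤ (Lam x p1 : ℝ) * Lam x p2

def HA4iii (x n : ℕ) : Prop :=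
  ∃ p1 p2 m : ℕ, n = p1 * p2 * m ∧ n ≤ x ∧ p1.Prime ∧ p2.Prime ∧ Nz x p1 ∧ Nz x p2 ∧
    2 ≤ m ∧ (m : ℝ) ≤ zz x ∧ Lam x p1 ∣ m * p2 - 1 ∧ Lam x p2 ∣ m * p1 - 1 ∧
    (x : ℝ) ^ (1 - 9 / 200 : ℝ) ≤ (Lam x p1 : ℝ) * Lam x p2

def HB0 (x n : ℕ) : Prop :=
  ∃ p m : ℕ, n = p * m ∧ n ≤ x ∧ p.Prime ∧ Nz x p ∧ 2 ≤ m ∧ m ∈ UU x 1 ∧
    Lam x p ∣ m - 1 ∧ (p : ℝ) ^ (1 / 2 : ℝ) * (x : ℝ) ^ (1 / 12000 : ℝ) ≤ Lam x p

def HB1 (x n : ℕ) : Prop :=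
  ∃ p m q : ℕ, n = p * m * q ∧ n ≤ x ∧ p ∈ PS x ∧ m ∈ UU x 1 ∧
    q ∈ PP x 1 ∧ zz x ≤ q ∧ Lam x q ∣ p * m - 1

def HB2 (x n : ℕ) : Prop :=
  ∃ p m E : ℕ, n = p * m * E ∧ n ≤ x ∧ p ∈ PS x ∧ m ∈ UU x 1 ∧
    zz x ≤ Lam x (p * m) ∧ 1 ≤ E ∧ Odd E ∧ zz x ≤ E ∧ (E : ℝ) ≤ (zz x) ^ 2 ∧
    Lam x (p * m) ∣ p * m * E - 1 ∧ Nz x E ∧ (Sy x E 1 ∨ Sy x E 1)

lemma mem_UU_of {x n m m0 m' : ℕ} (hn : n ≤ x) (hn0 : n ≠ 0) (hsq : Squarefree n) (hm : m ∣ n)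
    (hP : m.primeFactors ⊆ PP x m0) (hm' : m' ∣ m) : m' ∈ UU x m0 := by
  have hm0 : m ≠ 0 := fun h => hn0 (Nat.eq_zero_of_zero_dvd (h ▸ hm))
  have hm'n : m' ∣ n := hm'.trans hm
  rw [mem_UU]
  exact ⟨⟨Nat.pos_of_dvd_of_pos hm'n (Nat.pos_of_ne_zero hn0),
    (Nat.le_of_dvd (Nat.pos_of_ne_zero hn0) hm'n).trans hn⟩, hsq.squarefree_of_dvd hm'n,
    (Nat.primeFactors_mono hm' hm0).trans hP⟩

lemma z_bound {z : ℝ} (hz : 1 ≤ z) {p1 p2 E : ℝ} (hp10 : 0 ≤ p1) (hp20 : 0 ≤ p2)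
    (hE0 : 0 ≤ E)
    (h1 : p1 ≤ z ^ (25 / 12 : ℝ)) (h2 : p2 ≤ z ^ (25 / 12 : ℝ)) (hE : E ≤ z ^ 2) :
    p1 * p2 * E ≤ z ^ 7 := by
  have hz0 : 0 < z := by linarith
  calc p1 * p2 * E ≤ z ^ (25 / 12 : ℝ) * z ^ (25 / 12 : ℝ) * z ^ 2 :=
        mul_le_mul (mul_le_mul h1 h2 hp20 (by positivity)) hE hE0 (by positivity)
    _ = z ^ (25 / 12 + 25 / 12 + 2 : ℝ) := by
        rw [rpow_add hz0, rpow_add hz0, show (2 : ℝ) = ((2 : ℕ) : ℝ) by norm_num, rpow_natCast]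
    _ ≤ z ^ (7 : ℝ) := rpow_le_rpow_of_exponent_le hz (by norm_num)
    _ = z ^ 7 := by rw [show (7 : ℝ) = ((7 : ℕ) : ℝ) by norm_num, rpow_natCast]

theorem split_A : ∃ X0 : ℕ, 1 ≤ X0 ∧ ∀ x : ℕ, X0 ≤ x → ∀ n : ℕ, Top x n → CA x n →
    HA1 x n ∨ HA2 x n ∨ HS x n ∨ HA4i x n ∨ HA4ii x n ∨ HA4iii x n := by
  obtain ⟨D0, hsp⟩ := small_prime
  obtain ⟨X0, hX01, hX0⟩ := zz_large D0
  refine ⟨X0, hX01, fun x hx n ht hc => ?_⟩
  have hx1 : 1 ≤ x := hX01.trans hx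
  have hx1' : (1 : ℝ) ≤ x := by exact_mod_cast hx1
  have hx0 : (0 : ℝ) < x := by linarith
  have hz1 := zz_one hx1
  have hz0 : 0 < zz x := by linarith
  have hDz := hX0 x hx
  obtain ⟨t1, t2, t3, t4, t5, t6, t7⟩ := ht
  obtain ⟨p1, p2, m, e, hp1, hp2, hne, hsy, hm⟩ := hc
  have hn0 : n ≠ 0 := by omega
  have hm0 : m ≠ 0 := by rintro rfl; simp at e; omega
  have hm1 : 1 ≤ m := Nat.pos_of_ne_zero hm0
  have hmn : m ∣ n := ⟨p1 * p2, by rw [e]; ring⟩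
  have hrn : p1 * p2 ∣ n := ⟨m, e⟩
  have hp1n : p1 ∣ n := (dvd_mul_right p1 p2).trans hrn
  have hp2n : p2 ∣ n := (dvd_mul_left p2 p1).trans hrn
  have hr2 : 2 ≤ p1 * p2 := by have := hp1.two_le; have := hp2.two_le; nlinarith
  have hrQ : p1 * p2 ∈ QQ x := mul_mem_QQ hp1 hp2 hne hsy
    ((Nat.le_of_dvd (by omega) hrn).trans t1) (Odd.of_dvd_nat t5 hrn) (nz_dvd t6 hrn)
  have hnz1 := nz_dvd t6 hp1n
  have hnz2 := nz_dvd t6 hp2n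
  have hp1x : p1 ≤ x := (Nat.le_of_dvd (by omega) hp1n).trans t1
  have hp2x : p2 ≤ x := (Nat.le_of_dvd (by omega) hp2n).trans t1
  rcases le_or_gt (zz x) m with hzm | hzm
  · by_cases hq : ∃ q : ℕ, q.Prime ∧ q ∣ m ∧ zz x ≤ q
    · -- a large prime
      left
      obtain ⟨q, hqp, ⟨m', hm'⟩, hzq⟩ := hq
      have hqn : q ∣ n := (dvd_mul_right q m').trans (hm' ▸ hmn)
      have hqP : q ∈ PP x p1 := hm (Nat.mem_primeFactors.2 ⟨hqp, ⟨m', hm'⟩, hm0⟩)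
      have e' : n = p1 * p2 * m' * q := by rw [e, hm']; ring
      have hm'0 : 1 ≤ m' := by
        rcases Nat.eq_zero_or_pos m' with h | h
        · rw [h, mul_zero] at hm'; omega
        · exact h
      refine ⟨p1 * p2, p1, m', q, e', t1, hr2, hrQ, dvd_mul_right _ _,
        mem_UU_of t1 hn0 t4 hmn hm ⟨q, by rw [hm']; ring⟩, hqP, hzq, ?_⟩
      have h1 := t7 q hqn
      rw [e'] at h1
      exact lam_dvd_sub hqp (nz_dvd t6 hqn) (by nlinarith) h1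
    · push Not at hq
      obtain ⟨E, ⟨m', hm'⟩, hE1, hE2⟩ := exists_divisor hz1 hzm hm0 hq
      have hEm : E ∣ m := ⟨m', hm'⟩
      have hEn : E ∣ n := hEm.trans hmn
      have hE0 : E ≠ 0 := by rintro rfl; rw [zero_mul] at hm'; exact hm0 hm'
      have hm'0 : 1 ≤ m' := by
        rcases Nat.eq_zero_or_pos m' with h | h
        · rw [h, mul_zero] at hm'; omega
        · exact h
      have e' : n = p1 * p2 * m' * E := by rw [e, hm']; ring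
      have hDn : p1 * p2 * m' ∣ n := ⟨E, e'⟩
      have hLD := t7 _ hDn
      have hm'U : m' ∈ UU x p1 := mem_UU_of t1 hn0 t4 hmn hm ⟨E, by rw [hm']; ring⟩
      have hEP : E.primeFactors ⊆ PP x p1 := (Nat.primeFactors_mono hEm hm0).trans hm
      rcases le_or_gt (zz x) (Lam x (p1 * p2 * m')) with hL | hL
      · right; left
        refine ⟨p1 * p2, p1, m', E, e', t1, hr2, hrQ, dvd_mul_right _ _, hm'U, hL,
          Nat.pos_of_ne_zero hE0, Odd.of_dvd_nat t5 hEn, hE1, hE2, ?_, nz_dvd t6 hEn,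
          sy_of_PP hnz1 E hE0 hEP⟩
        rw [← e']; exact hLD
      · right; right; left
        have hN0 : 0 < Lam x (p1 * p2 * m') := Nat.pos_of_dvd_of_pos hLD (by omega)
        have hsub : ∀ q : ℕ, q ∣ p1 * p2 * m' → Lam x q ∣ Lam x (p1 * p2 * m') :=
          fun q hq => lam_dvd_lam hq
        have hb : ∀ q : ℕ, q.Prime → q ∣ p1 * p2 * m' → (q : ℝ) ≤ (zz x) ^ (25 / 12 : ℝ) := by
          intro q hq hqD
          have hqn : q ∣ n := hqD.trans hDn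
          refine hsp x q (zz x) hq ((Nat.le_of_dvd (by omega) hqn).trans t1) (nz_dvd t6 hqn)
            hDz hz1 ?_
          have := Nat.le_of_dvd hN0 (hsub q hqD)
          have h2 : (Lam x q : ℝ) ≤ Lam x (p1 * p2 * m') := by exact_mod_cast this
          linarith
        refine ⟨p1 * p2 * E, m', p1, Lam x (p1 * p2 * m'), by rw [e']; ring, ?_, ?_, ?_, hN0,
          hL.le, hm'0, (mem_UU.1 hm'U).1.2, (mem_UU.1 hm'U).2.1, ?_⟩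
        · exact Nat.mul_pos (by omega) (Nat.pos_of_ne_zero hE0)
        · have := z_bound hz1 (Nat.cast_nonneg p1) (Nat.cast_nonneg p2) (Nat.cast_nonneg E)
            (hb p1 hp1 ⟨p2 * m', by ring⟩) (hb p2 hp2 ⟨p1 * m', by ring⟩) hE2
          push_cast
          exact this
        · exact ⟨p2 * E, by ring⟩
        · intro q hq
          rw [mem_PL]
          refine ⟨(mem_UU.1 hm'U).2.2 hq, hsub q ?_⟩
          exact (Nat.dvd_of_mem_primeFactors hq).trans (dvd_mul_left _ _)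
  · right; right; right
    have hL1 : Lam x p1 ∣ m * p2 - 1 := by
      apply lam_dvd_sub hp1 hnz1 (Nat.mul_pos hm1 hp2.pos)
      have h1 := t7 p1 hp1n
      rwa [show n = m * p2 * p1 by rw [e]; ring] at h1
    have hL2 : Lam x p2 ∣ m * p1 - 1 := by
      apply lam_dvd_sub hp2 hnz2 (Nat.mul_pos hm1 hp1.pos)
      have h1 := t7 p2 hp2n
      rwa [show n = m * p1 * p2 by rw [e]; ring] at h1
    have hodd1 : Odd p1 := Odd.of_dvd_nat t5 hp1n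
    have hodd2 : Odd p2 := Odd.of_dvd_nat t5 hp2n
    rcases le_or_gt ((Lam x p1 : ℝ) * Lam x p2) ((x : ℝ) ^ (1 - 9 / 200 : ℝ)) with hTT | hTT
    · left
      have hp12 : ((p1 : ℝ) * p2) ≤ x := by
        have : p1 * p2 ≤ x := (Nat.le_of_dvd (by omega) hrn).trans t1
        exact_mod_cast this
      have hkey : (Lam x p1 : ℝ) ^ (1 / 5 : ℝ) * (p2 : ℝ) ^ (4 / 5 : ℝ) ≤
          (x : ℝ) ^ (1 / 2 - 9 / 2000 : ℝ) ∨ (Lam x p2 : ℝ) ^ (1 / 5 : ℝ) * (p1 : ℝ) ^ (4 / 5 : ℝ) ≤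
          (x : ℝ) ^ (1 / 2 - 9 / 2000 : ℝ) := by
        by_contra hcon
        push Not at hcon
        obtain ⟨c1, c2⟩ := hcon
        have h1 := mul_lt_mul'' c1 c2 (by positivity) (by positivity)
        have h2 : (x : ℝ) ^ (1 / 2 - 9 / 2000 : ℝ) * (x : ℝ) ^ (1 / 2 - 9 / 2000 : ℝ) =
            (x : ℝ) ^ (1 - 9 / 1000 : ℝ) := by
          rw [← rpow_add hx0]; norm_num
        have h3 : ((Lam x p1 : ℝ) ^ (1 / 5 : ℝ) * (p2 : ℝ) ^ (4 / 5 : ℝ)) *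
            ((Lam x p2 : ℝ) ^ (1 / 5 : ℝ) * (p1 : ℝ) ^ (4 / 5 : ℝ)) =
            ((Lam x p1 : ℝ) * Lam x p2) ^ (1 / 5 : ℝ) * ((p1 : ℝ) * p2) ^ (4 / 5 : ℝ) := by
          rw [mul_rpow (Nat.cast_nonneg _) (Nat.cast_nonneg _),
            mul_rpow (Nat.cast_nonneg _) (Nat.cast_nonneg _)]
          ring
        have h4 : ((Lam x p1 : ℝ) * Lam x p2) ^ (1 / 5 : ℝ) * ((p1 : ℝ) * p2) ^ (4 / 5 : ℝ) ≤
            (x : ℝ) ^ (1 - 9 / 1000 : ℝ) := by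
          calc _ ≤ ((x : ℝ) ^ (1 - 9 / 200 : ℝ)) ^ (1 / 5 : ℝ) * (x : ℝ) ^ (4 / 5 : ℝ) :=
                mul_le_mul (rpow_le_rpow (by positivity) hTT (by norm_num))
                  (rpow_le_rpow (by positivity) hp12 (by norm_num)) (by positivity)
                  (by positivity)
            _ = _ := by rw [← rpow_mul hx0.le, ← rpow_add hx0]; norm_num
        rw [h2, h3] at h1
        linarith
      rcases hkey with hk | hk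
      · exact ⟨p1, p2, m, e, t1, hp1, hp2, hnz1, hnz2, hodd2, hsy.symm, hm1, hzm.le, hL1, hk⟩
      · exact ⟨p2, p1, m, by rw [e]; ring, t1, hp2, hp1, hnz2, hnz1, hodd1, hsy, hm1, hzm.le,
          hL2, hk⟩
    · right
      rcases Nat.lt_or_ge m 2 with h2 | h2
      · left
        have hm' : m = 1 := by omega
        subst hm'
        rw [one_mul] at hL1 hL2
        rw [mul_one] at e
        exact ⟨p1, p2, e, t1, hp1, hp2, hne, hnz1, hnz2, by rw [e]; exact hrQ, hL1, hL2, hTT.le⟩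
      · right
        exact ⟨p1, p2, m, e, t1, hp1, hp2, hnz1, hnz2, h2, hzm.le, hL1, hL2, hTT.le⟩

theorem split_B : ∃ X0 : ℕ, 1 ≤ X0 ∧ ∀ x : ℕ, X0 ≤ x → ∀ n : ℕ, Top x n → CB x n →
    HB0 x n ∨ HB1 x n ∨ HB2 x n ∨ HS x n ∨ (n : ℝ) ≤ (zz x) ^ 4 := by
  obtain ⟨D0, hsp⟩ := small_prime
  obtain ⟨X0, hX01, hX0⟩ := zz_large D0
  refine ⟨X0, hX01, fun x hx n ht hc => ?_⟩
  have hx1 : 1 ≤ x := hX01.trans hx
  have hx1' : (1 : ℝ) ≤ x := by exact_mod_cast hx1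
  have hx0 : (0 : ℝ) < x := by linarith
  have hz1 := zz_one hx1
  have hz0 : 0 < zz x := by linarith
  have hDz := hX0 x hx
  obtain ⟨t1, t2, t3, t4, t5, t6, t7⟩ := ht
  obtain ⟨p, m, e, hp, hm⟩ := hc
  have hn0 : n ≠ 0 := by omega
  have hm0 : m ≠ 0 := by rintro rfl; simp at e; omega
  have hm1 : 1 ≤ m := Nat.pos_of_ne_zero hm0
  have hm2 : 2 ≤ m := by
    rcases Nat.lt_or_ge m 2 with h | h
    · have : m = 1 := by omega
      rw [this, mul_one] at e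
      exact absurd (e ▸ hp) t3
    · exact h
  have hmn : m ∣ n := ⟨p, by rw [e]; ring⟩
  have hpn : p ∣ n := ⟨m, e⟩
  have hnzp := nz_dvd t6 hpn
  have hpx : p ≤ x := (Nat.le_of_dvd (by omega) hpn).trans t1
  have hp2 := hp.two_le
  have hLm : Lam x p ∣ m - 1 := by
    apply lam_dvd_sub hp hnzp hm1
    have h1 := t7 p hpn
    rwa [show n = m * p by rw [e]; ring] at h1
  rcases le_or_gt ((p : ℝ) ^ (1 / 2 : ℝ) * (x : ℝ) ^ (1 / 12000 : ℝ)) (Lam x p) with hT | hT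
  · left
    exact ⟨p, m, e, t1, hp, hnzp, hm2, mem_UU_of t1 hn0 t4 hmn hm dvd_rfl, hLm, hT⟩
  right
  have hPS : p ∈ PS x := mem_PS.2 ⟨⟨hp.one_lt.le, hpx⟩, hp, hnzp, hT⟩
  rcases le_or_gt (zz x) m with hzm | hzm
  · by_cases hq : ∃ q : ℕ, q.Prime ∧ q ∣ m ∧ zz x ≤ q
    · left
      obtain ⟨q, hqp, ⟨m', hm'⟩, hzq⟩ := hq
      have hqn : q ∣ n := (dvd_mul_right q m').trans (hm' ▸ hmn)
      have hqP : q ∈ PP x 1 := hm (Nat.mem_primeFactors.2 ⟨hqp, ⟨m', hm'⟩, hm0⟩)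
      have e' : n = p * m' * q := by rw [e, hm']; ring
      have hm'0 : 1 ≤ m' := by
        rcases Nat.eq_zero_or_pos m' with h | h
        · rw [h, mul_zero] at hm'; omega
        · exact h
      refine ⟨p, m', q, e', t1, hPS, mem_UU_of t1 hn0 t4 hmn hm ⟨q, by rw [hm']; ring⟩, hqP,
        hzq, ?_⟩
      have h1 := t7 q hqn
      rw [e'] at h1
      exact lam_dvd_sub hqp (nz_dvd t6 hqn) (by nlinarith) h1
    · right
      push Not at hq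
      obtain ⟨E, ⟨m', hm'⟩, hE1, hE2⟩ := exists_divisor hz1 hzm hm0 hq
      have hEm : E ∣ m := ⟨m', hm'⟩
      have hEn : E ∣ n := hEm.trans hmn
      have hE0 : E ≠ 0 := by rintro rfl; rw [zero_mul] at hm'; exact hm0 hm'
      have hm'0 : 1 ≤ m' := by
        rcases Nat.eq_zero_or_pos m' with h | h
        · rw [h, mul_zero] at hm'; omega
        · exact h
      have e' : n = p * m' * E := by rw [e, hm']; ring
      have hDn : p * m' ∣ n := ⟨E, e'⟩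
      have hLD := t7 _ hDn
      have hm'U : m' ∈ UU x 1 := mem_UU_of t1 hn0 t4 hmn hm ⟨E, by rw [hm']; ring⟩
      have hEP : E.primeFactors ⊆ PP x 1 := (Nat.primeFactors_mono hEm hm0).trans hm
      rcases le_or_gt (zz x) (Lam x (p * m')) with hL | hL
      · left
        have hNz1 : Nz x 1 := nz_dvd t6 (one_dvd n)
        refine ⟨p, m', E, e', t1, hPS, hm'U, hL,
          Nat.pos_of_ne_zero hE0, Odd.of_dvd_nat t5 hEn, hE1, hE2, ?_, nz_dvd t6 hEn,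
          sy_of_PP hNz1 E hE0 hEP⟩
        rw [← e']; exact hLD
      · right; left
        have hN0 : 0 < Lam x (p * m') := Nat.pos_of_dvd_of_pos hLD (by omega)
        have hsub : ∀ q : ℕ, q ∣ p * m' → Lam x q ∣ Lam x (p * m') :=
          fun q hq => lam_dvd_lam hq
        have hb : (p : ℝ) ≤ (zz x) ^ (25 / 12 : ℝ) := by
          refine hsp x p (zz x) hp hpx hnzp hDz hz1 ?_
          have := Nat.le_of_dvd hN0 (hsub p (dvd_mul_right _ _))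
          have h2 : (Lam x p : ℝ) ≤ Lam x (p * m') := by exact_mod_cast this
          linarith
        refine ⟨p * E, m', 1, Lam x (p * m'), by rw [e']; ring, ?_, ?_, one_dvd _, hN0,
          hL.le, hm'0, (mem_UU.1 hm'U).1.2, (mem_UU.1 hm'U).2.1, ?_⟩
        · exact Nat.mul_pos hp.pos (Nat.pos_of_ne_zero hE0)
        · have := z_bound hz1 (Nat.cast_nonneg p) (show (0 : ℝ) ≤ 1 by norm_num)
            (Nat.cast_nonneg E) hb (one_le_rpow hz1 (by norm_num)) hE2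
          rw [mul_one] at this
          push_cast
          exact this
        · intro q hq
          rw [mem_PL]
          refine ⟨(mem_UU.1 hm'U).2.2 hq, hsub q ?_⟩
          exact (Nat.dvd_of_mem_primeFactors hq).trans (dvd_mul_left _ _)
  · right; right; right
    have h1 : (Lam x p : ℝ) ≤ zz x := by
      have := Nat.le_of_dvd (by omega) hLm
      have h2 : (Lam x p : ℝ) ≤ m := by
        have : Lam x p ≤ m := by omega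
        exact_mod_cast this
      linarith
    have hb : (p : ℝ) ≤ (zz x) ^ (25 / 12 : ℝ) := hsp x p (zz x) hp hpx hnzp hDz hz1 h1
    calc (n : ℝ) = p * m := by rw [e]; push_cast; ring
      _ ≤ (zz x) ^ (25 / 12 : ℝ) * zz x := mul_le_mul hb hzm.le (Nat.cast_nonneg _) (by positivity)
      _ = (zz x) ^ (25 / 12 + 1 : ℝ) := by rw [rpow_add hz0, rpow_one]
      _ ≤ (zz x) ^ (4 : ℝ) := rpow_le_rpow_of_exponent_le hz1 (by norm_num)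
      _ = (zz x) ^ 4 := by rw [show (4 : ℝ) = ((4 : ℕ) : ℝ) by norm_num, rpow_natCast]

end Pool.Agent.K1H88.WS
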