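import Pool.Agent.K1H88.WS.Sparse
import Pool.Agent.Helper112.Arith

set_option autoImplicit false

/-! Sums over the parameters. -/

namespace Pool.Agent.K1H88.WS

open Finset Real Pool.Agent.W57.SW

open Classical in
/-- squarefree products of the primes of `PP` -/
noncomputable def UU (x m0 : ℕ) : Finset ℕ :=
  (Icc 1 x).filter (fun m => Squarefree m ∧ m.primeFactors ⊆ PP x m0)

lemma mem_UU {x m0 m : ℕ} : m ∈ UU x m0 ↔ (1 ≤ m ∧ m ≤ x) ∧ Squarefree m ∧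
    m.primeFactors ⊆ PP x m0 := by
  unfold UU
  simp only [mem_filter, mem_Icc]

lemma UU_sum (e : ℝ) (he : 0 < e) : ∃ R : ℝ, 0 < R ∧ ∀ x m0 : ℕ,
    ∑ m ∈ UU x m0, (m : ℝ) ^ (-(1 / 2 + 2 * e)) ≤ R := by
  obtain ⟨R, _, hR⟩ := PP_sum e he
  refine ⟨exp R, exp_pos _, fun x m0 => ?_⟩
  refine (gen_sum (PP x m0) (UU x m0) _ fun m hm => (mem_UU.1 hm).2).trans ?_
  exact exp_le_exp.2 (hR x m0)

lemma tele {L : ℕ} (hL : 1 ≤ L) : ∀ x : ℕ, L ≤ x →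
    1 / (L : ℝ) = 1 / x + ∑ t ∈ Ico L x, 1 / ((t : ℝ) * (t + 1)) := by
  intro x hx
  induction x, hx using Nat.le_induction with
  | base => simp
  | succ x hx ih =>
    rw [Finset.sum_Ico_succ_top hx, ih]
    have hx0 : (0 : ℝ) < x := by exact_mod_cast (by omega : 0 < x)
    push_cast
    field_simp
    ring

/-- the sum of the inverses of the orders -/
theorem inv_lam_sum (e : ℝ) (he : 0 < e) : ∃ C : ℝ, 0 < C ∧ ∀ x : ℕ, 1 ≤ x → ∀ P : Finset ℕ,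
    (∀ p ∈ P, p.Prime ∧ p ≤ x ∧ Nz x p) → ∑ p ∈ P, 1 / ((Lam x p : ℕ) : ℝ) ≤ C * (x : ℝ) ^ e := by
  classical
  obtain ⟨C, hC, hord⟩ := ord_count (e / 2) (half_pos he)
  have hlog : ∃ C' : ℝ, 0 < C' ∧ ∀ x : ℝ, 1 ≤ x → 2 + log x ≤ C' * x ^ (e / 2) := by
    refine ⟨2 + 2 / e, by positivity, fun x hx => ?_⟩
    have h1 : log x ≤ x ^ (e / 2) / (e / 2) := log_le_rpow_div (by linarith) (half_pos he)
    have h2 : 1 ≤ x ^ (e / 2) := one_le_rpow hx (half_pos he).le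
    have h3 : x ^ (e / 2) / (e / 2) = 2 / e * x ^ (e / 2) := by field_simp
    rw [h3] at h1
    nlinarith
  obtain ⟨C', hC', hlog⟩ := hlog
  refine ⟨C * C', by positivity, ?_⟩
  intro x hx P hP
  have hx1 : (1 : ℝ) ≤ x := by exact_mod_cast hx
  have hx0 : (0 : ℝ) < x := by linarith
  have hlam : ∀ p ∈ P, 1 ≤ Lam x p ∧ Lam x p ≤ x := by
    intro p hp
    obtain ⟨a1, a2, a3⟩ := hP p hp
    refine ⟨lam_pos a1 a3, ?_⟩
    have h1 := Nat.le_of_dvd (Nat.sub_pos_of_lt a1.one_lt) (lam_dvd_pred a1 a3)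
    omega
  have h1 : ∑ p ∈ P, 1 / ((Lam x p : ℕ) : ℝ) = P.card / x +
      ∑ t ∈ Ico 1 x, ((P.filter (fun p => Lam x p ≤ t)).card : ℝ) * (1 / ((t : ℝ) * (t + 1))) := by
    have h2 : ∀ p ∈ P, 1 / ((Lam x p : ℕ) : ℝ) = 1 / x +
        ∑ t ∈ Ico 1 x, (if Lam x p ≤ t then 1 / ((t : ℝ) * (t + 1)) else 0) := by
      intro p hp
      rw [tele (hlam p hp).1 x (hlam p hp).2]
      congr 1
      rw [← sum_filter]
      refine sum_congr ?_ fun _ _ => rfl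
      ext t
      rw [mem_filter, mem_Ico, mem_Ico]
      have := (hlam p hp).1
      omega
    rw [sum_congr rfl h2, sum_add_distrib, sum_const, nsmul_eq_mul, sum_comm]
    congr 1
    · ring
    · refine sum_congr rfl fun t _ => ?_
      rw [← sum_filter, sum_const, nsmul_eq_mul]
  have hN : ∀ t : ℕ, 1 ≤ t → t ≤ x → ((P.filter (fun p => Lam x p ≤ t)).card : ℝ) ≤
      C * t * (x : ℝ) ^ (e / 2) := by
    intro t ht htx
    apply hord x hx t ht htx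
    intro p hp
    rw [mem_filter] at hp
    obtain ⟨a1, a2, a3⟩ := hP p hp.1
    exact ⟨a1, a2, a3, hp.2⟩
  have h2 : (P.card : ℝ) / x ≤ C * (x : ℝ) ^ (e / 2) := by
    have h3 := hN x hx le_rfl
    have h4 : P.filter (fun p => Lam x p ≤ x) = P :=
      filter_true_of_mem fun p hp => (hlam p hp).2
    rw [h4] at h3
    rw [div_le_iff₀ hx0]
    calc (P.card : ℝ) ≤ _ := h3
      _ = _ := by ring
  have h3 : ∑ t ∈ Ico 1 x, ((P.filter (fun p => Lam x p ≤ t)).card : ℝ) *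
      (1 / ((t : ℝ) * (t + 1))) ≤ C * (x : ℝ) ^ (e / 2) * (1 + log x) := by
    have h4 : ∀ t ∈ Ico 1 x, ((P.filter (fun p => Lam x p ≤ t)).card : ℝ) *
        (1 / ((t : ℝ) * (t + 1))) ≤ C * (x : ℝ) ^ (e / 2) * (1 / (t : ℝ)) := by
      intro t ht
      rw [mem_Ico] at ht
      have ht0 : (0 : ℝ) < t := by exact_mod_cast ht.1
      have h5 := hN t ht.1 ht.2.le
      calc _ ≤ (C * t * (x : ℝ) ^ (e / 2)) * (1 / ((t : ℝ) * (t + 1))) :=
            mul_le_mul_of_nonneg_right h5 (by positivity)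
        _ = C * (x : ℝ) ^ (e / 2) * (1 / ((t : ℝ) + 1)) := by field_simp
        _ ≤ C * (x : ℝ) ^ (e / 2) * (1 / (t : ℝ)) := by
            apply mul_le_mul_of_nonneg_left _ (by positivity)
            exact one_div_le_one_div_of_le ht0 (by linarith)
    refine (sum_le_sum h4).trans ?_
    rw [← mul_sum]
    apply mul_le_mul_of_nonneg_left _ (by positivity)
    have h5 := harmonic_le_one_add_log x
    rw [harmonic_eq_sum_Icc] at h5
    push_cast at h5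
    refine le_trans (le_trans (sum_le_sum_of_subset_of_nonneg (t := Icc 1 x) ?_ ?_)
      (le_of_eq ?_)) h5
    · intro t ht
      rw [mem_Ico] at ht
      exact mem_Icc.2 ⟨ht.1, ht.2.le⟩
    · intro t _ _; positivity
    · exact sum_congr rfl fun t _ => one_div _
  have h4 := hlog x hx1
  rw [h1]
  calc _ ≤ C * (x : ℝ) ^ (e / 2) + C * (x : ℝ) ^ (e / 2) * (1 + log x) := add_le_add h2 h3
    _ = C * (x : ℝ) ^ (e / 2) * (2 + log x) := by ring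
    _ ≤ C * (x : ℝ) ^ (e / 2) * (C' * (x : ℝ) ^ (e / 2)) :=
        mul_le_mul_of_nonneg_left h4 (by positivity)
    _ = C * C' * ((x : ℝ) ^ (e / 2) * (x : ℝ) ^ (e / 2)) := by ring
    _ = C * C' * (x : ℝ) ^ e := by rw [← rpow_add hx0]; congr 2; ring

lemma card_divisors_le (e : ℝ) (he : 0 < e) : ∃ C : ℝ, 0 < C ∧ ∀ x k : ℕ, 1 ≤ k → k ≤ x →
    (k.divisors.card : ℝ) ≤ C * (x : ℝ) ^ e := by
  obtain ⟨C, hC, h⟩ := Helper112.divisor_bound e he
  refine ⟨C, hC, fun x k hk hkx => (h k hk).trans ?_⟩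
  exact mul_le_mul_of_nonneg_left (rpow_le_rpow (Nat.cast_nonneg _) (by exact_mod_cast hkx) he.le)
    hC.le

/-- the sum over the parameters in case A -/
theorem sumA (e : ℝ) (he : 0 < e) : ∃ C : ℝ, 0 < C ∧ ∀ x : ℕ, 1 ≤ x →
    ∑ r ∈ QQ x, ∑ p1 ∈ r.divisors, ∑ m ∈ UU x p1, ((r : ℝ) * m) ^ (-(1 / 2 + 2 * e)) ≤
      C * (x : ℝ) ^ e := by
  obtain ⟨R, hR, hU⟩ := UU_sum e he
  obtain ⟨R', hR', hQ⟩ := QQ_sum e he
  obtain ⟨C, hC, hd⟩ := card_divisors_le e he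
  refine ⟨(R' + 1) * C * R, by positivity, fun x hx => ?_⟩
  have h1 : ∀ r ∈ QQ x, ∑ p1 ∈ r.divisors, ∑ m ∈ UU x p1, ((r : ℝ) * m) ^ (-(1 / 2 + 2 * e)) ≤
      (r : ℝ) ^ (-(1 / 2 + 2 * e)) * (C * (x : ℝ) ^ e * R) := by
    intro r hr
    obtain ⟨⟨a1, a2⟩, _⟩ := mem_QQ.1 hr
    have h2 : ∀ p1 ∈ r.divisors, ∑ m ∈ UU x p1, ((r : ℝ) * m) ^ (-(1 / 2 + 2 * e)) ≤
        (r : ℝ) ^ (-(1 / 2 + 2 * e)) * R := by
      intro p1 _
      have h3 : ∀ m ∈ UU x p1, ((r : ℝ) * m) ^ (-(1 / 2 + 2 * e)) =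
          (r : ℝ) ^ (-(1 / 2 + 2 * e)) * (m : ℝ) ^ (-(1 / 2 + 2 * e)) := by
        intro m _
        exact mul_rpow (Nat.cast_nonneg _) (Nat.cast_nonneg _)
      rw [sum_congr rfl h3, ← mul_sum]
      exact mul_le_mul_of_nonneg_left (hU x p1) (by positivity)
    refine (sum_le_sum h2).trans ?_
    rw [sum_const, nsmul_eq_mul]
    have h3 := hd x r a1 a2
    calc (r.divisors.card : ℝ) * ((r : ℝ) ^ (-(1 / 2 + 2 * e)) * R) ≤
        (C * (x : ℝ) ^ e) * ((r : ℝ) ^ (-(1 / 2 + 2 * e)) * R) :=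
          mul_le_mul_of_nonneg_right h3 (by positivity)
      _ = _ := by ring
  refine (sum_le_sum h1).trans ?_
  rw [← sum_mul]
  calc (∑ r ∈ QQ x, (r : ℝ) ^ (-(1 / 2 + 2 * e))) * (C * (x : ℝ) ^ e * R) ≤
      (R' + 1) * (C * (x : ℝ) ^ e * R) :=
        mul_le_mul_of_nonneg_right ((hQ x).trans (by linarith)) (by positivity)
    _ = _ := by ring

/-- a union bound with weights -/
lemma count_le {ι : Type*} (K : Finset ι) (A : Finset ℕ) (G : ι → Finset ℕ) (w : ι → ℝ) (B : ℝ)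
    (hcov : ∀ n ∈ A, ∃ k ∈ K, n ∈ G k) (hG : ∀ k ∈ K, ((G k).card : ℝ) ≤ B * w k) :
    (A.card : ℝ) ≤ B * ∑ k ∈ K, w k := by
  classical
  have h1 : A ⊆ K.biUnion G := by
    intro n hn
    obtain ⟨k, hk, h⟩ := hcov n hn
    exact mem_biUnion.2 ⟨k, hk, h⟩
  have h2 := (card_le_card h1).trans card_biUnion_le
  have h3 : (A.card : ℝ) ≤ ∑ k ∈ K, ((G k).card : ℝ) := by exact_mod_cast h2
  refine h3.trans ?_
  rw [mul_sum]
  exact sum_le_sum hG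

end Pool.Agent.K1H88.WS
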